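import Pool.Agent.W_317df6_h83.P2c

/-!
# MP_317df6_an, mass-subcritical case: definitions

Translation representations, the semigroup `S_θ(t) = e^{t e^{iθ} Δ}` in any translation invariant
Banach space, the space `ZS N` of pairs (function in `C_0`, its class in `L²`), the truncated
nonlinearity.
-/

set_option autoImplicit false

namespace CGL.Neg

open MeasureTheory Set Filter CGL
open scoped ZeroAtInfty ComplexConjugate Topology NNReal ENNReal

/-- An isometric strongly continuous representation of the translations of `ℝ^N`. -/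
structure Rep (N : ℕ) (Z : Type) [NormedAddCommGroup Z] [NormedSpace ℂ Z] where
  T : E N → Z →L[ℂ] Z
  zero : ∀ z, T 0 z = z
  add : ∀ x y z, T x (T y z) = T (x + y) z
  norm : ∀ y z, ‖T y z‖ = ‖z‖
  cont : ∀ z, Continuous fun y => T y z

variable {N : ℕ} {Z : Type} [NormedAddCommGroup Z] [NormedSpace ℂ Z]

theorem K_int {θ : ℝ} (hθ : 0 < Real.cos θ) : Integrable (K N (eth θ)) := by
  have h := K_integrable (N := N) hθ one_pos
  simpa using h

theorem K_cont1 {θ : ℝ} (hθ : 0 < Real.cos θ) : Continuous (K N (eth θ)) := by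
  apply K_cont
  rw [eth_re]
  exact hθ

theorem Rep.integrable (R : Rep N Z) {θ : ℝ} (hθ : 0 < Real.cos θ) (c : ℝ) (g : Z) :
    Integrable fun w : E N => K N (eth θ) w • R.T (c • w) g := by
  refine Integrable.mono' ((K_int (N := N) hθ).norm.mul_const ‖g‖) ?_ ?_
  · exact ((K_cont1 hθ).smul ((R.cont g).comp (continuous_const_smul c))).aestronglyMeasurable
  · filter_upwards with w
    rw [norm_smul, R.norm]

/-- `S_θ(t) g = ∫ K(e^{iθ},w) T(√t w) g dw`  (`= ∫ K(t e^{iθ},y) T(y) g dy` for `t > 0`) -/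
noncomputable def Rep.S (R : Rep N Z) (θ t : ℝ) : Z →L[ℂ] Z :=
  if h : 0 < Real.cos θ then
    LinearMap.mkContinuous
      { toFun := fun g => ∫ w : E N, K N (eth θ) w • R.T (Real.sqrt t • w) g
        map_add' := fun a b => by
          rw [← integral_add (R.integrable h _ a) (R.integrable h _ b)]
          simp [smul_add]
        map_smul' := fun c a => by
          rw [RingHom.id_apply, ← integral_smul]
          simp [smul_comm c] }
      (∫ w : E N, ‖K N (eth θ) w‖)
      (fun g => by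
        refine (norm_integral_le_integral_norm _).trans (le_of_eq ?_)
        simp only [norm_smul, R.norm, integral_mul_const])
  else ContinuousLinearMap.id ℂ Z

theorem Rep.S_apply (R : Rep N Z) {θ : ℝ} (hθ : 0 < Real.cos θ) (t : ℝ) (g : Z) :
    R.S θ t g = ∫ w : E N, K N (eth θ) w • R.T (Real.sqrt t • w) g := by
  simp [Rep.S, hθ]

/-- translations on `C_0` -/
noncomputable def TC (y : E N) : C₀(E N, ℂ) →L[ℂ] C₀(E N, ℂ) :=
  LinearMap.mkContinuous
    { toFun := fun f => f.comp (Homeomorph.subRight y).toCocompactMap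
      map_add' := fun _ _ => rfl
      map_smul' := fun _ _ => rfl } 1
    (fun f => by
      rw [one_mul, ← ZeroAtInftyContinuousMap.norm_toBCF_eq_norm,
        BoundedContinuousFunction.norm_le (norm_nonneg _)]
      intro x
      rw [← ZeroAtInftyContinuousMap.norm_toBCF_eq_norm (f := f)]
      exact f.toBCF.norm_coe_le_norm (x - y))

theorem TC_apply (y : E N) (f : C₀(E N, ℂ)) (x : E N) : TC y f x = f (x - y) := rfl

/-- translations on `L²` -/
noncomputable def TL (y : E N) :
    Lp ℂ 2 (volume : Measure (E N)) →ₗᵢ[ℂ] Lp ℂ 2 (volume : Measure (E N)) :=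
  Lp.compMeasurePreservingₗᵢ ℂ (fun x => x - y) (measurePreserving_sub_right volume y)

theorem TL_coe (y : E N) (g : Lp ℂ 2 (volume : Measure (E N))) :
    (TL y g : E N → ℂ) =ᵐ[volume] fun x => g (x - y) :=
  Lp.coeFn_compMeasurePreserving g (measurePreserving_sub_right volume y)

/-- pairs `(f, g)`, `f ∈ C_0` and `g ∈ L²` its class -/
noncomputable def ZS (N : ℕ) : Submodule ℂ (C₀(E N, ℂ) × Lp ℂ 2 (volume : Measure (E N))) where
  carrier := {p | (p.2 : E N → ℂ) =ᵐ[volume] (p.1 : E N → ℂ)}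
  add_mem' := by
    intro a b ha hb
    have h := Lp.coeFn_add a.2 b.2
    simp only [mem_setOf_eq] at ha hb
    show ((a.2 + b.2 : Lp ℂ 2 (volume : Measure (E N))) : E N → ℂ) =ᵐ[volume] (a.1 + b.1 : C₀(E N, ℂ))
    filter_upwards [h, ha, hb] with x hx h1 h2
    rw [hx, Pi.add_apply, h1, h2, ZeroAtInftyContinuousMap.add_apply]
  zero_mem' := by
    have h := Lp.coeFn_zero ℂ 2 (volume : Measure (E N))
    show ((0 : Lp ℂ 2 (volume : Measure (E N))) : E N → ℂ) =ᵐ[volume] (0 : C₀(E N, ℂ))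
    filter_upwards [h] with x hx
    rw [hx]
    rfl
  smul_mem' := by
    intro c a ha
    have h := Lp.coeFn_smul c a.2
    simp only [mem_setOf_eq] at ha
    show ((c • a.2 : Lp ℂ 2 (volume : Measure (E N))) : E N → ℂ) =ᵐ[volume] (c • a.1 : C₀(E N, ℂ))
    filter_upwards [h, ha] with x hx h1
    rw [hx, Pi.smul_apply, h1, ZeroAtInftyContinuousMap.smul_apply]

/-- translations on `ZS N` -/
noncomputable def TZ (y : E N) : ZS N →L[ℂ] ZS N :=
  LinearMap.mkContinuous (E := ZS N) (F := ZS N)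
    { toFun := fun z => ⟨(TC y z.1.1, TL y z.1.2), by
        have h1 := TL_coe y z.1.2
        have h2 : (z.1.2 : E N → ℂ) =ᵐ[volume] (z.1.1 : E N → ℂ) := z.2
        have h3 := (measurePreserving_sub_right volume y).quasiMeasurePreserving.ae_eq_comp h2
        show (TL y z.1.2 : E N → ℂ) =ᵐ[volume] (TC y z.1.1 : E N → ℂ)
        refine h1.trans ?_
        exact h3⟩
      map_add' := fun a b => by
        apply Subtype.ext
        simp
      map_smul' := fun c a => by
        apply Subtype.ext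
        simp } 1
    (fun z => by
      rw [one_mul]
      have h1 : ‖(TC y z.1.1)‖ ≤ ‖z.1.1‖ := by
        rw [← ZeroAtInftyContinuousMap.norm_toBCF_eq_norm,
          BoundedContinuousFunction.norm_le (norm_nonneg _)]
        intro x
        rw [← ZeroAtInftyContinuousMap.norm_toBCF_eq_norm (f := z.1.1)]
        exact z.1.1.toBCF.norm_coe_le_norm (x - y)
      have h2 : ‖(TL y z.1.2)‖ = ‖z.1.2‖ := (TL y).norm_map _
      exact max_le_max h1 h2.le)

theorem TZ_fst (y : E N) (z : ZS N) : (TZ y z).1.1 = TC y z.1.1 := rfl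

theorem TZ_snd (y : E N) (z : ZS N) : (TZ y z).1.2 = TL y z.1.2 := rfl

/-- composition with a Lipschitz function `G : ℂ → ℂ`, `G 0 = 0`, in `ZS N` -/
noncomputable def post {L : ℝ≥0} {G : ℂ → ℂ} (hG : LipschitzWith L G) (h0 : G 0 = 0) (z : ZS N) :
    ZS N :=
  ⟨(⟨⟨fun x => G (z.1.1 x), hG.continuous.comp z.1.1.continuous⟩, by
      have h := (hG.continuous.tendsto 0).comp z.1.1.zero_at_infty'
      rw [h0] at h
      exact h⟩, hG.compLp h0 z.1.2), by
    have h1 := hG.coeFn_compLp h0 z.1.2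
    have h2 : (z.1.2 : E N → ℂ) =ᵐ[volume] (z.1.1 : E N → ℂ) := z.2
    show (hG.compLp h0 z.1.2 : E N → ℂ) =ᵐ[volume] fun x => G (z.1.1 x)
    filter_upwards [h1, h2] with x hx hy
    rw [hx, Function.comp_apply, hy]⟩

theorem post_fst {L : ℝ≥0} {G : ℂ → ℂ} (hG : LipschitzWith L G) (h0 : G 0 = 0) (z : ZS N)
    (x : E N) : (post hG h0 z).1.1 x = G (z.1.1 x) := rfl

theorem post_snd {L : ℝ≥0} {G : ℂ → ℂ} (hG : LipschitzWith L G) (h0 : G 0 = 0) (z : ZS N) :
    (post hG h0 z).1.2 = hG.compLp h0 z.1.2 := rfl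

/-- the truncated nonlinearity `min(|z|,R)^α z` -/
noncomputable def tn (α R : ℝ) (z : ℂ) : ℂ := (((min ‖z‖ R) ^ α : ℝ) : ℂ) * z

/-- `e^{iθ} min(|z|,R)^α z + γ z` -/
noncomputable def TF (α θ γ R : ℝ) (z : ℂ) : ℂ := eth θ * tn α R z + (γ : ℂ) * z

/-- `∫ min(|f|,R)^α |f|²` -/
noncomputable def PR (α R : ℝ) (z : ZS N) : ℝ :=
  ∫ x, (min ‖z.1.1 x‖ R) ^ α * ‖z.1.1 x‖ ^ 2

/-- the exponent `1 + 2α/(4-Nα)` -/
noncomputable def qe (N : ℕ) (α : ℝ) : ℝ := 1 + 2 * α / (4 - N * α)

end CGL.Neg
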