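import Mathlib

/-!
# Real variable part of the mass estimate
-/

set_option autoImplicit false

namespace CGL.Neg

open MeasureTheory Set Filter
open scoped Topology

/-- Proof.  (1) `M t ≤ M 0 + ε (1 + t)` for all small `ε > 0` by
`image_le_of_liminf_slope_right_lt_deriv_boundary'`: if `M t = M 0 + ε (1+t)` then
`-2cP + 4Cc M^q + 2γM ≤ (4Cc M^(q-1) + 2γ) M ≤ 0 < ε` when `ε` is small (continuity of
`x ↦ x^(q-1)` at `M 0`, `4 C c (M 0)^(q-1) ≤ -γ < -2γ`).  So `M t ≤ M 0`.
(2) with `B t = M 0 - 2c ∫_0^t P`, `image_le_of_liminf_slope_right_le_deriv_boundary`. -/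
theorem mass_real {M P : ℝ → ℝ} (hM : Continuous M) (hP : Continuous P) (hM0 : ∀ t, 0 ≤ M t)
    (hP0 : ∀ t, 0 ≤ P t) {C c γ q T : ℝ} (hC : 0 < C) (hc : 0 < c) (hγ : γ < 0) (hq : 1 < q)
    (h0 : 4 * C * c * (M 0) ^ (q - 1) ≤ -γ)
    (hs : ∀ t ∈ Ico 0 T, ∀ r : ℝ, -2 * c * P t + 4 * C * c * (M t) ^ q + 2 * γ * M t < r →
      ∃ᶠ x in 𝓝[>] t, slope M t x < r) :
    ∀ t ∈ Icc 0 T, M t ≤ M 0 ∧ 2 * c * ∫ s in (0:ℝ)..t, P s ≤ M 0 := by
  have hCc : 0 < 4 * C * c := by positivity
  have hpow : ∀ t, (M t) ^ q = (M t) ^ (q - 1) * M t := by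
    intro t
    have h := Real.rpow_add_one' (hM0 t) (y := q - 1) (by linarith)
    rw [sub_add_cancel] at h
    exact h
  have key : ∀ t, 4 * C * c * (M t) ^ (q - 1) ≤ -2 * γ →
      -2 * c * P t + 4 * C * c * (M t) ^ q + 2 * γ * M t ≤ -2 * c * P t := by
    intro t ht
    rw [hpow t]
    have h1 : 4 * C * c * (M t) ^ (q - 1) * M t ≤ -2 * γ * M t :=
      mul_le_mul_of_nonneg_right ht (hM0 t)
    nlinarith [h1]
  -- step 1
  have step1 : ∀ t ∈ Icc 0 T, M t ≤ M 0 := by
    intro t ht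
    have hT : 0 ≤ T := ht.1.trans ht.2
    -- continuity
    have hcont : Continuous fun ε : ℝ => 4 * C * c * (M 0 + ε * (1 + T)) ^ (q - 1) := by
      refine continuous_const.mul ?_
      exact (Real.continuous_rpow_const (by linarith)).comp (by fun_prop)
    have hev : ∀ᶠ ε : ℝ in 𝓝[>] 0, 4 * C * c * (M 0 + ε * (1 + T)) ^ (q - 1) < -2 * γ := by
      have : ∀ᶠ ε : ℝ in 𝓝 0, 4 * C * c * (M 0 + ε * (1 + T)) ^ (q - 1) < -2 * γ := by
        refine hcont.continuousAt.eventually_lt continuousAt_const ?_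
        simp only [zero_mul, add_zero]
        linarith
      exact this.filter_mono nhdsWithin_le_nhds
    have hle : ∀ᶠ ε : ℝ in 𝓝[>] 0, M t ≤ M 0 + ε * (1 + t) := by
      filter_upwards [hev, self_mem_nhdsWithin] with ε hε hε0
      have hε0' : (0 : ℝ) < ε := hε0
      refine image_le_of_liminf_slope_right_lt_deriv_boundary' (f := M)
        (f' := fun t => -2 * c * P t + 4 * C * c * (M t) ^ q + 2 * γ * M t)
        (a := 0) (b := T) hM.continuousOn hs
        (B := fun t => M 0 + ε * (1 + t)) (B' := fun _ => ε) ?_ ?_ ?_ ?_ ht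
      · simp only [add_zero, mul_one]
        linarith
      · fun_prop
      · intro x _
        have : HasDerivAt (fun t : ℝ => M 0 + ε * (1 + t)) ε x := by
          simpa using (((hasDerivAt_id x).const_add 1).const_mul ε).const_add (M 0)
        exact this.hasDerivWithinAt
      · intro x hx hxe
        have h1 : M x ≤ M 0 + ε * (1 + T) := by
          rw [hxe]
          have := hx.2
          nlinarith
        have h2 : (M x) ^ (q - 1) ≤ (M 0 + ε * (1 + T)) ^ (q - 1) :=
          Real.rpow_le_rpow (hM0 x) h1 (by linarith)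
        have h3 : 4 * C * c * (M x) ^ (q - 1) ≤ -2 * γ :=
          (mul_le_mul_of_nonneg_left h2 hCc.le).trans hε.le
        have h4 := key x h3
        have h5 : 0 ≤ 2 * c * P x := mul_nonneg (by linarith) (hP0 x)
        show -2 * c * P x + 4 * C * c * (M x) ^ q + 2 * γ * M x < ε
        linarith
    have hlim : Tendsto (fun ε : ℝ => M 0 + ε * (1 + t)) (𝓝[>] 0) (𝓝 (M 0)) := by
      have : Tendsto (fun ε : ℝ => M 0 + ε * (1 + t)) (𝓝 0) (𝓝 (M 0 + 0 * (1 + t))) :=
        (Continuous.tendsto (by fun_prop) 0)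
      rw [zero_mul, add_zero] at this
      exact this.mono_left nhdsWithin_le_nhds
    exact ge_of_tendsto hlim hle
  -- step 2
  intro t ht
  refine ⟨step1 t ht, ?_⟩
  have hB : M t ≤ M 0 - 2 * c * ∫ s in (0:ℝ)..t, P s := by
    have hd : ∀ x : ℝ, HasDerivAt (fun t => M 0 - 2 * c * ∫ s in (0:ℝ)..t, P s) (-2 * c * P x) x := by
      intro x
      have h1 : HasDerivAt (fun t => ∫ s in (0:ℝ)..t, P s) (P x) x :=
        intervalIntegral.integral_hasDerivAt_right (hP.intervalIntegrable _ _)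
          (hP.stronglyMeasurableAtFilter _ _) hP.continuousAt
      have h2 := (h1.const_mul (2 * c)).const_sub (M 0)
      have h3 : -(2 * c * P x) = -2 * c * P x := by ring
      rw [h3] at h2
      exact h2
    refine image_le_of_liminf_slope_right_le_deriv_boundary (f := M) (a := 0) (b := T)
      hM.continuousOn (B := fun t => M 0 - 2 * c * ∫ s in (0:ℝ)..t, P s)
      (B' := fun x => -2 * c * P x) ?_ ?_ ?_ ?_ ht
    · simp
    · exact fun x _ => (hd x).continuousAt.continuousWithinAt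
    · exact fun x _ => (hd x).hasDerivWithinAt
    · intro x hx r hr
      refine hs x hx r (lt_of_le_of_lt ?_ hr)
      refine key x ?_
      have h1 : M x ≤ M 0 := step1 x ⟨hx.1, hx.2.le⟩
      have h2 : (M x) ^ (q - 1) ≤ (M 0) ^ (q - 1) := Real.rpow_le_rpow (hM0 x) h1 (by linarith)
      have h3 : 4 * C * c * (M x) ^ (q - 1) ≤ -γ := (mul_le_mul_of_nonneg_left h2 hCc.le).trans h0
      linarith
  have := hM0 t
  linarith

end CGL.Neg
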