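import Pool.Agent.W_317df6_h77.NashB

/-!
# A Nash type inequality

For `v ∈ ZS N`, `M = ‖v‖₂²`, levels `λ_k = 2^{kN/4} λ_0` and times `s_k = 2^{-k} s_0` with
`λ_0 = 2 A s_0^{-N/4} M^{1/2}` (`A` from `heat_sup`), `|S_0(s_k) v| ≤ λ_k/2`, so on `{|v| > λ_k}`
one has `|v| ≤ 2 |v - S_0(s_k) v|`.  With `J` such that `R ≤ λ_{J+1}`
`min(|v|,R)^α |v|² ≤ λ_0^α |v|² + ∑_{k ≤ J} λ_{k+1}^α 4 |v - S_0(s_k) v|²` (`nash_pt`), and
`‖v - S_0(s_k) v‖² ≤ M - ‖S_0(s_k) v‖² ≤ (s_k/s_J) (M - ‖S_0(s_J) v‖²)` (`Rep.sub_sq`, `Rep.dyadic`),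
so `PR ≤ λ_0^α M + 4·2^{Nα/4} λ_0^α s_0 ∑_k 2^{-k(1-Nα/4)} Δ`, `Δ = (M - ‖S_0(s_J) v‖²)/s_J`.
Choose `s_0` with `4·2^{Nα/4} λ_0^α s_0/(1-2^{-(1-Nα/4)}) = 1/4`; then `λ_0^α M = C M^{qe}`.
-/

set_option autoImplicit false

namespace CGL.Neg

open MeasureTheory Set Filter CGL
open scoped ZeroAtInfty ComplexConjugate Topology NNReal ENNReal

variable {N : ℕ}

theorem Nash_cos0 : 0 < Real.cos 0 := by rw [Real.cos_zero]; exact one_pos

theorem Nash_contr (t : ℝ) (z : ZS N) : ‖((RZ N).S 0 t z).1.2‖ ≤ ‖z.1.2‖ := by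
  rw [RZ_snd Nash_cos0]
  exact (RL N).S0_norm_le t z.1.2

theorem Nash_dyadic {s : ℝ} (hs : 0 ≤ s) (z : ZS N) (k : ℕ) :
    ‖z.1.2‖ ^ 2 - ‖((RZ N).S 0 s z).1.2‖ ^ 2 ≤
      2 ^ k * (‖z.1.2‖ ^ 2 - ‖((RZ N).S 0 (s / 2 ^ k) z).1.2‖ ^ 2) := by
  rw [RZ_snd Nash_cos0, RZ_snd Nash_cos0]
  exact (RL N).dyadic hs z.1.2 k

theorem Nash_PR_zero {α R : ℝ} (hα : 0 < α) (hR : 0 < R) (z : ZS N) (h : ‖z.1.2‖ = 0) :
    PR α R z ≤ 0 := by
  have h1 : PR α R z ≤ ∫ x, R ^ α * ‖z.1.1 x‖ ^ 2 := by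
    unfold PR
    refine integral_mono (PR_int hα hR z) ((int_sq z).const_mul _) fun x => ?_
    refine mul_le_mul_of_nonneg_right ?_ (by positivity)
    exact Real.rpow_le_rpow (le_min (norm_nonneg _) hR.le) (min_le_right _ _) hα.le
  rw [integral_const_mul, ← norm_snd, h] at h1
  simpa using h1

/-- geometric sum -/
theorem Nash_geom {x : ℝ} (h0 : 0 ≤ x) (h1 : x < 1) (n : ℕ) :
    ∑ k ∈ Finset.range n, x ^ k ≤ 1 / (1 - x) := by
  have h2 : 0 < 1 - x := by linarith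
  rw [le_div_iff₀ h2]
  have h3 := geom_sum_mul x n
  have h4 : (∑ k ∈ Finset.range n, x ^ k) * (1 - x) = 1 - x ^ n := by
    have : (∑ k ∈ Finset.range n, x ^ k) * (1 - x) = -((∑ k ∈ Finset.range n, x ^ k) * (x - 1)) := by
      ring
    rw [this, h3]
    ring
  rw [h4]
  have : 0 ≤ x ^ n := pow_nonneg h0 n
  linarith

theorem nash (hN : 1 ≤ N) {α : ℝ} (hα : 0 < α) (hα4 : α < 4 / N) : ∃ C : ℝ, 0 < C ∧
    ∀ R : ℝ, 0 < R → ∀ z : ZS N, ∃ s : ℝ, 0 < s ∧ ∀ k : ℕ,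
      ‖((RZ N).S 0 (s / 2 ^ k) z).1.2‖ ^ 2 ≤
        ‖z.1.2‖ ^ 2 - 4 * (s / 2 ^ k) * (PR α R z - C * (‖z.1.2‖ ^ 2) ^ qe N α) := by
  obtain ⟨A, hA, hsup⟩ := heat_sup N
  have hN0 : (0:ℝ) < N := by exact_mod_cast hN
  have hNα : (N:ℝ) * α < 4 := by
    have := mul_lt_mul_of_pos_left hα4 hN0
    rwa [mul_div_cancel₀ _ hN0.ne'] at this
  set δ : ℝ := 1 - N * α / 4 with hδ
  have hδ0 : 0 < δ := by rw [hδ]; linarith
  set x : ℝ := (2:ℝ) ^ (-δ) with hx
  have hx0 : 0 < x := Real.rpow_pos_of_pos two_pos _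
  have hx1 : x < 1 := Real.rpow_lt_one_of_one_lt_of_neg one_lt_two (by linarith)
  have hx2 : 0 < 1 - x := by linarith
  set B : ℝ := 4 * 2 ^ ((N:ℝ) * α / 4) / (1 - x) with hB
  have hB0 : 0 < B := by positivity
  set C : ℝ := (4 * B * (2 * A) ^ α) ^ (1 / δ) / (4 * B) with hC
  have hC0 : 0 < C := by positivity
  refine ⟨C, hC0, ?_⟩
  intro R hR z
  have hq0 : qe N α ≠ 0 := by
    unfold qe
    have : 0 < 2 * α / (4 - N * α) := by apply div_pos <;> linarith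
    linarith
  rcases (norm_nonneg z.1.2).eq_or_lt with hm | hm
  · refine ⟨1, one_pos, fun k => ?_⟩
    have h1 := Nash_contr (1 / 2 ^ k) z
    rw [← hm] at h1 ⊢
    have h2 : ‖((RZ N).S 0 (1 / 2 ^ k) z).1.2‖ = 0 := le_antisymm h1 (norm_nonneg _)
    rw [h2]
    have h3 := Nash_PR_zero hα hR z hm.symm
    have h4 : ((0:ℝ) ^ 2) ^ qe N α = 0 := by
      rw [zero_pow two_ne_zero, Real.zero_rpow hq0]
    rw [h4]
    have h5 : (0:ℝ) < 4 * (1 / 2 ^ k) := by positivity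
    nlinarith
  · set m := ‖z.1.2‖ with hmdef
    set s0 : ℝ := (4 * B * (2 * A) ^ α * m ^ α) ^ (-(1 / δ)) with hs0
    have hs0p : 0 < s0 := by positivity
    have hs0δ : s0 ^ δ = 1 / (4 * B * (2 * A) ^ α * m ^ α) := by
      rw [hs0, ← Real.rpow_mul (by positivity)]
      have : -(1 / δ) * δ = -1 := by field_simp
      rw [this, Real.rpow_neg_one, one_div]
    -- levels
    set lam : ℕ → ℝ := fun k => 2 * (A * (s0 / 2 ^ k) ^ (-((N:ℝ) / 4)) * m) with hlam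
    set s : ℕ → ℝ := fun k => s0 / 2 ^ k with hs
    have hspos : ∀ k, 0 < s k := fun k => by positivity
    have hlampos : ∀ k, 0 < lam k := fun k => by
      have := Real.rpow_pos_of_pos (hspos k) (-((N:ℝ) / 4))
      simp only [hlam]
      positivity
    -- closed form of the levels
    have hform : ∀ k, lam k = lam 0 * (2 ^ ((N:ℝ) / 4)) ^ k := by
      intro k
      simp only [hlam, pow_zero, div_one]
      have h1 : (s0 / 2 ^ k) ^ (-((N:ℝ) / 4)) = s0 ^ (-((N:ℝ) / 4)) * (2 ^ ((N:ℝ) / 4)) ^ k := by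
        rw [Real.div_rpow hs0p.le (by positivity), div_eq_mul_inv, ← Real.rpow_neg (by positivity)]
        congr 1
        rw [neg_neg, ← Real.rpow_natCast, ← Real.rpow_natCast, ← Real.rpow_mul two_pos.le,
          ← Real.rpow_mul two_pos.le, mul_comm]
      rw [h1]
      ring
    have hbase : 1 < (2:ℝ) ^ ((N:ℝ) / 4) := Real.one_lt_rpow one_lt_two (by positivity)
    have hmono : Monotone lam := by
      refine monotone_nat_of_le_succ fun k => ?_
      rw [hform k, hform (k+1), pow_succ]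
      have h1 : 0 < lam 0 * (2 ^ ((N:ℝ) / 4)) ^ k := by have := hlampos 0; positivity
      nlinarith
    obtain ⟨J, hJ⟩ := pow_unbounded_of_one_lt (R / lam 0) hbase
    have hJ' : R ≤ lam (J + 1) := by
      have h1 : R ≤ lam J := by
        rw [hform J]
        rw [div_lt_iff₀ (hlampos 0)] at hJ
        linarith
      exact h1.trans (hmono (Nat.le_succ J))
    have hw : ∀ k x, ‖((RZ N).S 0 (s k) z).1.1 x‖ ≤ lam k / 2 := by
      intro k y
      have h1 := hsup (s k) (hspos k) z y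
      simp only [hlam, hs] at h1 ⊢
      linarith
    have hsum := nash_sum hα hR z (hlampos 0) hmono hspos hJ' hw
    set D : ℝ := m ^ 2 - ‖((RZ N).S 0 (s J) z).1.2‖ ^ 2 with hD
    have hD0 : 0 ≤ D := by
      have h1 := Nash_contr (s J) z
      have h2 : ‖((RZ N).S 0 (s J) z).1.2‖ ^ 2 ≤ m ^ 2 := pow_le_pow_left₀ (norm_nonneg _) h1 2
      rw [hD]
      linarith
    -- each term
    have hterm : ∀ k ∈ Finset.range (J + 1),
        lam (k + 1) ^ α * (4 * (m ^ 2 - ‖((RZ N).S 0 (s k) z).1.2‖ ^ 2)) ≤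
          (lam 0 ^ α * (4 * 2 ^ ((N:ℝ) * α / 4)) * 2 ^ J * D) * x ^ k := by
      intro k hk
      have hkJ : k ≤ J := Nat.lt_succ_iff.1 (Finset.mem_range.1 hk)
      have h1 := Nash_dyadic (hspos k).le z (J - k)
      have h2 : s k / 2 ^ (J - k) = s J := by
        simp only [hs]
        rw [div_div, ← pow_add, Nat.add_sub_cancel' hkJ]
      rw [h2] at h1
      have h3 : lam (k + 1) ^ α = lam 0 ^ α * 2 ^ ((N:ℝ) * α / 4) * (2 ^ ((N:ℝ) * α / 4)) ^ k := by
        rw [hform (k+1), Real.mul_rpow (hlampos 0).le (by positivity)]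
        have h4 : ((2:ℝ) ^ ((N:ℝ) / 4)) ^ (k + 1) = 2 ^ ((N:ℝ) / 4 * ((k:ℝ) + 1)) := by
          rw [← Real.rpow_natCast, ← Real.rpow_mul two_pos.le]
          push_cast
          ring_nf
        have h5 : ((2:ℝ) ^ ((N:ℝ) * α / 4)) ^ k = 2 ^ ((N:ℝ) * α / 4 * k) := by
          rw [← Real.rpow_natCast, ← Real.rpow_mul two_pos.le]
        rw [h4, h5, ← Real.rpow_mul two_pos.le, mul_assoc (lam 0 ^ α), ← Real.rpow_add two_pos]
        congr 2
        ring
      have h6 : (2:ℝ) ^ (J - k) * (2 ^ ((N:ℝ) * α / 4)) ^ k = 2 ^ J * x ^ k := by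
        have h7 : (2:ℝ) ^ (J - k) = 2 ^ J * (2 ^ (-1:ℝ)) ^ k := by
          rw [Real.rpow_neg_one, inv_pow, ← div_eq_mul_inv, eq_div_iff (by positivity), ← pow_add,
            Nat.sub_add_cancel hkJ]
        rw [h7, mul_assoc, ← mul_pow, ← Real.rpow_add two_pos]
        congr 3
        rw [hδ]
        ring
      have h8 : 0 ≤ lam 0 ^ α := (Real.rpow_pos_of_pos (hlampos 0) _).le
      have h9 : (0:ℝ) ≤ 2 ^ ((N:ℝ) * α / 4) := by positivity
      calc lam (k + 1) ^ α * (4 * (m ^ 2 - ‖((RZ N).S 0 (s k) z).1.2‖ ^ 2))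
          ≤ lam (k + 1) ^ α * (4 * (2 ^ (J - k) * D)) := by
            refine mul_le_mul_of_nonneg_left ?_ (Real.rpow_nonneg (hlampos _).le _)
            exact mul_le_mul_of_nonneg_left h1 (by norm_num)
        _ = lam 0 ^ α * 2 ^ ((N:ℝ) * α / 4) * 4 * D *
              (2 ^ (J - k) * (2 ^ ((N:ℝ) * α / 4)) ^ k) := by
            rw [h3]
            ring
        _ = (lam 0 ^ α * (4 * 2 ^ ((N:ℝ) * α / 4)) * 2 ^ J * D) * x ^ k := by
            rw [h6]
            ring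
    have hsum2 : ∑ k ∈ Finset.range (J + 1),
        lam (k + 1) ^ α * (4 * (m ^ 2 - ‖((RZ N).S 0 (s k) z).1.2‖ ^ 2)) ≤
          lam 0 ^ α * B * 2 ^ J * D := by
      refine (Finset.sum_le_sum hterm).trans ?_
      rw [← Finset.mul_sum]
      have h1 := Nash_geom hx0.le hx1 (J + 1)
      have h2 : 0 ≤ lam 0 ^ α * (4 * 2 ^ ((N:ℝ) * α / 4)) * 2 ^ J * D := by
        have : 0 ≤ lam 0 ^ α := (Real.rpow_pos_of_pos (hlampos 0) _).le
        positivity
      refine (mul_le_mul_of_nonneg_left h1 h2).trans (le_of_eq ?_)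
      rw [hB]
      ring
    -- the choice of s0
    have hl0 : lam 0 = 2 * A * m * s0 ^ (-((N:ℝ) / 4)) := by
      simp only [hlam, pow_zero, div_one]
      ring
    have hl0α : lam 0 ^ α * s0 = (2 * A) ^ α * m ^ α * s0 ^ δ := by
      rw [hl0, Real.mul_rpow (by positivity) (by positivity),
        Real.mul_rpow (by positivity) hm.le, ← Real.rpow_mul hs0p.le]
      have h1 : s0 ^ (-((N:ℝ) / 4) * α) * s0 = s0 ^ δ := by
        conv_lhs => rw [← Real.rpow_one s0, ← Real.rpow_mul hs0p.le, one_mul,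
          ← Real.rpow_add hs0p]
        congr 1
        rw [hδ]
        ring
      rw [mul_assoc, h1]
    have hkey : lam 0 ^ α * B * s0 = 1 / 4 := by
      have h1 : lam 0 ^ α * B * s0 = B * (lam 0 ^ α * s0) := by ring
      rw [h1, hl0α, hs0δ]
      have : 0 < (2 * A) ^ α := by positivity
      have : 0 < m ^ α := by positivity
      field_simp
    have hCM : lam 0 ^ α * m ^ 2 = C * (m ^ 2) ^ qe N α := by
      have h1 : lam 0 ^ α = 1 / (4 * B) * (1 / s0) := by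
        field_simp
        have := hkey
        field_simp at this
        linarith
      have h2 : 1 / s0 = (4 * B * (2 * A) ^ α) ^ (1 / δ) * m ^ (α / δ) := by
        rw [hs0, Real.rpow_neg (by positivity), one_div, inv_inv,
          Real.mul_rpow (by positivity) (by positivity), ← Real.rpow_mul hm.le]
        congr 2
        ring
      have h3 : (m ^ 2) ^ qe N α = m ^ (α / δ) * m ^ 2 := by
        rw [← Real.rpow_natCast m 2, ← Real.rpow_mul hm.le, ← Real.rpow_add hm]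
        congr 1
        unfold qe
        rw [hδ]
        have h4 : 4 - (N:ℝ) * α ≠ 0 := by linarith
        have h5 : 1 - (N:ℝ) * α / 4 ≠ 0 := by rw [hδ] at hδ0; exact hδ0.ne'
        push_cast
        field_simp
        ring
      rw [h1, h2, h3, hC]
      ring
    refine ⟨s J, hspos J, fun k => ?_⟩
    have hP : PR α R z - C * (m ^ 2) ^ qe N α ≤ lam 0 ^ α * B * 2 ^ J * D := by
      linarith
    have hdk := Nash_dyadic (hspos J).le z k
    have h2k : (0:ℝ) < 2 ^ k := by positivity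
    have h1 : 4 * (s J / 2 ^ k) * (PR α R z - C * (m ^ 2) ^ qe N α) ≤
        4 * (s J / 2 ^ k) * (lam 0 ^ α * B * 2 ^ J * D) :=
      mul_le_mul_of_nonneg_left hP (by have := hspos J; positivity)
    have h2 : 4 * (s J / 2 ^ k) * (lam 0 ^ α * B * 2 ^ J * D) = D / 2 ^ k := by
      have h3 : s J * 2 ^ J = s0 := by
        simp only [hs]
        field_simp
      have h4 : 4 * (s J / 2 ^ k) * (lam 0 ^ α * B * 2 ^ J * D) =
          4 * (lam 0 ^ α * B * (s J * 2 ^ J)) * D / 2 ^ k := by ring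
      rw [h4, h3, hkey]
      ring
    have h5 : D / 2 ^ k ≤ m ^ 2 - ‖((RZ N).S 0 (s J / 2 ^ k) z).1.2‖ ^ 2 := by
      rw [div_le_iff₀ h2k, mul_comm]
      exact hdk
    linarith

end CGL.Neg
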