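import Pool.Agent.W_317df6_h77.EnB
import Pool.Agent.W_317df6_h77.EnC
import Pool.Agent.W_317df6_h77.Nash

/-!
# Mass estimate for the truncated equation
-/

set_option autoImplicit false

namespace CGL.Neg

open MeasureTheory Set Filter CGL
open scoped ZeroAtInfty ComplexConjugate Topology NNReal ENNReal

variable {N : ℕ}

/-- mass bound and space-time bound of the potential energy -/
theorem energy (hN : 1 ≤ N) {α θ γ R C : ℝ} (hα : 0 < α) (hα4 : α < 4 / N) (hC : 0 < C)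
    (hθ : 0 < Real.cos θ) (hγ : γ < 0) (hR : 0 < R)
    (hn : ∀ z : ZS N, ∃ s : ℝ, 0 < s ∧ ∀ k : ℕ, ‖((RZ N).S 0 (s / 2 ^ k) z).1.2‖ ^ 2 ≤
      ‖z.1.2‖ ^ 2 - 4 * (s / 2 ^ k) * (PR α R z - C * (‖z.1.2‖ ^ 2) ^ qe N α))
    {L : ℝ≥0} (hG : LipschitzWith L (TF α θ γ R)) {T : ℝ} {u : ℝ → ZS N} (hu : Continuous u)
    (he : ∀ t ∈ Icc 0 T, u t = (RZ N).S θ t (u 0) +
      ∫ s in (0:ℝ)..t, (RZ N).S θ (t - s) (post hG (TF_zero α θ γ R) (u s)))
    (h0 : 4 * C * Real.cos θ * (‖(u 0).1.2‖ ^ 2) ^ (qe N α - 1) ≤ -γ) :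
    ∀ t ∈ Icc 0 T, ‖(u t).1.2‖ ^ 2 ≤ ‖(u 0).1.2‖ ^ 2 ∧
      2 * Real.cos θ * ∫ s in (0:ℝ)..t, PR α R (u s) ≤ ‖(u 0).1.2‖ ^ 2 := by
  have hq : 1 < qe N α := by
    unfold qe
    have hN0 : (0:ℝ) < N := by exact_mod_cast hN
    have h1 : (N:ℝ) * α < 4 := by
      have := mul_lt_mul_of_pos_left hα4 hN0
      rwa [mul_div_cancel₀ _ hN0.ne'] at this
    have h2 : 0 < 2 * α / (4 - N * α) := by
      apply div_pos <;> linarith
    linarith
  have hM : Continuous fun t => ‖(u t).1.2‖ ^ 2 := by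
    have h1 : Continuous fun t => (u t).1.2 :=
      continuous_snd.comp (continuous_subtype_val.comp hu)
    exact h1.norm.pow 2
  exact mass_real hM ((PR_cont hα hR).comp hu) (fun t => by positivity)
    (fun t => PR_nonneg hR (u t)) hC hθ hγ hq h0
    (fun t ht r hr => slope_est hα hθ hR hn hG hu he ht hr)

end CGL.Neg
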