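import Pool.Agent.W_317df6_h77.ZSp

/-!
# Mass estimate for the truncated equation
-/

set_option autoImplicit false

namespace CGL.Neg

open MeasureTheory Set Filter CGL
open scoped ZeroAtInfty ComplexConjugate Topology NNReal ENNReal

variable {N : ℕ}

section gen

variable {Z : Type} [NormedAddCommGroup Z] [NormedSpace ℂ Z]

/-- joint continuity of `(τ, z) ↦ S_θ(τ) z` -/
theorem Rep.EnA_joint (R : Rep N Z)
    {θ : ℝ} (hθ : 0 < Real.cos θ) : Continuous fun p : ℝ × Z => R.S θ p.1 p.2 := by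
  rw [continuous_iff_continuousAt]
  rintro ⟨τ, z⟩
  set C : ℝ := ∫ w : E N, ‖K N (eth θ) w‖ with hC
  have h1 : Tendsto (fun p : ℝ × Z => C * ‖p.2 - z‖ + ‖R.S θ p.1 z - R.S θ τ z‖) (𝓝 (τ, z))
      (𝓝 0) := by
    have h2 : Continuous fun p : ℝ × Z => C * ‖p.2 - z‖ + ‖R.S θ p.1 z - R.S θ τ z‖ := by
      have h3 := (R.S_cont hθ z).comp (continuous_fst (X := ℝ) (Y := Z))
      have h4 : Continuous fun p : ℝ × Z => R.S θ p.1 z := h3
      fun_prop
    have h3 := h2.tendsto (τ, z)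
    simpa using h3
  rw [ContinuousAt, tendsto_iff_norm_sub_tendsto_zero]
  refine squeeze_zero (fun _ => norm_nonneg _) (fun p => ?_) h1
  have h2 : R.S θ p.1 p.2 - R.S θ τ z = R.S θ p.1 (p.2 - z) + (R.S θ p.1 z - R.S θ τ z) := by
    rw [map_sub]; abel
  show ‖R.S θ p.1 p.2 - R.S θ τ z‖ ≤ _
  rw [h2]
  refine (norm_add_le _ _).trans ?_
  gcongr
  exact R.S_norm_le hθ _ _

theorem Rep.EnA_restart [CompleteSpace Z] (R : Rep N Z) {θ : ℝ} (hθ : 0 < Real.cos θ) {T : ℝ}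
    {u F : ℝ → Z} (hF : Continuous F)
    (he : ∀ t ∈ Icc 0 T, u t = R.S θ t (u 0) + ∫ s in (0:ℝ)..t, R.S θ (t - s) (F s))
    {t h : ℝ} (ht : 0 ≤ t) (hh : 0 ≤ h) (hT : t + h ≤ T) :
    u (t + h) = R.S θ h (u t) + ∫ r in (0:ℝ)..h, R.S θ (h - r) (F (t + r)) := by
  have hj := R.EnA_joint hθ
  have hc : ∀ c : ℝ, Continuous fun s : ℝ => R.S θ (c - s) (F s) := fun c =>
    hj.comp ((continuous_const.sub continuous_id).prodMk hF)
  have e1 := he (t + h) ⟨by linarith, hT⟩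
  have e2 := he t ⟨ht, by linarith⟩
  have e3 : R.S θ h (∫ s in (0:ℝ)..t, R.S θ (t - s) (F s)) =
      ∫ s in (0:ℝ)..t, R.S θ (t + h - s) (F s) := by
    rw [← ContinuousLinearMap.intervalIntegral_comp_comm _ ((hc t).intervalIntegrable 0 t)]
    apply intervalIntegral.integral_congr
    intro s hs
    rw [uIcc_of_le ht] at hs
    show R.S θ h (R.S θ (t - s) (F s)) = R.S θ (t + h - s) (F s)
    rw [R.S_add hθ hh (by linarith [hs.2]), show h + (t - s) = t + h - s by ring]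
  have e4 : ∫ r in (0:ℝ)..h, R.S θ (h - r) (F (t + r)) =
      ∫ s in t..(t + h), R.S θ (t + h - s) (F s) := by
    have h1 := intervalIntegral.integral_comp_add_left (a := 0) (b := h)
      (fun s => R.S θ (t + h - s) (F s)) t
    rw [add_zero] at h1
    rw [← h1]
    apply intervalIntegral.integral_congr
    intro r _
    show R.S θ (h - r) (F (t + r)) = R.S θ (t + h - (t + r)) (F (t + r))
    rw [show t + h - (t + r) = h - r by ring]
  rw [e1, e2, map_add, R.S_add hθ hh ht, e3, e4, add_assoc, add_comm h t,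
    intervalIntegral.integral_add_adjacent_intervals ((hc (t + h)).intervalIntegrable 0 t)
      ((hc (t + h)).intervalIntegrable t (t + h))]

theorem Rep.EnA_avg [CompleteSpace Z] (R : Rep N Z) {θ : ℝ} (hθ : 0 < Real.cos θ) {F : ℝ → Z}
    (hF : Continuous F) (t : ℝ) :
    Tendsto (fun h : ℝ => h⁻¹ • ∫ r in (0:ℝ)..h, R.S θ (h - r) (F (t + r))) (𝓝[>] 0)
      (𝓝 (F t)) := by
  have hj := R.EnA_joint hθ
  have hG : Continuous fun p : ℝ × ℝ => R.S θ (p.1 - p.2) (F (t + p.2)) :=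
    hj.comp ((continuous_fst.sub continuous_snd).prodMk
      (hF.comp (continuous_const.add continuous_snd)))
  have hG0 : (fun p : ℝ × ℝ => R.S θ (p.1 - p.2) (F (t + p.2))) (0, 0) = F t := by
    show R.S θ (0 - 0) (F (t + 0)) = F t
    rw [sub_zero, add_zero, R.S_zero hθ le_rfl]
  have hG1 : Tendsto (fun p : ℝ × ℝ => R.S θ (p.1 - p.2) (F (t + p.2))) (𝓝 (0, 0))
      (𝓝 (F t)) := by
    have h := hG.tendsto (0, 0)
    rw [← hG0]
    exact h
  rw [Metric.tendsto_nhds_nhds] at hG1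
  rw [Metric.tendsto_nhdsWithin_nhds]
  intro ε hε
  obtain ⟨δ, hδ, h1⟩ := hG1 (ε / 2) (by positivity)
  refine ⟨δ, hδ, ?_⟩
  intro h hh hd
  have hh0 : 0 < h := hh
  rw [Real.dist_0_eq_abs, abs_of_pos hh0] at hd
  have hc : Continuous fun r : ℝ => R.S θ (h - r) (F (t + r)) :=
    hG.comp (continuous_const.prodMk continuous_id)
  have h2 : ∀ r ∈ uIoc (0:ℝ) h, ‖R.S θ (h - r) (F (t + r)) - F t‖ ≤ ε / 2 := by
    intro r hr
    rw [uIoc_of_le hh0.le] at hr
    have h3 := @h1 (h, r) (by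
      rw [Prod.dist_eq, max_lt_iff, Real.dist_0_eq_abs, Real.dist_0_eq_abs, abs_of_pos hh0,
        abs_of_pos hr.1]
      exact ⟨hd, lt_of_le_of_lt hr.2 hd⟩)
    rw [dist_eq_norm] at h3
    exact h3.le
  have h3 := intervalIntegral.norm_integral_le_of_norm_le_const h2
  rw [sub_zero, abs_of_pos hh0, intervalIntegral.integral_sub (hc.intervalIntegrable 0 h)
    (intervalIntegrable_const), intervalIntegral.integral_const, sub_zero] at h3
  rw [dist_eq_norm]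
  have h4 : h⁻¹ • (∫ r in (0:ℝ)..h, R.S θ (h - r) (F (t + r))) - F t =
      h⁻¹ • ((∫ r in (0:ℝ)..h, R.S θ (h - r) (F (t + r))) - h • F t) := by
    rw [smul_sub, smul_smul, inv_mul_cancel₀ hh0.ne', one_smul]
  rw [h4, norm_smul, norm_inv, Real.norm_of_nonneg hh0.le]
  calc h⁻¹ * ‖(∫ r in (0:ℝ)..h, R.S θ (h - r) (F (t + r))) - h • F t‖
      ≤ h⁻¹ * (ε / 2 * h) := by gcongr
    _ = ε / 2 := by field_simp
    _ < ε := by linarith

end gen

/-- Restart: semigroup property (`Rep.S_add`), `ContinuousLinearMap.intervalIntegral_comp_comm`,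
substitution `s = t + r`. -/
theorem restart {θ : ℝ} (hθ : 0 < Real.cos θ) {T : ℝ} {u F : ℝ → ZS N} (hF : Continuous F)
    (he : ∀ t ∈ Icc 0 T, u t = (RZ N).S θ t (u 0) + ∫ s in (0:ℝ)..t, (RZ N).S θ (t - s) (F s))
    {t h : ℝ} (ht : 0 ≤ t) (hh : 0 ≤ h) (hT : t + h ≤ T) :
    u (t + h) = (RZ N).S θ h (u t) + ∫ r in (0:ℝ)..h, (RZ N).S θ (h - r) (F (t + r)) :=
  (RZ N).EnA_restart hθ hF he ht hh hT

/-- `I(h)/h → F t`, `I(h) = ∫_0^h S(h-r) F(t+r) dr`, as `h → 0+` (joint continuity of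
`(τ,z) ↦ S_θ(τ) z` on `[0,1]`, `S_θ(0) = id`). -/
theorem avg_tendsto {θ : ℝ} (hθ : 0 < Real.cos θ) {F : ℝ → ZS N} (hF : Continuous F) (t : ℝ) :
    Tendsto (fun h : ℝ => h⁻¹ • ∫ r in (0:ℝ)..h, (RZ N).S θ (h - r) (F (t + r))) (𝓝[>] 0)
      (𝓝 (F t)) :=
  (RZ N).EnA_avg hθ hF t

end CGL.Neg
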