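import Pool.Agent.W_317df6_h77.Sg

/-!
# The semigroup in a Hilbert space
-/

set_option autoImplicit false

namespace CGL.Neg

open MeasureTheory Set Filter CGL
open scoped ZeroAtInfty ComplexConjugate Topology NNReal ENNReal

variable {N : ℕ} {H : Type} [NormedAddCommGroup H] [InnerProductSpace ℂ H] [CompleteSpace H]

omit [CompleteSpace H] in
/-- `T(y)* = T(-y)`: `T(y)` is an isometry, so it preserves the inner product, and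
`h = T(y) T(-y) h`. -/
theorem Rep.T_adj (R : Rep N H) (y : E N) (g h : H) :
    inner ℂ (R.T y g) h = inner ℂ g (R.T (-y) h) := by
  let L : H →ₗᵢ[ℂ] H := ⟨(R.T y).toLinearMap, R.norm y⟩
  have h1 := L.inner_map_map g (R.T (-y) h)
  have h2 : L (R.T (-y) h) = h := by
    show R.T y (R.T (-y) h) = h
    rw [R.add, add_neg_cancel, R.zero]
  rw [h2] at h1
  exact h1

/-- `S_θ(t)* = S_{-θ}(t)`, by `K_conj`, `K_even` (case `t ≤ 0`: identity). -/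
theorem Rep.S_adj (R : Rep N H) {θ : ℝ} (hθ : 0 < Real.cos θ) (t : ℝ) (g h : H) :
    inner ℂ (R.S θ t g) h = inner ℂ g (R.S (-θ) t h) := by
  have hθ' : 0 < Real.cos (-θ) := by rwa [Real.cos_neg]
  rw [R.S_apply hθ, R.S_apply hθ', ← inner_conj_symm, ← integral_inner (R.integrable hθ _ g),
    ← integral_conj, ← integral_inner (R.integrable hθ' _ h), ← integral_neg_eq_self]
  congr 1
  ext w
  rw [inner_conj_symm, inner_smul_left, inner_smul_right, R.T_adj]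
  have h1 := K_conj (N := N) hθ one_pos (-w)
  rw [Complex.ofReal_one, one_mul, one_mul, K_even (eth (-θ))] at h1
  rw [h1, smul_neg, neg_neg]

/-- `‖S_θ(t) g‖² = ⟨g, S_0(2 t cos θ) g⟩` -/
theorem Rep.norm_sq (R : Rep N H) {θ t : ℝ} (hθ : 0 < Real.cos θ) (ht : 0 ≤ t) (g : H) :
    ‖R.S θ t g‖ ^ 2 = (inner ℂ g (R.S 0 (2 * t * Real.cos θ) g)).re := by
  rw [← R.S_conj hθ ht g, ← R.S_adj hθ, ← inner_self_eq_norm_sq (𝕜 := ℂ)]
  rfl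

/-- `‖S_θ(t) g‖ = ‖S_0(t cos θ) g‖` -/
theorem Rep.norm_eq (R : Rep N H) {θ t : ℝ} (hθ : 0 < Real.cos θ) (ht : 0 ≤ t) (g : H) :
    ‖R.S θ t g‖ = ‖R.S 0 (t * Real.cos θ) g‖ := by
  have h0 : 0 < Real.cos 0 := by rw [Real.cos_zero]; exact one_pos
  have h1 := R.norm_sq hθ ht g
  have h2 := R.norm_sq h0 (mul_nonneg ht hθ.le) g
  have h3 : 2 * (t * Real.cos θ) * Real.cos 0 = 2 * t * Real.cos θ := by
    rw [Real.cos_zero]; ring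
  rw [h3, ← h1] at h2
  exact (pow_left_inj₀ (norm_nonneg _) (norm_nonneg _) two_ne_zero).1 h2.symm

theorem Rep.Hil_half (R : Rep N H) {s : ℝ} (hs : 0 ≤ s) (g : H) :
    ‖R.S 0 (s / 2) g‖ ^ 2 = (inner ℂ g (R.S 0 s g)).re := by
  have h0 : 0 < Real.cos 0 := by rw [Real.cos_zero]; exact one_pos
  have h2 := R.norm_sq h0 (show 0 ≤ s / 2 by positivity) g
  have h3 : 2 * (s / 2) * Real.cos 0 = s := by
    rw [Real.cos_zero]; ring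
  rw [h3] at h2
  exact h2

theorem Rep.Hil_two (R : Rep N H) {s : ℝ} (hs : 0 ≤ s) (g : H) :
    ‖g‖ ^ 2 - ‖R.S 0 s g‖ ^ 2 ≤ 2 * (‖g‖ ^ 2 - ‖R.S 0 (s / 2) g‖ ^ 2) := by
  have h1 := R.Hil_half hs g
  have h2 : (inner ℂ g (R.S 0 s g)).re ≤ ‖g‖ * ‖R.S 0 s g‖ :=
    re_inner_le_norm (𝕜 := ℂ) g (R.S 0 s g)
  nlinarith [sq_nonneg (‖g‖ - ‖R.S 0 s g‖)]

/-- `f(s) = ‖S_0(s) g‖²`: `f(s/2) = ⟨g, S_0(s) g⟩ ≤ ‖g‖‖S_0(s) g‖ ≤ (f(0)+f(s))/2`, iterated. -/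
theorem Rep.dyadic (R : Rep N H) {s : ℝ} (hs : 0 ≤ s) (g : H) (k : ℕ) :
    ‖g‖ ^ 2 - ‖R.S 0 s g‖ ^ 2 ≤ 2 ^ k * (‖g‖ ^ 2 - ‖R.S 0 (s / 2 ^ k) g‖ ^ 2) := by
  induction k with
  | zero => simp
  | succ k ih =>
    refine ih.trans ?_
    have h1 := R.Hil_two (show 0 ≤ s / 2 ^ k by positivity) g
    have h2 : s / 2 ^ (k + 1) = s / 2 ^ k / 2 := by
      rw [pow_succ]
      field_simp
    rw [h2, pow_succ (2 : ℝ) k, mul_assoc]
    exact mul_le_mul_of_nonneg_left h1 (by positivity)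

/-- `‖g - S_0(s) g‖² = f(0) - 2 f(s/2) + f(s) ≤ f(0) - f(s)` as `f(s) ≤ f(s/2)`. -/
theorem Rep.sub_sq (R : Rep N H) {s : ℝ} (hs : 0 ≤ s) (g : H) :
    ‖g - R.S 0 s g‖ ^ 2 ≤ ‖g‖ ^ 2 - ‖R.S 0 s g‖ ^ 2 := by
  have h0 : 0 < Real.cos 0 := by rw [Real.cos_zero]; exact one_pos
  have h1 := R.Hil_half hs g
  have h2 := norm_sub_sq (𝕜 := ℂ) g (R.S 0 s g)
  have h3 : ‖R.S 0 s g‖ ≤ ‖R.S 0 (s / 2) g‖ := by
    have h4 := R.S_add h0 (show 0 ≤ s / 2 by positivity) (show 0 ≤ s / 2 by positivity) g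
    rw [add_halves] at h4
    rw [← h4]
    exact R.S0_norm_le _ _
  have h5 : ‖R.S 0 s g‖ ^ 2 ≤ ‖R.S 0 (s / 2) g‖ ^ 2 :=
    pow_le_pow_left₀ (norm_nonneg _) h3 2
  have h6 : RCLike.re (inner ℂ g (R.S 0 s g)) = (inner ℂ g (R.S 0 s g)).re := rfl
  rw [h6] at h2
  linarith

end CGL.Neg
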