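import Pool.Agent.W_317df6_h77.EnA
import Pool.Agent.W_317df6_h77.Hil

/-!
# Mass estimate for the truncated equation
-/

set_option autoImplicit false

namespace CGL.Neg

open MeasureTheory Set Filter CGL
open scoped ZeroAtInfty ComplexConjugate Topology NNReal ENNReal

variable {N : ℕ}

theorem EnB_cont {Z : Type} [NormedAddCommGroup Z] {L : ℝ≥0} {f : Z → Z}
    (h : ∀ a b, ‖f a - f b‖ ≤ L * ‖a - b‖) : Continuous f :=
  (lipschitzWith_iff_norm_sub_le.2 h).continuous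

/-- the algebra of one step -/
theorem EnB_step {H : Type} [NormedAddCommGroup H] [InnerProductSpace ℂ H] {a w J : H}
    {h c P Q : ℝ} (hh : 0 < h) (ha : ‖a‖ ^ 2 ≤ ‖w‖ ^ 2 - 4 * (h * c) * (P - Q)) :
    h⁻¹ * (‖a + (h : ℂ) • J‖ ^ 2 - ‖w‖ ^ 2) ≤
      -4 * c * (P - Q) + 2 * (inner ℂ a J).re + h * ‖J‖ ^ 2 := by
  have h1 := norm_add_sq (𝕜 := ℂ) a ((h : ℂ) • J)
  have h2 : (inner ℂ a ((h : ℂ) • J) : ℂ) = (h : ℂ) * inner ℂ a J := inner_smul_right _ _ _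
  have h3 : RCLike.re (inner ℂ a ((h : ℂ) • J) : ℂ) = h * (inner ℂ a J : ℂ).re := by
    rw [h2]
    simp
  have h4 : ‖(h : ℂ) • J‖ = h * ‖J‖ := by
    rw [norm_smul, Complex.norm_real, Real.norm_eq_abs, abs_of_pos hh]
  rw [h3, h4] at h1
  rw [inv_mul_le_iff₀ hh, h1]
  nlinarith [ha]

/-- the dyadic times tend to `0+` -/
theorem EnB_dy {s c : ℝ} (hs : 0 < s) (hc : 0 < c) :
    Tendsto (fun k : ℕ => s / 2 ^ k / c) atTop (𝓝[>] 0) := by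
  rw [tendsto_nhdsWithin_iff]
  constructor
  · have h1 : Tendsto (fun k : ℕ => (s / c) * (1 / 2 : ℝ) ^ k) atTop (𝓝 ((s / c) * 0)) :=
      (tendsto_pow_atTop_nhds_zero_of_lt_one (by norm_num) (by norm_num)).const_mul _
    rw [mul_zero] at h1
    refine h1.congr fun k => ?_
    rw [one_div, inv_pow]
    field_simp
  · exact Eventually.of_forall fun k => by
      show 0 < s / 2 ^ k / c
      positivity

/-- slope estimate.  With `h_k = s/(2^k cos θ)` (`s` from `hn` for `z = u t`),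
`‖S_θ(h_k) w‖² = ‖S_0(s/2^k) w‖²` (`Rep.norm_eq`, `RZ_snd`), `w = (u t).1.2`, and
`M(t+h_k) = ‖S_θ(h_k) w‖² + 2 Re ⟨S_θ(h_k) w, I⟩ + ‖I‖²`; divide by `h_k`, use `avg_tendsto`,
`Rep.S_cont`, `Rep.S_zero`, `inner_TF`. -/
theorem slope_est {α θ γ R C : ℝ} (hα : 0 < α) (hθ : 0 < Real.cos θ) (hR : 0 < R)
    (hn : ∀ z : ZS N, ∃ s : ℝ, 0 < s ∧ ∀ k : ℕ, ‖((RZ N).S 0 (s / 2 ^ k) z).1.2‖ ^ 2 ≤
      ‖z.1.2‖ ^ 2 - 4 * (s / 2 ^ k) * (PR α R z - C * (‖z.1.2‖ ^ 2) ^ qe N α))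
    {L : ℝ≥0} (hG : LipschitzWith L (TF α θ γ R)) {T : ℝ} {u : ℝ → ZS N} (hu : Continuous u)
    (he : ∀ t ∈ Icc 0 T, u t = (RZ N).S θ t (u 0) +
      ∫ s in (0:ℝ)..t, (RZ N).S θ (t - s) (post hG (TF_zero α θ γ R) (u s)))
    {t : ℝ} (ht : t ∈ Ico 0 T) {r : ℝ}
    (hr : -2 * Real.cos θ * PR α R (u t) + 4 * C * Real.cos θ * (‖(u t).1.2‖ ^ 2) ^ qe N α
      + 2 * γ * ‖(u t).1.2‖ ^ 2 < r) :
    ∃ᶠ x in 𝓝[>] t, slope (fun τ => ‖(u τ).1.2‖ ^ 2) t x < r := by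
  obtain ⟨s, hs, hk⟩ := hn (u t)
  obtain ⟨F, hF⟩ : ∃ F : ℝ → ZS N, F = fun τ => post hG (TF_zero α θ γ R) (u τ) := ⟨_, rfl⟩
  have hFc : Continuous F := by
    have h1 : Continuous (fun z : ZS N => post hG (TF_zero α θ γ R) z) :=
      EnB_cont (Z := ZS N) (post_lip hG (TF_zero α θ γ R))
    rw [hF]
    exact h1.comp hu
  have he' : ∀ t ∈ Icc 0 T, u t = (RZ N).S θ t (u 0) +
      ∫ s in (0:ℝ)..t, (RZ N).S θ (t - s) (F s) := by
    rw [hF]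
    exact he
  obtain ⟨J, hJd⟩ : ∃ J : ℝ → ZS N, J = fun h : ℝ =>
    h⁻¹ • ∫ r in (0:ℝ)..h, (RZ N).S θ (h - r) (F (t + r)) := ⟨_, rfl⟩
  have hJ : Tendsto J (𝓝[>] 0) (𝓝 (F t)) := by
    rw [hJd]
    exact avg_tendsto hθ hFc t
  have hp : Continuous fun z : ZS N => z.1.2 := continuous_snd.comp continuous_subtype_val
  have hJ2 : Tendsto (fun h => (J h).1.2) (𝓝[>] 0) (𝓝 (F t).1.2) := (hp.tendsto (F t)).comp hJ
  have hS : Tendsto (fun h => (RL N).S θ h (u t).1.2) (𝓝[>] 0) (𝓝 (u t).1.2) := by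
    have h1 := (((RL N).S_cont hθ (u t).1.2).tendsto 0).mono_left
      (nhdsWithin_le_nhds (s := Ioi (0:ℝ)))
    rwa [(RL N).S_zero hθ le_rfl] at h1
  have hI : Tendsto (fun h => (inner ℂ ((RL N).S θ h (u t).1.2) (J h).1.2 : ℂ).re) (𝓝[>] 0)
      (𝓝 (inner ℂ (u t).1.2 (F t).1.2 : ℂ).re) :=
    (Complex.continuous_re.tendsto _).comp (hS.inner hJ2)
  have hid : Tendsto (fun h : ℝ => h) (𝓝[>] 0) (𝓝 0) := nhdsWithin_le_nhds
  have hlim := ((hI.const_mul 2).const_add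
    (-4 * Real.cos θ * (PR α R (u t) - C * (‖(u t).1.2‖ ^ 2) ^ qe N α))).add
    (hid.mul (hJ2.norm.pow 2))
  have hval : (inner ℂ (u t).1.2 (F t).1.2 : ℂ).re =
      Real.cos θ * PR α R (u t) + γ * ‖(u t).1.2‖ ^ 2 := by
    rw [hF]
    exact inner_TF hα hR hG (u t)
  rw [hval] at hlim
  have hlt : -4 * Real.cos θ * (PR α R (u t) - C * (‖(u t).1.2‖ ^ 2) ^ qe N α) +
      2 * (Real.cos θ * PR α R (u t) + γ * ‖(u t).1.2‖ ^ 2) + 0 * ‖(F t).1.2‖ ^ 2 < r := by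
    refine lt_of_eq_of_lt ?_ hr
    ring
  have hev := (EnB_dy hs hθ).eventually (hlim.eventually_lt_const hlt)
  have hle : ∀ᶠ k : ℕ in atTop, s / 2 ^ k / Real.cos θ < T - t := by
    have h1 : Tendsto (fun k : ℕ => s / 2 ^ k / Real.cos θ) atTop (𝓝 0) :=
      (EnB_dy hs hθ).mono_right nhdsWithin_le_nhds
    exact h1.eventually_lt_const (by linarith [ht.2])
  have hto : Tendsto (fun k : ℕ => t + s / 2 ^ k / Real.cos θ) atTop (𝓝[>] t) := by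
    have h0 := EnB_dy hs hθ
    rw [tendsto_nhdsWithin_iff] at h0 ⊢
    refine ⟨by simpa using h0.1.const_add t, ?_⟩
    filter_upwards [h0.2] with k hk
    show t < t + s / 2 ^ k / Real.cos θ
    have : 0 < s / 2 ^ k / Real.cos θ := hk
    linarith
  refine hto.frequently (Eventually.frequently ?_)
  filter_upwards [hev, hle] with k hk1 hk2
  have hh : 0 < s / 2 ^ k / Real.cos θ := by positivity
  obtain ⟨h, hhd⟩ : ∃ h : ℝ, h = s / 2 ^ k / Real.cos θ := ⟨_, rfl⟩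
  rw [← hhd] at hk1 hk2 hh ⊢
  have hhc : h * Real.cos θ = s / 2 ^ k := by
    rw [hhd]
    field_simp
  have hres := restart hθ hFc he' ht.1 hh.le (by linarith)
  have hIJ : ∫ r in (0:ℝ)..h, (RZ N).S θ (h - r) (F (t + r)) = h • J h := by
    rw [hJd]
    generalize hX : ∫ r in (0:ℝ)..h, (RZ N).S θ (h - r) (F (t + r)) = X
    show X = h • h⁻¹ • (∫ r in (0:ℝ)..h, (RZ N).S θ (h - r) (F (t + r)))
    rw [hX]
    exact (smul_inv_smul₀ hh.ne' X).symm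
  rw [hIJ] at hres
  have hsnd : (u (t + h)).1.2 = (RL N).S θ h (u t).1.2 + (h : ℂ) • (J h).1.2 := by
    rw [hres, ← RZ_snd hθ]
    rfl
  have ha : ‖(RL N).S θ h (u t).1.2‖ ^ 2 ≤ ‖(u t).1.2‖ ^ 2 -
      4 * (h * Real.cos θ) * (PR α R (u t) - C * (‖(u t).1.2‖ ^ 2) ^ qe N α) := by
    rw [(RL N).norm_eq hθ hh.le, hhc, ← RZ_snd (by simp)]
    exact hk k
  have hst := EnB_step (J := (J h).1.2) hh ha
  rw [← hsnd] at hst
  have hsl : slope (fun τ => ‖(u τ).1.2‖ ^ 2) t (t + h) =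
      h⁻¹ * (‖(u (t + h)).1.2‖ ^ 2 - ‖(u t).1.2‖ ^ 2) := by
    rw [slope_def_field, add_sub_cancel_left, div_eq_inv_mul]
  rw [hsl]
  exact hst.trans_lt hk1

end CGL.Neg
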