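import Pool.Agent.W_317df6_h77.Defs

/-!
# Kernel identities: mass one, scaling, conjugation
-/

set_option autoImplicit false

namespace CGL.Neg

open MeasureTheory Set Filter CGL
open scoped ZeroAtInfty ComplexConjugate Topology NNReal ENNReal

variable {N : ℕ}

private theorem kerA_arg {z : ℂ} (hz : 0 < z.re) : z.arg ≠ Real.pi := by
  intro h
  have := (Complex.arg_eq_pi_iff.1 h).1
  linarith

private theorem kerA_scale_re {z : ℂ} (hz : 0 < z.re) : 0 < (4 * (Real.pi : ℂ) * z).re := by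
  have h1 : (4 * (Real.pi : ℂ) * z) = (((4 * Real.pi : ℝ) : ℂ) * z) := by
    push_cast
    ring
  rw [h1, Complex.re_ofReal_mul]
  have := Real.pi_pos
  positivity

private theorem kerA_inv_re {z : ℂ} (hz : 0 < z.re) : 0 < (z⁻¹).re := by
  rw [Complex.inv_re]
  exact div_pos hz (Complex.normSq_pos.mpr (P1a_ne hz))

private theorem kerA_one_div_re {z : ℂ} (hz : 0 < z.re) :
    0 < (1 / (4 * (Real.pi : ℂ) * z)).re := by
  rw [one_div]
  exact kerA_inv_re (kerA_scale_re hz)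

private theorem kerA_eth_neg (θ : ℝ) : conj (eth θ) = eth (-θ) := by
  unfold eth
  rw [← Complex.exp_conj]
  congr 1
  simp

/-- `GaussianFourier.integral_cexp_neg_mul_sq_norm`; `(1/(4πζ))^s (4πζ)^s = 1` (`inv_cpow`). -/
theorem K_one {θ : ℝ} (hθ : 0 < Real.cos θ) : ∫ w : E N, K N (eth θ) w = 1 := by
  have hre : 0 < (eth θ).re := by
    rw [eth_re]
    exact hθ
  have hne : eth θ ≠ 0 := P1a_ne hre
  have hpi : (Real.pi : ℂ) ≠ 0 := by exact_mod_cast Real.pi_ne_zero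
  have hb : 0 < (1 / (4 * eth θ)).re := by
    rw [one_div]
    refine kerA_inv_re ?_
    have h1 : (4 * eth θ) = (((4 : ℝ) : ℂ) * eth θ) := by push_cast; ring
    rw [h1, Complex.re_ofReal_mul]
    linarith
  have h2 := GaussianFourier.integral_cexp_neg_mul_sq_norm (V := E N) hb
  have h3 : ∀ w : E N, K N (eth θ) w = (1 / (4 * (Real.pi : ℂ) * eth θ)) ^ ((N : ℂ) / 2) *
      Complex.exp (-(1 / (4 * eth θ)) * ((‖w‖ : ℝ) : ℂ) ^ 2) := by
    intro w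
    unfold K
    congr 2
    field_simp
  simp_rw [h3]
  rw [integral_const_mul, h2, finrank_euclideanSpace, Fintype.card_fin]
  have h4 : (Real.pi : ℂ) / (1 / (4 * eth θ)) = 4 * (Real.pi : ℂ) * eth θ := by
    field_simp
  have h5 : (4 * (Real.pi : ℂ) * eth θ) ≠ 0 := P1a_ne (kerA_scale_re hre)
  rw [h4, one_div, Complex.inv_cpow _ _ (kerA_arg (kerA_scale_re hre))]
  refine inv_mul_cancel₀ ?_
  intro h6
  exact h5 ((Complex.cpow_eq_zero_iff _ _).1 h6).1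

/-- `(1/(4πtζ))^(N/2) = t^(-N/2) (1/(4πζ))^(N/2)` -/
theorem K_scale {θ t : ℝ} (hθ : 0 < Real.cos θ) (ht : 0 < t) (w : E N) :
    ((Real.sqrt t ^ N : ℝ) : ℂ) * K N ((t : ℂ) * eth θ) (Real.sqrt t • w) = K N (eth θ) w := by
  have hre : 0 < (eth θ).re := by
    rw [eth_re]
    exact hθ
  have hne : eth θ ≠ 0 := P1a_ne hre
  have hpi : (Real.pi : ℂ) ≠ 0 := by exact_mod_cast Real.pi_ne_zero
  have ht' : (t : ℂ) ≠ 0 := by exact_mod_cast ht.ne'
  have h0 : (1 / (4 * (Real.pi : ℂ) * eth θ)) ≠ 0 := P1a_ne (kerA_one_div_re hre)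
  have h1 : (1 / (4 * (Real.pi : ℂ) * ((t : ℂ) * eth θ))) =
      ((t⁻¹ : ℝ) : ℂ) * (1 / (4 * (Real.pi : ℂ) * eth θ)) := by
    push_cast
    field_simp
  have h2 : (1 / (4 * (Real.pi : ℂ) * ((t : ℂ) * eth θ))) ^ ((N : ℂ) / 2) =
      ((t⁻¹ ^ ((N : ℝ) / 2) : ℝ) : ℂ) * (1 / (4 * (Real.pi : ℂ) * eth θ)) ^ ((N : ℂ) / 2) := by
    have ht2 : ((t⁻¹ : ℝ) : ℂ) ≠ 0 := by exact_mod_cast (inv_pos.2 ht).ne'
    rw [h1, Complex.cpow_def_of_ne_zero (mul_ne_zero ht2 h0), Complex.cpow_def_of_ne_zero h0,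
      Complex.log_ofReal_mul (inv_pos.2 ht) h0, add_mul, Complex.exp_add]
    congr 1
    rw [Real.rpow_def_of_pos (inv_pos.2 ht), Complex.ofReal_exp]
    congr 1
    push_cast
    ring
  have h3 : Real.sqrt t ^ N * t⁻¹ ^ ((N : ℝ) / 2) = 1 := by
    rw [Real.inv_rpow ht.le, Real.sqrt_eq_rpow, ← Real.rpow_natCast, ← Real.rpow_mul ht.le]
    have h4 : (1 / 2 * (N : ℝ)) = (N : ℝ) / 2 := by ring
    rw [h4]
    exact mul_inv_cancel₀ (Real.rpow_pos_of_pos ht _).ne'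
  have h5 : (-((‖Real.sqrt t • w‖ : ℝ) : ℂ) ^ 2 / (4 * ((t : ℂ) * eth θ))) =
      -((‖w‖ : ℝ) : ℂ) ^ 2 / (4 * eth θ) := by
    have h6 : ‖Real.sqrt t • w‖ ^ 2 = t * ‖w‖ ^ 2 := by
      rw [norm_smul, mul_pow, Real.norm_of_nonneg (Real.sqrt_nonneg t), Real.sq_sqrt ht.le]
    have h7 : ((‖Real.sqrt t • w‖ : ℝ) : ℂ) ^ 2 = (t : ℂ) * ((‖w‖ : ℝ) : ℂ) ^ 2 := by
      exact_mod_cast congrArg (fun r : ℝ => (r : ℂ)) h6
    rw [h7]
    field_simp
  unfold K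
  rw [h5, h2, ← mul_assoc, ← mul_assoc, ← Complex.ofReal_mul, h3, Complex.ofReal_one, one_mul]

theorem K_conj {θ t : ℝ} (hθ : 0 < Real.cos θ) (ht : 0 < t) (x : E N) :
    conj (K N ((t : ℂ) * eth θ) x) = K N ((t : ℂ) * eth (-θ)) x := by
  have hre := zre_pos hθ ht
  unfold K
  rw [map_mul, ← Complex.exp_conj]
  congr 1
  · have h1 := Complex.conj_cpow (1 / (4 * (Real.pi : ℂ) * ((t : ℂ) * eth θ))) ((N : ℂ) / 2)
      (kerA_arg (kerA_one_div_re hre))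
    have h2 : conj ((N : ℂ) / 2) = (N : ℂ) / 2 := by simp [map_ofNat]
    rw [h2] at h1
    rw [← h1]
    congr 1
    rw [← kerA_eth_neg]
    simp [map_ofNat]
  · congr 1
    rw [← kerA_eth_neg]
    simp [map_ofNat]

theorem K_even (z : ℂ) (x : E N) : K N z (-x) = K N z x :=
  K_radial z (norm_neg x)

/-- for `θ = 0` the kernel is positive with integral one -/
theorem K_norm_zero : ∫ w : E N, ‖K N (eth 0) w‖ = 1 := by
  have hpi := Real.pi_pos
  have h0 : 0 < Real.cos 0 := by rw [Real.cos_zero]; exact one_pos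
  have h1 : ∀ w : E N, ‖K N (eth 0) w‖ =
      (1 / (4 * Real.pi)) ^ ((N : ℝ) / 2) * Real.exp (-(1 / 4) * ‖w‖ ^ 2) := by
    intro w
    have h2 := K_norm (N := N) h0 one_pos w
    rw [Real.cos_zero, mul_one, mul_one, Complex.ofReal_one, one_mul] at h2
    exact h2
  simp_rw [h1]
  rw [integral_const_mul, P1_aux_gauss_int (by norm_num), ← Real.mul_rpow (by positivity)
    (by positivity)]
  have h3 : 1 / (4 * Real.pi) * (Real.pi / (1 / 4)) = 1 := by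
    field_simp
  rw [h3, Real.one_rpow]

/-- `∫ |K(τ e^{iθ},·)|^p = C τ^{-N(p-1)/2}` by `K_norm` and the Gauss integral. -/
theorem K_pow {θ : ℝ} (hθ : 0 < Real.cos θ) {p : ℝ} (hp : 0 < p) : ∃ C : ℝ, 0 < C ∧
    ∀ τ : ℝ, 0 < τ → Integrable (fun x : E N => ‖K N ((τ : ℂ) * eth θ) x‖ ^ p) ∧
      ∫ x : E N, ‖K N ((τ : ℂ) * eth θ) x‖ ^ p = C * τ ^ (-((N : ℝ) * (p - 1) / 2)) := by
  have hpi := Real.pi_pos
  refine ⟨(1 / (4 * Real.pi)) ^ ((N : ℝ) / 2 * p) *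
    (4 * Real.pi / (p * Real.cos θ)) ^ ((N : ℝ) / 2), by positivity, fun τ hτ => ?_⟩
  have hb : 0 < p * Real.cos θ / (4 * τ) := by positivity
  have h1 : ∀ x : E N, ‖K N ((τ : ℂ) * eth θ) x‖ ^ p =
      (1 / (4 * Real.pi * τ)) ^ ((N : ℝ) / 2 * p) *
        Real.exp (-(p * Real.cos θ / (4 * τ)) * ‖x‖ ^ 2) := by
    intro x
    rw [K_norm hθ hτ x, Real.mul_rpow (by positivity) (by positivity),
      ← Real.rpow_mul (by positivity), ← Real.exp_mul]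
    congr 2
    ring
  simp_rw [h1]
  refine ⟨(P1_aux_gauss hb).const_mul _, ?_⟩
  rw [integral_const_mul, P1_aux_gauss_int hb]
  have h2 : 1 / (4 * Real.pi * τ) = 1 / (4 * Real.pi) * τ⁻¹ := by
    field_simp
  have h3 : Real.pi / (p * Real.cos θ / (4 * τ)) = 4 * Real.pi / (p * Real.cos θ) * τ := by
    field_simp
  rw [h2, h3, Real.mul_rpow (by positivity) (by positivity),
    Real.mul_rpow (by positivity) (by positivity), Real.inv_rpow hτ.le, ← Real.rpow_neg hτ.le]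
  have h4 : τ ^ (-((N : ℝ) * (p - 1) / 2)) = τ ^ (-((N : ℝ) / 2 * p)) * τ ^ ((N : ℝ) / 2) := by
    rw [← Real.rpow_add hτ]
    congr 1
    ring
  rw [h4]
  ring

end CGL.Neg
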