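import Pool.Agent.W_317df6_h77.Defs

/-!
# Kernel identities: convolutions

Both from `GaussianFourier.integral_cexp_neg_mul_sq_norm_add` by completing the square:
`-|x-y|²/(4z) - |y|²/(4w) = -b|y|² + (1/(2z))⟨x,y⟩ - |x|²/(4z)`, `b = 1/(4z) + 1/(4w)`, so
`∫ K(z,x-y) K(w,y) dy = (1/(4πz))^s (1/(4πw))^s (π/b)^s exp(-|x|²/(4(z+w)))`, `s = N/2`,
`π/b = 4πzw/(z+w)`.  Powers: `(r ζ)^s = r^s ζ^s` for `r > 0` (`Complex.log_ofReal_mul` or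
`Complex.mul_cpow_ofReal_nonneg`), `(ζ⁻¹)^s ζ^s = 1` for `ζ = e^{iθ}`, `cos θ > 0`
(`Complex.inv_cpow`, `arg ζ ≠ π`).
-/

set_option autoImplicit false

namespace CGL.Neg

open MeasureTheory Set Filter CGL
open scoped ZeroAtInfty ComplexConjugate Topology NNReal ENNReal

variable {N : ℕ}

private theorem KerB_int {z w : ℂ} (hz : z ≠ 0) (hw : w ≠ 0) (hzw : z + w ≠ 0)
    (hb : 0 < (1 / (4 * z) + 1 / (4 * w)).re) (x : E N) :
    ∫ y : E N, K N z (x - y) * K N w y =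
      (1 / (4 * (Real.pi : ℂ) * z)) ^ ((N : ℂ) / 2) * (1 / (4 * (Real.pi : ℂ) * w)) ^ ((N : ℂ) / 2) *
        ((Real.pi : ℂ) / (1 / (4 * z) + 1 / (4 * w))) ^ ((N : ℂ) / 2) *
        Complex.exp (-((‖x‖ : ℝ) : ℂ) ^ 2 / (4 * (z + w))) := by
  obtain ⟨b, hbd⟩ : ∃ b : ℂ, b = 1 / (4 * z) + 1 / (4 * w) := ⟨_, rfl⟩
  rw [← hbd] at hb ⊢
  have hb0 : b ≠ 0 := by
    intro h
    rw [h, Complex.zero_re] at hb
    exact lt_irrefl _ hb
  have h1 : ∀ y : E N, K N z (x - y) * K N w y =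
      ((1 / (4 * (Real.pi : ℂ) * z)) ^ ((N : ℂ) / 2) * (1 / (4 * (Real.pi : ℂ) * w)) ^ ((N : ℂ) / 2) *
        Complex.exp (-((‖x‖ : ℝ) : ℂ) ^ 2 / (4 * z))) *
      Complex.exp (-b * ((‖y‖ : ℝ) : ℂ) ^ 2 + (1 / (2 * z)) * ((inner ℝ x y : ℝ) : ℂ)) := by
    intro y
    have hn : ((‖x - y‖ : ℝ) : ℂ) ^ 2 =
        ((‖x‖ : ℝ) : ℂ) ^ 2 - 2 * ((inner ℝ x y : ℝ) : ℂ) + ((‖y‖ : ℝ) : ℂ) ^ 2 := by
      rw [← Complex.ofReal_pow, norm_sub_sq_real]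
      push_cast
      ring
    have he : Complex.exp (-((‖x - y‖ : ℝ) : ℂ) ^ 2 / (4 * z)) *
        Complex.exp (-((‖y‖ : ℝ) : ℂ) ^ 2 / (4 * w)) =
        Complex.exp (-((‖x‖ : ℝ) : ℂ) ^ 2 / (4 * z)) *
        Complex.exp (-b * ((‖y‖ : ℝ) : ℂ) ^ 2 + (1 / (2 * z)) * ((inner ℝ x y : ℝ) : ℂ)) := by
      rw [← Complex.exp_add, ← Complex.exp_add, hn, hbd]
      congr 1
      field_simp
      ring
    unfold K
    linear_combination ((1 / (4 * (Real.pi : ℂ) * z)) ^ ((N : ℂ) / 2) *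
      (1 / (4 * (Real.pi : ℂ) * w)) ^ ((N : ℂ) / 2)) * he
  simp_rw [h1]
  rw [integral_const_mul, GaussianFourier.integral_cexp_neg_mul_sq_norm_add (V := E N) hb
    (1 / (2 * z)) x]
  have hfr : ((Module.finrank ℝ (E N) : ℕ) : ℂ) = (N : ℂ) := by simp
  rw [hfr]
  have he2 : Complex.exp (-((‖x‖ : ℝ) : ℂ) ^ 2 / (4 * z)) *
      Complex.exp ((1 / (2 * z)) ^ 2 * ((‖x‖ : ℝ) : ℂ) ^ 2 / (4 * b)) =
      Complex.exp (-((‖x‖ : ℝ) : ℂ) ^ 2 / (4 * (z + w))) := by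
    rw [← Complex.exp_add]
    congr 1
    have hb2 : b = (z + w) / (4 * z * w) := by
      rw [hbd]
      field_simp
      ring
    rw [hb2]
    field_simp
    ring
  linear_combination ((1 / (4 * (Real.pi : ℂ) * z)) ^ ((N : ℂ) / 2) *
    (1 / (4 * (Real.pi : ℂ) * w)) ^ ((N : ℂ) / 2) * ((Real.pi : ℂ) / b) ^ ((N : ℂ) / 2)) * he2

private theorem KerB_mul {r : ℝ} (hr : 0 < r) {ζ : ℂ} (hζ : ζ ≠ 0) (s : ℂ) :
    ((r : ℂ) * ζ) ^ s = (r : ℂ) ^ s * ζ ^ s := by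
  have hr0 : (r : ℂ) ≠ 0 := by exact_mod_cast hr.ne'
  rw [Complex.cpow_def_of_ne_zero (mul_ne_zero hr0 hζ), Complex.cpow_def_of_ne_zero hr0,
    Complex.cpow_def_of_ne_zero hζ, Complex.log_ofReal_mul hr hζ, ← Complex.exp_add,
    Complex.ofReal_log hr.le, add_mul]

private theorem KerB_eth_ne (θ : ℝ) : eth θ ≠ 0 := Complex.exp_ne_zero _

private theorem KerB_eth_neg (θ : ℝ) : eth (-θ) = (eth θ)⁻¹ := by
  unfold eth
  rw [← Complex.exp_neg]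
  congr 1
  push_cast
  ring

private theorem KerB_inv {θ : ℝ} (hθ : 0 < Real.cos θ) (s : ℂ) :
    ((eth θ)⁻¹) ^ s * (eth θ) ^ s = 1 := by
  have h1 : (eth θ).arg ≠ Real.pi := by
    intro h
    have h2 := Complex.arg_eq_pi_iff.1 h
    rw [eth_re] at h2
    linarith [h2.1]
  rw [Complex.inv_cpow _ _ h1]
  apply inv_mul_cancel₀
  rw [Complex.cpow_def_of_ne_zero (KerB_eth_ne θ)]
  exact Complex.exp_ne_zero _

private theorem KerB_sum (θ : ℝ) : eth (-θ) + eth θ = ((2 * Real.cos θ : ℝ) : ℂ) := by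
  unfold eth
  rw [Complex.ofReal_mul, Complex.ofReal_cos, Complex.cos]
  push_cast
  ring_nf

private theorem KerB_re_inv {θ t : ℝ} (hθ : 0 < Real.cos θ) (ht : 0 < t) :
    0 < (1 / (4 * ((t : ℂ) * eth θ))).re := by
  have h1 : (1 : ℂ) / (4 * ((t : ℂ) * eth θ)) = ((1 / (4 * t) : ℝ) : ℂ) * eth (-θ) := by
    have ht0 : (t : ℂ) ≠ 0 := by exact_mod_cast ht.ne'
    have h2 := KerB_eth_ne θ
    rw [KerB_eth_neg]
    push_cast
    field_simp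
  rw [h1, Complex.re_ofReal_mul, eth_re, Real.cos_neg]
  positivity

/-- `z = t ζ`, `w = s ζ`. -/
theorem K_conv1 {θ t s : ℝ} (hθ : 0 < Real.cos θ) (ht : 0 < t) (hs : 0 < s) (x : E N) :
    ∫ y : E N, K N ((t : ℂ) * eth θ) (x - y) * K N ((s : ℂ) * eth θ) y =
      K N (((t + s : ℝ) : ℂ) * eth θ) x := by
  have hpi := Real.pi_pos
  have ht0 : (t : ℂ) ≠ 0 := by exact_mod_cast ht.ne'
  have hs0 : (s : ℂ) ≠ 0 := by exact_mod_cast hs.ne'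
  have hts : (0 : ℝ) < t + s := by linarith
  have hts0 : (t : ℂ) + (s : ℂ) ≠ 0 := by exact_mod_cast hts.ne'
  have hpi0 : (Real.pi : ℂ) ≠ 0 := by exact_mod_cast hpi.ne'
  have he := KerB_eth_ne θ
  have hei : (eth θ)⁻¹ ≠ 0 := inv_ne_zero he
  have hzw : (t : ℂ) * eth θ + (s : ℂ) * eth θ = ((t + s : ℝ) : ℂ) * eth θ := by
    push_cast
    ring
  rw [KerB_int (mul_ne_zero ht0 he) (mul_ne_zero hs0 he)
    (by rw [← add_mul]; exact mul_ne_zero hts0 he)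
    (by rw [Complex.add_re]; exact add_pos (KerB_re_inv hθ ht) (KerB_re_inv hθ hs)) x, hzw]
  have e1 : (1 : ℂ) / (4 * (Real.pi : ℂ) * ((t : ℂ) * eth θ)) =
      ((1 / (4 * Real.pi * t) : ℝ) : ℂ) * (eth θ)⁻¹ := by
    push_cast
    field_simp
  have e2 : (1 : ℂ) / (4 * (Real.pi : ℂ) * ((s : ℂ) * eth θ)) =
      ((1 / (4 * Real.pi * s) : ℝ) : ℂ) * (eth θ)⁻¹ := by
    push_cast
    field_simp
  have e3 : (Real.pi : ℂ) / (1 / (4 * ((t : ℂ) * eth θ)) + 1 / (4 * ((s : ℂ) * eth θ))) =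
      ((4 * Real.pi * t * s / (t + s) : ℝ) : ℂ) * eth θ := by
    have e : (1 : ℂ) / (4 * ((t : ℂ) * eth θ)) + 1 / (4 * ((s : ℂ) * eth θ)) =
        ((t : ℂ) + s) / (4 * t * s * eth θ) := by
      field_simp
      ring
    rw [e]
    push_cast
    field_simp
  have e4 : (1 : ℂ) / (4 * (Real.pi : ℂ) * (((t + s : ℝ) : ℂ) * eth θ)) =
      ((1 / (4 * Real.pi * (t + s)) : ℝ) : ℂ) * (eth θ)⁻¹ := by
    push_cast
    field_simp
  have p1 : (0 : ℝ) < 1 / (4 * Real.pi * t) := by positivity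
  have p2 : (0 : ℝ) < 1 / (4 * Real.pi * s) := by positivity
  have p3 : (0 : ℝ) < 4 * Real.pi * t * s / (t + s) := by positivity
  have p4 : (0 : ℝ) < 1 / (4 * Real.pi * (t + s)) := by positivity
  unfold K
  rw [e1, e2, e3, e4, KerB_mul p1 hei, KerB_mul p2 hei, KerB_mul p3 he, KerB_mul p4 hei]
  have hr : ((1 / (4 * Real.pi * t) : ℝ) : ℂ) ^ ((N : ℂ) / 2) *
      ((1 / (4 * Real.pi * s) : ℝ) : ℂ) ^ ((N : ℂ) / 2) *
      ((4 * Real.pi * t * s / (t + s) : ℝ) : ℂ) ^ ((N : ℂ) / 2) =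
      ((1 / (4 * Real.pi * (t + s)) : ℝ) : ℂ) ^ ((N : ℂ) / 2) := by
    rw [← Complex.mul_cpow_ofReal_nonneg p1.le p2.le, ← Complex.ofReal_mul,
      ← Complex.mul_cpow_ofReal_nonneg (mul_pos p1 p2).le p3.le, ← Complex.ofReal_mul]
    congr 2
    field_simp
  have hi := KerB_inv hθ ((N : ℂ) / 2)
  calc _ = (((1 / (4 * Real.pi * t) : ℝ) : ℂ) ^ ((N : ℂ) / 2) *
      ((1 / (4 * Real.pi * s) : ℝ) : ℂ) ^ ((N : ℂ) / 2) *
      ((4 * Real.pi * t * s / (t + s) : ℝ) : ℂ) ^ ((N : ℂ) / 2)) *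
        (((eth θ)⁻¹) ^ ((N : ℂ) / 2) * (eth θ) ^ ((N : ℂ) / 2)) * ((eth θ)⁻¹) ^ ((N : ℂ) / 2) *
        Complex.exp (-((‖x‖ : ℝ) : ℂ) ^ 2 / (4 * (((t + s : ℝ) : ℂ) * eth θ))) := by ring
    _ = _ := by rw [hr, hi, mul_one]

/-- `z = t ζ⁻¹`, `w = t ζ`, `z + w = 2 t cos θ` (and `eth 0 = 1`). -/
theorem K_conv2 {θ t : ℝ} (hθ : 0 < Real.cos θ) (ht : 0 < t) (x : E N) :
    ∫ y : E N, K N ((t : ℂ) * eth (-θ)) (x - y) * K N ((t : ℂ) * eth θ) y =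
      K N (((2 * t * Real.cos θ : ℝ) : ℂ) * eth 0) x := by
  have hpi := Real.pi_pos
  have hθ' : 0 < Real.cos (-θ) := by rwa [Real.cos_neg]
  have ht0 : (t : ℂ) ≠ 0 := by exact_mod_cast ht.ne'
  have hc0 : ((Real.cos θ : ℝ) : ℂ) ≠ 0 := by exact_mod_cast hθ.ne'
  have hpi0 : (Real.pi : ℂ) ≠ 0 := by exact_mod_cast hpi.ne'
  have he := KerB_eth_ne θ
  have hei : (eth θ)⁻¹ ≠ 0 := inv_ne_zero he
  have he' := KerB_eth_ne (-θ)
  have h0 : eth 0 = 1 := by simp [eth]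
  have hsum := KerB_sum θ
  have hzw : (t : ℂ) * eth (-θ) + (t : ℂ) * eth θ = ((2 * t * Real.cos θ : ℝ) : ℂ) * eth 0 := by
    rw [h0, mul_one, ← mul_add, hsum]
    push_cast
    ring
  have hprod : eth (-θ) * eth θ = 1 := by
    rw [KerB_eth_neg, inv_mul_cancel₀ he]
  have hne : (((2 * t * Real.cos θ : ℝ) : ℂ) * eth 0) ≠ 0 := by
    rw [h0, mul_one]
    exact_mod_cast (by positivity : (2 * t * Real.cos θ) ≠ 0)
  rw [KerB_int (mul_ne_zero ht0 he') (mul_ne_zero ht0 he) (by rw [hzw]; exact hne)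
    (by rw [Complex.add_re]; exact add_pos (KerB_re_inv hθ' ht) (KerB_re_inv hθ ht)) x, hzw]
  have e1 : (1 : ℂ) / (4 * (Real.pi : ℂ) * ((t : ℂ) * eth (-θ))) =
      ((1 / (4 * Real.pi * t) : ℝ) : ℂ) * eth θ := by
    rw [KerB_eth_neg]
    push_cast
    field_simp
  have e2 : (1 : ℂ) / (4 * (Real.pi : ℂ) * ((t : ℂ) * eth θ)) =
      ((1 / (4 * Real.pi * t) : ℝ) : ℂ) * (eth θ)⁻¹ := by
    push_cast
    field_simp
  have e3 : (Real.pi : ℂ) / (1 / (4 * ((t : ℂ) * eth (-θ))) + 1 / (4 * ((t : ℂ) * eth θ))) =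
      ((2 * Real.pi * t / Real.cos θ : ℝ) : ℂ) := by
    have e : (1 : ℂ) / (4 * ((t : ℂ) * eth (-θ))) + 1 / (4 * ((t : ℂ) * eth θ)) =
        (eth (-θ) + eth θ) / (4 * t * (eth (-θ) * eth θ)) := by
      field_simp
      ring
    rw [e, hprod, hsum]
    push_cast
    have hc1 : Complex.cos (θ : ℂ) ≠ 0 := by
      rw [← Complex.ofReal_cos]
      exact hc0
    field_simp
    ring
  have e4 : (1 : ℂ) / (4 * (Real.pi : ℂ) * (((2 * t * Real.cos θ : ℝ) : ℂ) * eth 0)) =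
      ((1 / (4 * Real.pi * (2 * t * Real.cos θ)) : ℝ) : ℂ) := by
    rw [h0, mul_one]
    push_cast
    ring
  have p1 : (0 : ℝ) < 1 / (4 * Real.pi * t) := by positivity
  have p3 : (0 : ℝ) < 2 * Real.pi * t / Real.cos θ := by positivity
  unfold K
  rw [e1, e2, e3, e4, KerB_mul p1 hei, KerB_mul p1 he]
  have hr : ((1 / (4 * Real.pi * t) : ℝ) : ℂ) ^ ((N : ℂ) / 2) *
      ((1 / (4 * Real.pi * t) : ℝ) : ℂ) ^ ((N : ℂ) / 2) *
      ((2 * Real.pi * t / Real.cos θ : ℝ) : ℂ) ^ ((N : ℂ) / 2) =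
      ((1 / (4 * Real.pi * (2 * t * Real.cos θ)) : ℝ) : ℂ) ^ ((N : ℂ) / 2) := by
    rw [← Complex.mul_cpow_ofReal_nonneg p1.le p1.le, ← Complex.ofReal_mul,
      ← Complex.mul_cpow_ofReal_nonneg (mul_pos p1 p1).le p3.le, ← Complex.ofReal_mul]
    congr 2
    field_simp
    ring
  have hi := KerB_inv hθ ((N : ℂ) / 2)
  calc _ = (((1 / (4 * Real.pi * t) : ℝ) : ℂ) ^ ((N : ℂ) / 2) *
      ((1 / (4 * Real.pi * t) : ℝ) : ℂ) ^ ((N : ℂ) / 2) *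
      ((2 * Real.pi * t / Real.cos θ : ℝ) : ℂ) ^ ((N : ℂ) / 2)) *
        (((eth θ)⁻¹) ^ ((N : ℂ) / 2) * (eth θ) ^ ((N : ℂ) / 2)) *
        Complex.exp (-((‖x‖ : ℝ) : ℂ) ^ 2 / (4 * (((2 * t * Real.cos θ : ℝ) : ℂ) * eth 0))) := by
          ring
    _ = _ := by rw [hr, hi, mul_one]

end CGL.Neg
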