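import Mathlib

/-!
# Elementary inequalities for the `L^∞` bound
-/

set_option autoImplicit false

namespace CGL.Neg

open MeasureTheory Set Filter

/-- sublinear bounds -/
theorem sublin (A B1 B2 B3 b1 b2 b3 : ℝ) (h1 : b1 < 1) (h2 : b2 < 1) (h3 : b3 < 1) :
    ∃ Y0 : ℝ, ∀ Y : ℝ, 1 ≤ Y → Y ≤ A + B1 * Y ^ b1 + B2 * Y ^ b2 + B3 * Y ^ b3 → Y ≤ Y0 := by
  have ht : ∀ b : ℝ, b < 1 → Tendsto (fun Y : ℝ => Y ^ (-(1 - b))) atTop (nhds 0) := fun b hb =>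
    tendsto_rpow_neg_atTop (sub_pos.2 hb)
  have h4 : Tendsto (fun Y : ℝ => A * Y ^ (-(1 - (0:ℝ))) + B1 * Y ^ (-(1 - b1)) +
      B2 * Y ^ (-(1 - b2)) + B3 * Y ^ (-(1 - b3))) atTop (nhds 0) := by
    have h5 := ((((ht 0 one_pos).const_mul A).add ((ht b1 h1).const_mul B1)).add
      ((ht b2 h2).const_mul B2)).add ((ht b3 h3).const_mul B3)
    simpa using h5
  have h5 : ∀ᶠ Y : ℝ in atTop, A * Y ^ (-(1 - (0:ℝ))) + B1 * Y ^ (-(1 - b1)) +
      B2 * Y ^ (-(1 - b2)) + B3 * Y ^ (-(1 - b3)) < 1 := h4.eventually_lt_const one_pos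
  obtain ⟨Y0, hY0⟩ := eventually_atTop.1 h5
  refine ⟨Y0, fun Y hY hle => ?_⟩
  by_contra hlt
  have h6 := hY0 Y (not_le.1 hlt).le
  have hpos : 0 < Y := lt_of_lt_of_le one_pos hY
  have h7 : ∀ b : ℝ, Y * Y ^ (-(1 - b)) = Y ^ b := by
    intro b
    have h8 : Y ^ b = Y ^ (1:ℝ) * Y ^ (-(1 - b)) := by
      rw [← Real.rpow_add hpos]
      congr 1
      ring
    rw [h8, Real.rpow_one]
  have h8 : Y * (A * Y ^ (-(1 - (0:ℝ))) + B1 * Y ^ (-(1 - b1)) +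
      B2 * Y ^ (-(1 - b2)) + B3 * Y ^ (-(1 - b3))) < Y * 1 := mul_lt_mul_of_pos_left h6 hpos
  have h9 : Y * (A * Y ^ (-(1 - (0:ℝ))) + B1 * Y ^ (-(1 - b1)) +
      B2 * Y ^ (-(1 - b2)) + B3 * Y ^ (-(1 - b3))) =
      A + B1 * Y ^ b1 + B2 * Y ^ b2 + B3 * Y ^ b3 := by
    have h10 := h7 0
    rw [Real.rpow_zero] at h10
    rw [← h7 b1, ← h7 b2, ← h7 b3]
    linear_combination A * h10
  rw [h9, mul_one] at h8
  exact absurd hle (not_le.2 h8)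

/-- `(m^α a)^p ≤ Y^((α+1)p-(α+2)) m^α a²`, `m = min(a,R)`, `a ≤ Y`, `p ≥ (α+2)/(α+1)`:
`(m^α a)^p = m^α a² · m^{α(p-1)} a^{p-2}`; if `p ≥ 2` use `m, a ≤ Y`, if `p < 2` use
`a^{p-2} ≤ m^{p-2}`. -/
theorem pow_est {α R a Y p : ℝ} (hα : 0 < α) (hR : 0 < R) (ha : 0 ≤ a) (haY : a ≤ Y) (hp1 : 1 < p)
    (hp : (α + 2) / (α + 1) ≤ p) :
    ((min a R) ^ α * a) ^ p ≤ Y ^ ((α + 1) * p - (α + 2)) * ((min a R) ^ α * a ^ 2) := by
  rcases ha.eq_or_lt with h0 | h0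
  · subst h0
    rw [mul_zero, Real.zero_rpow (by linarith : p ≠ 0)]
    simp
  set m := min a R with hm
  have hm0 : 0 < m := lt_min h0 hR
  have hma : m ≤ a := min_le_left _ _
  have hY : 0 < Y := h0.trans_le haY
  have hp' : 0 ≤ (α + 1) * p - (α + 2) := by
    have h1 : 0 < α + 1 := by linarith
    rw [div_le_iff₀ h1] at hp
    linarith
  have e1 : (m ^ α * a) ^ p = (m ^ (α * (p - 1)) * a ^ (p - 2)) * (m ^ α * a ^ 2) := by
    have e2 : m ^ (α * (p - 1)) * m ^ α = m ^ (α * p) := by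
      rw [← Real.rpow_add hm0]
      congr 1
      ring
    have e3 : a ^ (p - 2) * a ^ 2 = a ^ p := by
      rw [← Real.rpow_natCast a 2, ← Real.rpow_add h0]
      congr 1
      push_cast
      ring
    rw [Real.mul_rpow (Real.rpow_nonneg hm0.le α) h0.le, ← Real.rpow_mul hm0.le, ← e2, ← e3]
    ring
  rw [e1]
  refine mul_le_mul_of_nonneg_right ?_ (by positivity)
  have e4 : (α + 1) * p - (α + 2) = α * (p - 1) + (p - 2) := by ring
  rcases le_or_gt 2 p with h2 | h2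
  · rw [e4, Real.rpow_add hY]
    refine mul_le_mul ?_ ?_ (Real.rpow_nonneg h0.le _) (Real.rpow_nonneg hY.le _)
    · exact Real.rpow_le_rpow hm0.le (hma.trans haY) (mul_nonneg hα.le (by linarith))
    · exact Real.rpow_le_rpow h0.le haY (by linarith)
  · have h3 : a ^ (p - 2) ≤ m ^ (p - 2) :=
      Real.rpow_le_rpow_of_nonpos hm0 hma (by linarith)
    calc m ^ (α * (p - 1)) * a ^ (p - 2) ≤ m ^ (α * (p - 1)) * m ^ (p - 2) :=
          mul_le_mul_of_nonneg_left h3 (Real.rpow_nonneg hm0.le _)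
      _ = m ^ ((α + 1) * p - (α + 2)) := by rw [e4, Real.rpow_add hm0]
      _ ≤ Y ^ ((α + 1) * p - (α + 2)) := Real.rpow_le_rpow hm0.le (hma.trans haY) hp'

/-- choice of the exponents `p`, `σ` -/
theorem exps {N : ℕ} (hN : 1 ≤ N) {α : ℝ} (hα : 0 < α) (hα4 : α < 4 / N) : ∃ p σ : ℝ,
    1 + (N : ℝ) / 2 < p ∧ 1 < p ∧ (α + 2) / (α + 1) ≤ p ∧ σ * (p / (p - 1)) < 1 ∧
      (α + 1) * p - (α + 2) - σ * p < 1 := by
  have hN0 : (0:ℝ) < N := by exact_mod_cast hN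
  have h1 : (N : ℝ) / 2 < 2 / α := by
    rw [lt_div_iff₀ hN0] at hα4
    rw [lt_div_iff₀ hα]
    linarith
  have h2 : 1 / (α + 1) < 2 / α := by
    rw [div_lt_div_iff₀ (by linarith) hα]
    linarith
  obtain ⟨q, hq1, hq2⟩ := exists_between (max_lt h1 h2)
  obtain ⟨hq3, hq4⟩ := max_lt_iff.1 hq1
  have hq0 : 0 < q := lt_trans (by positivity) hq3
  have hαq : α * q < 2 := by
    rw [lt_div_iff₀ hα] at hq2
    linarith
  have h5 : (α + 1) * (q + 1) - (α + 3) < q := by nlinarith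
  obtain ⟨τ, ht1, ht2⟩ := exists_between h5
  have hp0 : 0 < q + 1 := by linarith
  refine ⟨q + 1, τ / (q + 1), by linarith, by linarith, ?_, ?_, ?_⟩
  · rw [div_le_iff₀ (by linarith)]
    rw [div_lt_iff₀ (by linarith)] at hq4
    nlinarith
  · rw [show q + 1 - 1 = q by ring, div_mul_div_comm, mul_comm τ (q + 1),
      mul_div_mul_left _ _ hp0.ne', div_lt_one hq0]
    exact ht2
  · rw [div_mul_cancel₀ _ hp0.ne']
    linarith

end CGL.Neg
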