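import Pool.Agent.W_317df6_h77.KerA

/-!
# Smoothing estimate for the Duhamel term

Young's inequality `|K||g| ≤ (ε|K|)^{p'} + (|g|/ε)^p` (`p' = p/(p-1)`,
`Real.young_inequality_of_nonneg`), `∫ |K(τ)|^{p'} = C τ^{-N(p'-1)/2}` (`K_pow`) and
`N(p'-1)/2 = N/(2(p-1)) < 1` iff `p > 1 + N/2` (`intervalIntegral.intervalIntegrable_rpow'`).
-/

set_option autoImplicit false

namespace CGL.Neg

open MeasureTheory Set Filter CGL
open scoped ZeroAtInfty ComplexConjugate Topology NNReal ENNReal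

variable {N : ℕ}

/-- pointwise Young inequality with a parameter -/
theorem Smooth_young {a b ε p : ℝ} (hp1 : 1 < p) (hε : 0 < ε) (ha : 0 ≤ a) (hb : 0 ≤ b) :
    a * b ≤ ε ^ (p / (p - 1)) * a ^ (p / (p - 1)) + ε ^ (-p) * b ^ p := by
  have hp0 : 0 < p := by linarith
  have hp1' : 0 < p - 1 := by linarith
  have hq1 : 1 < p / (p - 1) := by
    rw [lt_div_iff₀ hp1']
    linarith
  have hconj : (p / (p - 1)).HolderConjugate p := by
    rw [Real.holderConjugate_iff]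
    refine ⟨hq1, ?_⟩
    field_simp
    ring
  have h1 := Real.young_inequality_of_nonneg (mul_nonneg hε.le ha) (div_nonneg hb hε.le) hconj
  have h2 : ε * a * (b / ε) = a * b := by
    field_simp
  rw [h2, Real.mul_rpow hε.le ha, Real.div_rpow hb hε.le] at h1
  have h3 : ε ^ (p / (p - 1)) * a ^ (p / (p - 1)) / (p / (p - 1)) ≤
      ε ^ (p / (p - 1)) * a ^ (p / (p - 1)) := by
    apply div_le_self
    · positivity
    · exact hq1.le
  have h4 : b ^ p / ε ^ p / p ≤ ε ^ (-p) * b ^ p := by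
    have h5 : b ^ p / ε ^ p / p ≤ b ^ p / ε ^ p := by
      apply div_le_self
      · positivity
      · exact hp1.le
    refine h5.trans (le_of_eq ?_)
    rw [Real.rpow_neg hε.le]
    ring
  linarith

theorem smooth (N : ℕ) {θ : ℝ} (hθ : 0 < Real.cos θ) {p : ℝ} (hp : 1 + (N : ℝ) / 2 < p)
    (hp1 : 1 < p) {T : ℝ} (hT : 0 < T) : ∃ C : ℝ, 0 < C ∧
    ∀ g : ℝ → E N → ℂ, ContinuousOn (fun q : ℝ × E N => g q.1 q.2) (Icc 0 T ×ˢ univ) →
      (∀ s ∈ Icc 0 T, Integrable fun y => ‖g s y‖ ^ p) →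
      IntervalIntegrable (fun s => ∫ y, ‖g s y‖ ^ p) volume 0 T →
      ∀ t ∈ Ioc 0 T, ∀ x : E N, ∀ ε : ℝ, 0 < ε →
        ‖∫ s in (0:ℝ)..t, ∫ y, K N (((t - s : ℝ) : ℂ) * eth θ) (x - y) * g s y‖ ≤
          C * ε ^ (p / (p - 1)) + ε ^ (-p) * ∫ s in (0:ℝ)..T, ∫ y, ‖g s y‖ ^ p := by
  have hp0 : 0 < p := by linarith
  have hp1' : 0 < p - 1 := by linarith
  obtain ⟨q, hq⟩ : ∃ q, q = p / (p - 1) := ⟨_, rfl⟩
  have hq0 : 0 < q := by
    rw [hq]
    positivity
  obtain ⟨C₁, hC₁, hK⟩ := K_pow (N := N) hθ hq0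
  obtain ⟨e, he⟩ : ∃ e, e = (N : ℝ) * (q - 1) / 2 := ⟨_, rfl⟩
  have he1 : e < 1 := by
    have h1 : q - 1 = 1 / (p - 1) := by
      rw [hq]
      field_simp
      ring
    rw [he, h1, mul_one_div, div_div, div_lt_one (by positivity)]
    linarith
  have hT1 : 0 < T ^ (1 - e) := Real.rpow_pos_of_pos hT _
  refine ⟨C₁ * (T ^ (1 - e) / (1 - e)), mul_pos hC₁ (div_pos hT1 (by linarith)), ?_⟩
  intro g _ hgi hgI t ht x ε hε
  rw [← hq]
  obtain ⟨G, hG⟩ : ∃ G : ℝ → ℝ, G = fun s => ∫ y, ‖g s y‖ ^ p := ⟨_, rfl⟩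
  have hG0 : ∀ s, 0 ≤ G s := by
    intro s
    rw [hG]
    exact integral_nonneg fun y => Real.rpow_nonneg (norm_nonneg _) _
  -- the inner integral
  have hin : ∀ s ∈ Ico 0 t,
      ‖∫ y, K N (((t - s : ℝ) : ℂ) * eth θ) (x - y) * g s y‖ ≤
        ε ^ q * (C₁ * (t - s) ^ (-e)) + ε ^ (-p) * G s := by
    intro s hs
    have hτ : 0 < t - s := by linarith [hs.2]
    obtain ⟨h1, h2⟩ := hK (t - s) hτ
    have h3 : Integrable (fun y : E N =>
        ε ^ q * ‖K N (((t - s : ℝ) : ℂ) * eth θ) (x - y)‖ ^ q) :=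
      (h1.comp_sub_left x).const_mul _
    have h4 : Integrable (fun y : E N => ε ^ (-p) * ‖g s y‖ ^ p) :=
      (hgi s ⟨hs.1, hs.2.le.trans ht.2⟩).const_mul _
    refine (norm_integral_le_integral_norm _).trans ?_
    have h5 : ∫ y, ‖K N (((t - s : ℝ) : ℂ) * eth θ) (x - y) * g s y‖ ≤
        ∫ y, (ε ^ q * ‖K N (((t - s : ℝ) : ℂ) * eth θ) (x - y)‖ ^ q +
          ε ^ (-p) * ‖g s y‖ ^ p) := by
      refine integral_mono_of_nonneg (Filter.Eventually.of_forall fun y => norm_nonneg _)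
        (h3.add h4) (Filter.Eventually.of_forall fun y => ?_)
      show ‖K N (((t - s : ℝ) : ℂ) * eth θ) (x - y) * g s y‖ ≤ _
      rw [norm_mul, hq]
      exact Smooth_young hp1 hε (norm_nonneg _) (norm_nonneg _)
    refine h5.trans (le_of_eq ?_)
    rw [integral_add h3 h4, integral_const_mul, integral_const_mul,
      integral_sub_left_eq_self (fun y : E N => ‖K N (((t - s : ℝ) : ℂ) * eth θ) y‖ ^ q) volume x,
      h2, ← he, hG]
  -- the majorant
  have hI1 : IntervalIntegrable (fun s => (t - s) ^ (-e)) volume 0 t := by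
    have h1 : IntervalIntegrable (fun s : ℝ => s ^ (-e)) volume t 0 :=
      intervalIntegral.intervalIntegrable_rpow' (by linarith)
    have h2 := h1.comp_sub_left t
    rwa [sub_self, sub_zero] at h2
  have hI2 : IntervalIntegrable G volume 0 t := by
    rw [hG]
    exact hgI.mono_set (by
      rw [uIcc_of_le ht.1.le, uIcc_of_le hT.le]
      exact Icc_subset_Icc_right ht.2)
  have hI3 : IntervalIntegrable (fun s => ε ^ q * (C₁ * (t - s) ^ (-e)) + ε ^ (-p) * G s)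
      volume 0 t := ((hI1.const_mul C₁).const_mul (ε ^ q)).add (hI2.const_mul (ε ^ (-p)))
  have hout : ‖∫ s in (0:ℝ)..t, ∫ y, K N (((t - s : ℝ) : ℂ) * eth θ) (x - y) * g s y‖ ≤
      ∫ s in (0:ℝ)..t, (ε ^ q * (C₁ * (t - s) ^ (-e)) + ε ^ (-p) * G s) := by
    refine intervalIntegral.norm_integral_le_of_norm_le ht.1.le ?_ hI3
    have hne : ∀ᵐ s : ℝ, s ≠ t := by
      rw [ae_iff]
      simp
    filter_upwards [hne] with s hs hs2
    exact hin s ⟨hs2.1.le, lt_of_le_of_ne hs2.2 hs⟩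
  refine hout.trans ?_
  rw [intervalIntegral.integral_add ((hI1.const_mul C₁).const_mul (ε ^ q))
    (hI2.const_mul (ε ^ (-p))), intervalIntegral.integral_const_mul,
    intervalIntegral.integral_const_mul, intervalIntegral.integral_const_mul]
  have h6 : ∫ s in (0:ℝ)..t, (t - s) ^ (-e) = t ^ (1 - e) / (1 - e) := by
    rw [intervalIntegral.integral_comp_sub_left (fun s : ℝ => s ^ (-e)) t, sub_self, sub_zero,
      integral_rpow (Or.inl (by linarith)), Real.zero_rpow (by linarith)]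
    rw [sub_zero, neg_add_eq_sub]
  have h7 : t ^ (1 - e) / (1 - e) ≤ T ^ (1 - e) / (1 - e) := by
    apply div_le_div_of_nonneg_right _ (by linarith)
    exact Real.rpow_le_rpow ht.1.le ht.2 (by linarith)
  have h8 : ∫ s in (0:ℝ)..t, G s ≤ ∫ s in (0:ℝ)..T, G s := by
    refine intervalIntegral.integral_mono_interval le_rfl ht.1.le ht.2
      (Filter.Eventually.of_forall fun s => hG0 s) ?_
    rw [hG]
    exact hgI
  have h9 : 0 < ε ^ q := Real.rpow_pos_of_pos hε _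
  have h10 : 0 < ε ^ (-p) := Real.rpow_pos_of_pos hε _
  rw [h6]
  have h11 : ε ^ q * (C₁ * (t ^ (1 - e) / (1 - e))) ≤
      C₁ * (T ^ (1 - e) / (1 - e)) * ε ^ q := by
    have h12 := mul_le_mul_of_nonneg_left h7 (mul_pos hC₁ h9).le
    nlinarith
  have h13 := mul_le_mul_of_nonneg_left h8 h10.le
  rw [hG] at h13
  rw [hG]
  linarith

end CGL.Neg
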