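import Pool.Agent.W_317df6_h77.PW
import Pool.Agent.W_317df6_h77.Smooth
import Pool.Agent.W_317df6_h77.LinfA

/-!
# `L^∞` bound independent of the truncation
-/

set_option autoImplicit false

namespace CGL.Neg

open MeasureTheory Set Filter CGL
open scoped ZeroAtInfty ComplexConjugate Topology NNReal ENNReal

variable {N : ℕ}

/-- integrability and bound of `∫∫ ‖g‖^p` from a pointwise bound -/
theorem Linf_term {g : ℝ → E N → ℂ} (hg : Continuous fun q : ℝ × E N => g q.1 q.2) {p : ℝ}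
    (hp : 0 < p) {T c : ℝ} (hT : 0 < T) {f : ℝ → E N → ℝ} {φ : ℝ → ℝ}
    (hf : ∀ s, Integrable (f s)) (hφ : Continuous φ) (hφf : ∀ s, ∫ y, f s y = φ s)
    (hb : ∀ s ∈ Icc 0 T, ∀ y, ‖g s y‖ ^ p ≤ c * f s y) :
    (∀ s ∈ Icc 0 T, Integrable fun y => ‖g s y‖ ^ p) ∧
      IntervalIntegrable (fun s => ∫ y, ‖g s y‖ ^ p) volume 0 T ∧
      ∫ s in (0:ℝ)..T, ∫ y, ‖g s y‖ ^ p ≤ c * ∫ s in (0:ℝ)..T, φ s := by
  have hcont : Continuous fun q : ℝ × E N => ‖g q.1 q.2‖ ^ p :=
    hg.norm.rpow_const fun _ => Or.inr hp.le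
  have hs : ∀ s ∈ Icc 0 T, Integrable fun y => ‖g s y‖ ^ p := by
    intro s hs
    refine Integrable.mono' ((hf s).const_mul c) ?_ ?_
    · exact (hcont.comp (Continuous.prodMk continuous_const continuous_id)).aestronglyMeasurable
    · refine Eventually.of_forall fun y => ?_
      rw [Real.norm_of_nonneg (Real.rpow_nonneg (norm_nonneg _) _)]
      exact hb s hs y
  have hle : ∀ s ∈ Icc 0 T, ∫ y, ‖g s y‖ ^ p ≤ c * φ s := by
    intro s hs'
    rw [← hφf s, ← integral_const_mul]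
    exact integral_mono (hs s hs') ((hf s).const_mul c) fun y => hb s hs' y
  have h0 : ∀ s, 0 ≤ ∫ y, ‖g s y‖ ^ p := fun s =>
    integral_nonneg fun y => Real.rpow_nonneg (norm_nonneg _) _
  have hmeas : StronglyMeasurable fun s => ∫ y, ‖g s y‖ ^ p :=
    (hcont.stronglyMeasurable (α := ℝ × E N)).integral_prod_right'
      (ν := (volume : Measure (E N)))
  have hii : IntervalIntegrable (fun s => ∫ y, ‖g s y‖ ^ p) volume 0 T := by
    refine ((hφ.const_mul c).intervalIntegrable 0 T).mono_fun' hmeas.aestronglyMeasurable ?_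
    rw [uIoc_of_le hT.le]
    refine (ae_restrict_iff' measurableSet_Ioc).2 (Eventually.of_forall fun s hs' => ?_)
    show ‖∫ y, ‖g s y‖ ^ p‖ ≤ c * φ s
    rw [Real.norm_of_nonneg (h0 s)]
    exact hle s ⟨hs'.1.le, hs'.2⟩
  refine ⟨hs, hii, ?_⟩
  rw [← intervalIntegral.integral_const_mul]
  exact intervalIntegral.integral_mono_on hT.le hii ((hφ.const_mul c).intervalIntegrable 0 T) hle

/-- The bound.  Let `Y = max_{[0,T]} ‖u(t)‖_∞`, attained at `t*`.  If `t* = 0` or `Y ≤ 1` done.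
Otherwise `pointwise` at `t*`, the first term is `≤ (∫|K(e^{iθ},·)|) U0`, the nonlinear term is
estimated by `smooth` with `g = tn(u)`, `p` from `exps`, `ε = Y^σ`, `pow_est`; the `γ` term by
`smooth` with `g = u`, `p = N+2`, `ε = Y^{1-2/p}`, `|u|^p ≤ Y^{p-2}|u|²`; then `sublin`. -/
theorem linf (hN : 1 ≤ N) {α : ℝ} (hα : 0 < α) (hα4 : α < 4 / N) {θ : ℝ} (hθ : 0 < Real.cos θ)
    (γ : ℝ) {T : ℝ} (hT : 0 < T) (U0 M0 B : ℝ) : ∃ Y : ℝ, ∀ R : ℝ, 0 < R → ∀ L : ℝ≥0,
    ∀ hG : LipschitzWith L (TF α θ γ R), ∀ u : ℝ → ZS N, Continuous u →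
      (∀ t ∈ Icc 0 T, u t = (RZ N).S θ t (u 0) +
        ∫ s in (0:ℝ)..t, (RZ N).S θ (t - s) (post hG (TF_zero α θ γ R) (u s))) →
      ‖(u 0).1.1‖ ≤ U0 → (∀ t ∈ Icc 0 T, ‖(u t).1.2‖ ^ 2 ≤ M0) →
      (∫ s in (0:ℝ)..T, PR α R (u s)) ≤ B → ∀ t ∈ Icc 0 T, ‖(u t).1.1‖ ≤ Y := by
  obtain ⟨p, σ, hp1, hp1', hpr, hσ1, hσ2⟩ := exps hN hα hα4
  obtain ⟨C1, hC1, h1⟩ := smooth N hθ hp1 hp1' hT
  have hN0 : (0:ℝ) ≤ N := Nat.cast_nonneg N
  have hp2 : 1 + (N:ℝ) / 2 < (N:ℝ) + 2 := by linarith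
  have hp2' : 1 < (N:ℝ) + 2 := by linarith
  obtain ⟨C2, hC2, h2⟩ := smooth N hθ hp2 hp2' hT
  obtain ⟨κ, hκ, hκT⟩ := K_l1 (N := N) hθ hT
  set p2 : ℝ := (N:ℝ) + 2 with hp2def
  set σ2 : ℝ := 1 - 2 / p2 with hσ2def
  have hp2pos : 0 < p2 := by rw [hp2def]; linarith
  have hb3 : σ2 * (p2 / (p2 - 1)) < 1 := by
    have h3 : 0 < p2 - 1 := by rw [hp2def]; linarith
    have : σ2 * (p2 / (p2 - 1)) = (p2 - 2) / (p2 - 1) := by
      rw [hσ2def]
      field_simp
    rw [this, div_lt_one h3]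
    linarith
  obtain ⟨Y0, hY0⟩ := sublin (κ * |U0| + |γ| * (T * |M0|)) C1 |B| (|γ| * C2)
    (σ * (p / (p - 1))) ((α + 1) * p - (α + 2) - σ * p) (σ2 * (p2 / (p2 - 1))) hσ1 hσ2 hb3
  refine ⟨max 1 (max |U0| Y0), ?_⟩
  intro R hR L hG u hu he hU hM hB t ht
  -- the maximum
  have hnc : Continuous fun s => ‖(u s).1.1‖ :=
    (continuous_fst.comp (continuous_subtype_val.comp hu)).norm
  obtain ⟨ts, hts, hmax⟩ := isCompact_Icc.exists_isMaxOn (nonempty_Icc.2 hT.le)
    hnc.continuousOn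
  have hmax' : ∀ s ∈ Icc 0 T, ‖(u s).1.1‖ ≤ ‖(u ts).1.1‖ := fun s hs => hmax hs
  set y := ‖(u ts).1.1‖ with hy
  refine (hmax' t ht).trans ?_
  rcases le_or_gt y 1 with hy1 | hy1
  · exact hy1.trans (le_max_left _ _)
  have hypos : 0 < y := one_pos.trans hy1
  rcases hts.1.eq_or_lt with h0 | hts0
  · have : y ≤ |U0| := by
      rw [hy, ← h0]
      exact hU.trans (le_abs_self _)
    exact this.trans ((le_max_left _ _).trans (le_max_right _ _))
  have hts' : ts ∈ Ioc 0 T := ⟨hts0, hts.2⟩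
  refine le_trans (hY0 y hy1.le ?_) ((le_max_right _ _).trans (le_max_right _ _))
  -- pointwise values
  have hpt : ∀ s ∈ Icc 0 T, ∀ x, ‖(u s).1.1 x‖ ≤ y := by
    intro s hs x
    refine le_trans ?_ (hmax' s hs)
    rw [← ZeroAtInftyContinuousMap.norm_toBCF_eq_norm (f := (u s).1.1)]
    exact (u s).1.1.toBCF.norm_coe_le_norm x
  have hj := joint hu
  obtain ⟨Lt, hLt⟩ := tn_lip hα hR
  have htn : Continuous (tn α R) := hLt.continuous
  have hpost : Continuous fun s => post hG (TF_zero α θ γ R) (u s) := by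
    have hlip : LipschitzWith L (fun z : ZS N => post hG (TF_zero α θ γ R) z) := by
      refine LipschitzWith.of_dist_le_mul fun z w => ?_
      rw [Subtype.dist_eq, Subtype.dist_eq, dist_eq_norm, dist_eq_norm]
      exact post_lip hG _ z w
    exact hlip.continuous.comp hu
  -- the nonlinear term
  have hntn : ∀ z : ℂ, ‖tn α R z‖ = (min ‖z‖ R) ^ α * ‖z‖ := by
    intro z
    unfold tn
    rw [norm_mul, Complex.norm_real, Real.norm_of_nonneg
      (Real.rpow_nonneg (le_min (norm_nonneg _) hR.le) _)]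
  have hA := Linf_term (g := fun s x => tn α R ((u s).1.1 x)) (htn.comp hj)
    (p := p) (by linarith) hT (c := y ^ ((α + 1) * p - (α + 2)))
    (f := fun s x => (min ‖(u s).1.1 x‖ R) ^ α * ‖(u s).1.1 x‖ ^ 2)
    (φ := fun s => PR α R (u s)) (fun s => PR_int hα hR (u s)) ((PR_cont hα hR).comp hu)
    (fun s => rfl) (fun s hs x => by
      rw [hntn]
      exact pow_est hα hR (norm_nonneg _) (hpt s hs x) hp1' hpr)
  -- the linear term
  have hBt := Linf_term (g := fun s x => (u s).1.1 x) hj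
    (p := p2) hp2pos hT (c := y ^ (p2 - 2))
    (f := fun s x => ‖(u s).1.1 x‖ ^ 2)
    (φ := fun s => ‖(u s).1.2‖ ^ 2) (fun s => int_sq (u s))
    ((continuous_snd.comp (continuous_subtype_val.comp hu)).norm.pow 2)
    (fun s => (norm_snd (u s)).symm) (fun s hs x => by
      have h3 : 0 ≤ ‖(u s).1.1 x‖ := norm_nonneg _
      have h4 : (0:ℝ) < p2 - 2 ∨ p2 - 2 = 0 := by
        rcases hN0.eq_or_lt with h | h
        · right
          rw [hp2def, ← h]
          ring
        · left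
          rw [hp2def]
          linarith
      have h5 : ‖(u s).1.1 x‖ ^ p2 = ‖(u s).1.1 x‖ ^ (p2 - 2) * ‖(u s).1.1 x‖ ^ 2 := by
        rw [← Real.rpow_natCast _ 2, ← Real.rpow_add_of_nonneg h3 (by rcases h4 with h | h <;> linarith)
          (by norm_num)]
        congr 1
        push_cast
        ring
      rw [h5]
      refine mul_le_mul_of_nonneg_right ?_ (by positivity)
      exact Real.rpow_le_rpow h3 (hpt s hs x) (by rcases h4 with h | h <;> linarith))
  -- bounds of the two integrals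
  have hA3 : ∫ s in (0:ℝ)..T, ∫ x, ‖tn α R ((u s).1.1 x)‖ ^ p ≤
      y ^ ((α + 1) * p - (α + 2)) * |B| := by
    refine hA.2.2.trans ?_
    exact mul_le_mul_of_nonneg_left (hB.trans (le_abs_self B)) (by positivity)
  have hB3 : ∫ s in (0:ℝ)..T, ∫ x, ‖(u s).1.1 x‖ ^ p2 ≤ y ^ (p2 - 2) * (T * |M0|) := by
    refine hBt.2.2.trans ?_
    refine mul_le_mul_of_nonneg_left ?_ (by positivity)
    have h3 : ∫ s in (0:ℝ)..T, ‖(u s).1.2‖ ^ 2 ≤ ∫ _ in (0:ℝ)..T, |M0| := by
      refine intervalIntegral.integral_mono_on hT.le ?_ ?_ fun s hs => ?_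
      · exact ((continuous_snd.comp
          (continuous_subtype_val.comp hu)).norm.pow 2).intervalIntegrable 0 T
      · exact continuous_const.intervalIntegrable 0 T
      · exact (hM s hs).trans (le_abs_self _)
    refine h3.trans (le_of_eq ?_)
    rw [intervalIntegral.integral_const, sub_zero, smul_eq_mul]
  -- the norm as a supremum
  have hsup : y ≤ κ * |U0| + |γ| * (T * |M0|) + C1 * y ^ (σ * (p / (p - 1))) +
      |B| * y ^ ((α + 1) * p - (α + 2) - σ * p) + |γ| * C2 * y ^ (σ2 * (p2 / (p2 - 1))) := by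
    have hrhs : 0 ≤ κ * |U0| + |γ| * (T * |M0|) + C1 * y ^ (σ * (p / (p - 1))) +
      |B| * y ^ ((α + 1) * p - (α + 2) - σ * p) + |γ| * C2 * y ^ (σ2 * (p2 / (p2 - 1))) := by
      positivity
    suffices hkey : ∀ x, ‖(u ts).1.1.toBCF x‖ ≤ κ * |U0| + |γ| * (T * |M0|) +
        C1 * y ^ (σ * (p / (p - 1))) + |B| * y ^ ((α + 1) * p - (α + 2) - σ * p) +
        |γ| * C2 * y ^ (σ2 * (p2 / (p2 - 1))) by
      have h3 := (BoundedContinuousFunction.norm_le hrhs).2 hkey
      rw [ZeroAtInftyContinuousMap.norm_toBCF_eq_norm] at h3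
      exact h3
    intro x
    show ‖(u ts).1.1 x‖ ≤ _
    have hpw := pointwise hθ hpost he hts' x
    -- split the nonlinearity
    have hsplit : (∫ s in (0:ℝ)..ts, ∫ w, K N (((ts - s : ℝ) : ℂ) * eth θ) (x - w) *
        (post hG (TF_zero α θ γ R) (u s)).1.1 w) =
        eth θ * (∫ s in (0:ℝ)..ts, ∫ w, K N (((ts - s : ℝ) : ℂ) * eth θ) (x - w) *
          tn α R ((u s).1.1 w)) +
        (γ : ℂ) * (∫ s in (0:ℝ)..ts, ∫ w, K N (((ts - s : ℝ) : ℂ) * eth θ) (x - w) *
          (u s).1.1 w) := by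
      have hBtn : ∀ s ∈ Icc 0 T, ∀ w, ‖tn α R ((u s).1.1 w)‖ ≤ R ^ α * y := by
        intro s hs w
        rw [hntn]
        refine mul_le_mul ?_ (hpt s hs w) (norm_nonneg _) (by positivity)
        exact Real.rpow_le_rpow (le_min (norm_nonneg _) hR.le) (min_le_right _ _) hα.le
      have hi1 := K_time hθ (F := fun s w => tn α R ((u s).1.1 w)) (T := T)
        (htn.comp hj).continuousOn hBtn hts' x
      have hi2 := K_time hθ (F := fun s w => (u s).1.1 w) (T := T)
        hj.continuousOn hpt hts' x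
      rw [← intervalIntegral.integral_const_mul, ← intervalIntegral.integral_const_mul,
        ← intervalIntegral.integral_add (hi1.const_mul _) (hi2.const_mul _)]
      refine intervalIntegral.integral_congr_ae ?_
      have hne : ∀ᵐ s : ℝ ∂volume, s ≠ ts := by
        simp [ae_iff, measure_singleton]
      filter_upwards [hne] with s hsne hs
      rw [uIoc_of_le hts0.le] at hs
      have hs0 : 0 < ts - s := by
        have := lt_of_le_of_ne hs.2 hsne
        linarith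
      have hsT : s ∈ Icc 0 T := ⟨hs.1.le, hs.2.trans hts.2⟩
      have hk1 := P2c_int (N := N) hθ hs0 (f := fun w => tn α R ((u s).1.1 w))
        (htn.comp (u s).1.1.continuous) (hBtn s hsT) x
      have hk2 := P2c_int (N := N) hθ hs0 (f := fun w => (u s).1.1 w)
        (u s).1.1.continuous (hpt s hsT) x
      rw [← integral_const_mul, ← integral_const_mul,
        ← integral_add (hk1.const_mul _) (hk2.const_mul _)]
      refine integral_congr_ae (Eventually.of_forall fun w => ?_)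
      show _ * (post hG (TF_zero α θ γ R) (u s)).1.1 w = _
      rw [post_fst]
      unfold TF
      ring
    rw [hpw, hsplit]
    -- first term
    have ht1 : ‖∫ w, K N ((ts : ℂ) * eth θ) (x - w) * (u 0).1.1 w‖ ≤ κ * |U0| := by
      have h3 : Integrable (fun w : E N => ‖K N ((ts : ℂ) * eth θ) (x - w)‖ * |U0|) :=
        ((K_integrable hθ hts0).norm.comp_sub_left x).mul_const _
      refine (norm_integral_le_of_norm_le h3 (Eventually.of_forall fun w => ?_)).trans ?_
      · rw [norm_mul]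
        refine mul_le_mul_of_nonneg_left ?_ (norm_nonneg _)
        refine le_trans ?_ (hU.trans (le_abs_self _))
        rw [← ZeroAtInftyContinuousMap.norm_toBCF_eq_norm (f := (u 0).1.1)]
        exact (u 0).1.1.toBCF.norm_coe_le_norm w
      · rw [integral_mul_const]
        refine mul_le_mul_of_nonneg_right ?_ (abs_nonneg _)
        rw [integral_sub_left_eq_self (fun w : E N => ‖K N ((ts : ℂ) * eth θ) w‖) volume x]
        exact hκT ts hts'
    -- nonlinear term
    have ht2 : ‖∫ s in (0:ℝ)..ts, ∫ w, K N (((ts - s : ℝ) : ℂ) * eth θ) (x - w) *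
          tn α R ((u s).1.1 w)‖ ≤
        C1 * y ^ (σ * (p / (p - 1))) + |B| * y ^ ((α + 1) * p - (α + 2) - σ * p) := by
      have h3 := h1 (fun s w => tn α R ((u s).1.1 w)) (htn.comp hj).continuousOn hA.1 hA.2.1
        ts hts' x (y ^ σ) (by positivity)
      refine h3.trans ?_
      have h4 : (y ^ σ) ^ (p / (p - 1)) = y ^ (σ * (p / (p - 1))) := by
        rw [← Real.rpow_mul hypos.le]
      have h5 : (y ^ σ) ^ (-p) = y ^ (-(σ * p)) := by
        rw [← Real.rpow_mul hypos.le]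
        congr 1
        ring
      rw [h4, h5]
      have h6 : y ^ (-(σ * p)) * ∫ s in (0:ℝ)..T, ∫ w, ‖tn α R ((u s).1.1 w)‖ ^ p ≤
          y ^ (-(σ * p)) * (y ^ ((α + 1) * p - (α + 2)) * |B|) :=
        mul_le_mul_of_nonneg_left hA3 (by positivity)
      have h7 : y ^ (-(σ * p)) * (y ^ ((α + 1) * p - (α + 2)) * |B|) =
          |B| * y ^ ((α + 1) * p - (α + 2) - σ * p) := by
        have h8 : y ^ ((α + 1) * p - (α + 2) - σ * p) =
            y ^ (-(σ * p)) * y ^ ((α + 1) * p - (α + 2)) := by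
          rw [← Real.rpow_add hypos]
          congr 1
          ring
        rw [h8]
        ring
      linarith
    -- linear term
    have ht3 : ‖∫ s in (0:ℝ)..ts, ∫ w, K N (((ts - s : ℝ) : ℂ) * eth θ) (x - w) *
          (u s).1.1 w‖ ≤ C2 * y ^ (σ2 * (p2 / (p2 - 1))) + T * |M0| := by
      have h3 := h2 (fun s w => (u s).1.1 w) hj.continuousOn hBt.1 hBt.2.1
        ts hts' x (y ^ σ2) (by positivity)
      refine h3.trans ?_
      have h4 : (y ^ σ2) ^ (p2 / (p2 - 1)) = y ^ (σ2 * (p2 / (p2 - 1))) := by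
        rw [← Real.rpow_mul hypos.le]
      have h5 : (y ^ σ2) ^ (-p2) = y ^ (-(p2 - 2)) := by
        rw [← Real.rpow_mul hypos.le]
        congr 1
        rw [hσ2def]
        field_simp
      rw [h4, h5]
      have h6 : y ^ (-(p2 - 2)) * ∫ s in (0:ℝ)..T, ∫ w, ‖(u s).1.1 w‖ ^ p2 ≤
          y ^ (-(p2 - 2)) * (y ^ (p2 - 2) * (T * |M0|)) :=
        mul_le_mul_of_nonneg_left hB3 (by positivity)
      have h7 : y ^ (-(p2 - 2)) * (y ^ (p2 - 2) * (T * |M0|)) = T * |M0| := by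
        rw [← mul_assoc, ← Real.rpow_add hypos]
        simp
      linarith
    -- assemble
    have hn1 : ‖eth θ‖ = 1 := eth_norm θ
    have hn2 : ‖(γ : ℂ)‖ = |γ| := by rw [Complex.norm_real, Real.norm_eq_abs]
    refine (norm_add_le _ _).trans ?_
    refine (add_le_add ht1 ((norm_add_le _ _).trans (add_le_add (norm_mul_le _ _)
      (norm_mul_le _ _)))).trans ?_
    rw [hn1, hn2, one_mul]
    have h9 : |γ| * ‖∫ s in (0:ℝ)..ts, ∫ w, K N (((ts - s : ℝ) : ℂ) * eth θ) (x - w) *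
          (u s).1.1 w‖ ≤ |γ| * (C2 * y ^ (σ2 * (p2 / (p2 - 1))) + T * |M0|) :=
      mul_le_mul_of_nonneg_left ht3 (abs_nonneg _)
    nlinarith
  exact hsup

end CGL.Neg
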