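import Pool.Agent.W_317df6_h77.Pic
import Pool.Agent.W_317df6_h77.En
import Pool.Agent.W_317df6_h77.Linf

/-!
# Global existence in the mass-subcritical case
-/

set_option autoImplicit false

namespace CGL.Neg

open MeasureTheory Set Filter CGL
open scoped ZeroAtInfty ComplexConjugate Topology NNReal ENNReal

variable {N : ℕ}

/-- solution of the truncated equation on `[0,T]` (`picard` with `S t = (RZ N).S θ t`). -/
theorem trunc_solution {α θ γ R : ℝ} (hθ : 0 < Real.cos θ) {L : ℝ≥0}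
    (hG : LipschitzWith L (TF α θ γ R)) (z0 : ZS N) {T : ℝ} (hT : 0 ≤ T) :
    ∃ u : ℝ → ZS N, Continuous u ∧ u 0 = z0 ∧ ∀ t ∈ Icc 0 T, u t = (RZ N).S θ t (u 0) +
      ∫ s in (0:ℝ)..t, (RZ N).S θ (t - s) (post hG (TF_zero α θ γ R) (u s)) := by
  obtain ⟨u, hu, he⟩ := picard (Z := ZS N) (S := fun t z => (RZ N).S θ t z)
    (fun z => (RZ N).S_cont hθ z) (κ := ∫ w : E N, ‖K N (eth θ) w‖)
    (integral_nonneg fun _ => norm_nonneg _)
    (fun t z w => by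
      have h2 : (RZ N).S θ t (z - w) = (RZ N).S θ t z - (RZ N).S θ t w :=
        ContinuousLinearMap.map_sub ((RZ N).S θ t) z w
      have h1 := (RZ N).S_norm_le hθ t (z - w)
      rw [h2] at h1
      exact h1)
    (F := post hG (TF_zero α θ γ R)) (L := L) L.coe_nonneg
    (fun z w => post_lip hG (TF_zero α θ γ R) z w) z0 hT
  have h0 : u 0 = z0 := by
    have h1 := he 0 ⟨le_rfl, hT⟩
    rw [intervalIntegral.integral_same, add_zero] at h1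
    rw [h1]
    exact (RZ N).S_zero hθ le_rfl z0
  refine ⟨u, hu, h0, fun t ht => ?_⟩
  rw [h0]
  exact he t ht

/-- solution on `[0,T]`, with the mass bound -/
theorem exists_on (hN : 1 ≤ N) {α : ℝ} (hα : 0 < α) (hα4 : α < 4 / N) : ∃ C : ℝ, 0 < C ∧
    ∀ z0 : ZS N, ∀ θ γ : ℝ, 0 < Real.cos θ → γ < 0 →
      C * Real.cos θ * (‖z0.1.2‖ ^ 2) ^ (qe N α - 1) ≤ -γ → ∀ T : ℝ, 0 < T →
        ∃ u : ℝ → C₀(E N, ℂ), IsMild N α θ γ T z0.1.1 u ∧
          ∀ t ∈ Icc 0 T, Integrable (fun x => ‖u t x‖ ^ 2) ∧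
            ∫ x, ‖u t x‖ ^ 2 ≤ ‖z0.1.2‖ ^ 2 := by
  obtain ⟨C0, hC0, hnash⟩ := nash hN hα hα4
  refine ⟨4 * C0, by positivity, ?_⟩
  intro z0 θ γ hθ hγ hsmall T hT
  obtain ⟨Y, hY⟩ := linf hN hα hα4 hθ γ hT ‖z0.1.1‖ (‖z0.1.2‖ ^ 2)
    (‖z0.1.2‖ ^ 2 / (2 * Real.cos θ))
  have hR : 0 < max Y 1 := lt_of_lt_of_le one_pos (le_max_right _ _)
  obtain ⟨L, hG⟩ := TF_lip hα hR θ γ
  obtain ⟨u, hu, hu0, he⟩ := trunc_solution hθ hG z0 hT.le
  have hen := energy hN hα hα4 hC0 hθ hγ hR (hnash _ hR) hG hu he (by rw [hu0]; exact hsmall)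
  have hP : (∫ s in (0:ℝ)..T, PR α (max Y 1) (u s)) ≤ ‖z0.1.2‖ ^ 2 / (2 * Real.cos θ) := by
    have h1 := (hen T ⟨hT.le, le_rfl⟩).2
    rw [hu0] at h1
    rw [le_div_iff₀ (by positivity)]
    linarith
  have hb := hY (max Y 1) hR L hG u hu he (by rw [hu0])
    (fun t ht => by
      have h1 := (hen t ht).1
      rw [hu0] at h1
      exact h1) hP
  have hpost : Continuous (post hG (TF_zero α θ γ (max Y 1)) : ZS N → ZS N) := by
    have h1 : LipschitzWith L (post hG (TF_zero α θ γ (max Y 1)) : ZS N → ZS N) := by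
      apply LipschitzWith.of_dist_le_mul
      intro z w
      have h2 := post_lip hG (TF_zero α θ γ (max Y 1)) z w
      rw [Submodule.coe_norm, Submodule.coe_norm] at h2
      rw [Subtype.dist_eq, Subtype.dist_eq, dist_eq_norm, dist_eq_norm]
      exact h2
    exact h1.continuous
  have hbx : ∀ s ∈ Icc 0 T, ∀ y : E N, ‖(u s).1.1 y‖ ≤ max Y 1 := by
    intro s hs y
    have h1 : ‖(u s).1.1 y‖ ≤ ‖(u s).1.1‖ := by
      rw [← ZeroAtInftyContinuousMap.norm_toBCF_eq_norm]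
      exact (u s).1.1.toBCF.norm_coe_le_norm y
    exact h1.trans ((hb s hs).trans (le_max_left _ _))
  refine ⟨fun t => (u t).1.1, ⟨?_, ?_, ?_⟩, ?_⟩
  · have h1 : Continuous fun t => (u t).1.1 :=
      continuous_fst.comp (continuous_subtype_val.comp hu)
    exact h1.continuousOn
  · show (u 0).1.1 = z0.1.1
    rw [hu0]
  · intro t ht x
    have h1 := pointwise hθ (hpost.comp hu) he ht x
    show (u t).1.1 x = _
    rw [h1, hu0]
    congr 1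
    apply intervalIntegral.integral_congr
    intro s hs
    rw [uIcc_of_le ht.1.le] at hs
    apply integral_congr_ae
    refine Eventually.of_forall fun y => ?_
    show K N (((t - s : ℝ) : ℂ) * eth θ) (x - y) * (post hG (TF_zero α θ γ (max Y 1)) (u s)).1.1 y =
      K N (((t - s : ℝ) : ℂ) * eth θ) (x - y) * FF α θ γ ((u s).1.1 y)
    rw [post_fst, TF_eq (hbx s ⟨hs.1, hs.2.trans ht.2⟩ y)]
  · intro t ht
    refine ⟨int_sq (u t), ?_⟩
    have h1 := (hen t ht).1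
    rw [hu0, norm_snd (u t)] at h1
    exact h1

/-- **Main theorem.**  Gluing by `IsMild.unique`: `u t = u_{⌊t⌋₊+1} t`. -/
theorem global_solution (hN : 1 ≤ N) {α : ℝ} (hα : 0 < α) (hα4 : α < 4 / N) : ∃ C : ℝ, 0 < C ∧
    ∀ u0 : C₀(E N, ℂ), MemLp u0 2 → ∀ θ γ : ℝ, 0 < Real.cos θ → γ < 0 →
      C * Real.cos θ * (∫ x, ‖u0 x‖ ^ 2) ^ (2 * α / (4 - N * α)) ≤ -γ →
        ∃ u : ℝ → C₀(E N, ℂ), (∀ T : ℝ, 0 < T → IsMild N α θ γ T u0 u) ∧
          ∀ t : ℝ, 0 ≤ t → MemLp (u t) 2 ∧ ∫ x, ‖u t x‖ ^ 2 ≤ ∫ x, ‖u0 x‖ ^ 2 := by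
  obtain ⟨C, hC, h⟩ := exists_on hN hα hα4
  refine ⟨C, hC, fun u0 hu0 θ γ hθ hγ hsmall => ?_⟩
  obtain ⟨z0, hz0⟩ : ∃ z0 : ZS N, z0.1.1 = u0 :=
    ⟨⟨(u0, hu0.toLp u0), hu0.coeFn_toLp⟩, rfl⟩
  have hz2 : ‖z0.1.2‖ ^ 2 = ∫ x, ‖u0 x‖ ^ 2 := by rw [norm_snd, hz0]
  have hq : qe N α - 1 = 2 * α / (4 - N * α) := by
    unfold qe
    ring
  have h1 := h z0 θ γ hθ hγ (by rw [hz2, hq]; exact hsmall)
  rw [hz0, hz2] at h1
  choose! v hv using h1
  obtain ⟨m, hm⟩ : ∃ m : ℝ → ℝ, ∀ t, m t = (⌊t⌋₊ : ℝ) + 1 := ⟨_, fun _ => rfl⟩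
  have hm0 : ∀ t, 0 < m t := fun t => by
    rw [hm]
    positivity
  have hmt : ∀ t, t ≤ m t := fun t => by
    rw [hm]
    exact (Nat.lt_floor_add_one t).le
  have hmm : ∀ s t, s ≤ t → m s ≤ m t := fun s t hst => by
    rw [hm, hm]
    have h2 : ⌊s⌋₊ ≤ ⌊t⌋₊ := Nat.floor_mono hst
    have h3 : (⌊s⌋₊ : ℝ) ≤ (⌊t⌋₊ : ℝ) := by exact_mod_cast h2
    linarith
  have key : ∀ s t, 0 ≤ s → s ≤ t → v (m s) s = v (m t) s := by
    intro s t hs hst
    exact IsMild.unique hα hθ (hv (m s) (hm0 s)).1 ((hv (m t) (hm0 t)).1.mono (hmm s t hst)) s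
      ⟨hs, hmt s⟩
  refine ⟨fun t => v (m t) t, ?_, ?_⟩
  · intro T hT
    have hT1 := (hv (m T) (hm0 T)).1.mono (hmt T)
    have hcongr : ∀ t ∈ Icc 0 T, v (m t) t = v (m T) t := fun t ht => key t T ht.1 ht.2
    refine ⟨?_, ?_, ?_⟩
    · exact hT1.cont.congr hcongr
    · show v (m 0) 0 = u0
      rw [hcongr 0 ⟨le_rfl, hT.le⟩]
      exact hT1.init
    · intro t ht x
      show v (m t) t x = _
      rw [hcongr t ⟨ht.1.le, ht.2⟩, hT1.eq t ht x]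
      congr 1
      apply intervalIntegral.integral_congr
      intro s hs
      rw [uIcc_of_le ht.1.le] at hs
      show (∫ y, K N (((t - s : ℝ) : ℂ) * eth θ) (x - y) * FF α θ γ (v (m T) s y)) =
        ∫ y, K N (((t - s : ℝ) : ℂ) * eth θ) (x - y) * FF α θ γ (v (m s) s y)
      rw [hcongr s ⟨hs.1, hs.2.trans ht.2⟩]
  · intro t ht
    have h2 := (hv (m t) (hm0 t)).2 t ⟨ht, hmt t⟩
    refine ⟨?_, h2.2⟩
    exact (memLp_two_iff_integrable_sq_norm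
      (v (m t) t).continuous.aestronglyMeasurable).2 h2.1

end CGL.Neg
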