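import Mathlib

/-!
# Pointwise part of the Nash type inequality
-/

set_option autoImplicit false

namespace CGL.Neg

open MeasureTheory Set Filter

/-- pointwise inequality: `lam k` is nondecreasing, `|w k| ≤ lam k / 2` -/
theorem nash_pt {α R : ℝ} (hα : 0 < α) (hR : 0 < R) {lam : ℕ → ℝ} (h0 : 0 < lam 0)
    (hm : Monotone lam) {J : ℕ} (hJ : R ≤ lam (J + 1)) {v : ℂ} {w : ℕ → ℂ}
    (hw : ∀ k, ‖w k‖ ≤ lam k / 2) :
    (min ‖v‖ R) ^ α * ‖v‖ ^ 2 ≤ lam 0 ^ α * ‖v‖ ^ 2 +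
      ∑ k ∈ Finset.range (J + 1), lam (k + 1) ^ α * (4 * ‖v - w k‖ ^ 2) := by
  classical
  have hpos : ∀ k, 0 < lam k := fun k => h0.trans_le (hm (Nat.zero_le k))
  have hr0 : 0 ≤ min ‖v‖ R := le_min (norm_nonneg _) hR.le
  have hterm : ∀ k ∈ Finset.range (J + 1), 0 ≤ lam (k + 1) ^ α * (4 * ‖v - w k‖ ^ 2) :=
    fun k _ => mul_nonneg (Real.rpow_nonneg (hpos _).le _) (by positivity)
  have h1 : 0 ≤ lam 0 ^ α * ‖v‖ ^ 2 := mul_nonneg (Real.rpow_nonneg h0.le _) (by positivity)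
  have hex : ∃ m, min ‖v‖ R ≤ lam m := ⟨J + 1, (min_le_right _ _).trans hJ⟩
  obtain ⟨m, hmdef⟩ : ∃ m, m = Nat.find hex := ⟨_, rfl⟩
  have hP : min ‖v‖ R ≤ lam m := hmdef ▸ Nat.find_spec hex
  have hmJ : m ≤ J + 1 := hmdef ▸ Nat.find_min' hex ((min_le_right _ _).trans hJ)
  rcases Nat.eq_zero_or_pos m with h | h
  · rw [h] at hP
    have h2 : (min ‖v‖ R) ^ α * ‖v‖ ^ 2 ≤ lam 0 ^ α * ‖v‖ ^ 2 :=
      mul_le_mul_of_nonneg_right (Real.rpow_le_rpow hr0 hP hα.le) (by positivity)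
    have h3 := Finset.sum_nonneg hterm
    linarith
  · obtain ⟨k, rfl⟩ : ∃ k, m = k + 1 := ⟨m - 1, by omega⟩
    have hk : ¬ (min ‖v‖ R ≤ lam k) := Nat.find_min hex (by omega)
    have hkv : lam k < ‖v‖ := (not_le.mp hk).trans_le (min_le_left _ _)
    have h4 : ‖v‖ ≤ 2 * ‖v - w k‖ := by
      have h5 : ‖v‖ ≤ ‖v - w k‖ + ‖w k‖ := by
        calc ‖v‖ = ‖(v - w k) + w k‖ := by rw [sub_add_cancel]
          _ ≤ _ := norm_add_le _ _
      have h6 := hw k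
      linarith
    have h7 : ‖v‖ ^ 2 ≤ 4 * ‖v - w k‖ ^ 2 := by
      have := pow_le_pow_left₀ (norm_nonneg v) h4 2
      nlinarith
    have h8 : (min ‖v‖ R) ^ α * ‖v‖ ^ 2 ≤ lam (k + 1) ^ α * (4 * ‖v - w k‖ ^ 2) :=
      mul_le_mul (Real.rpow_le_rpow hr0 hP hα.le) h7 (by positivity)
        (Real.rpow_nonneg (hpos _).le _)
    have h9 := Finset.single_le_sum hterm (Finset.mem_range.2 (show k < J + 1 by omega))
    linarith

end CGL.Neg
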