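import Pool.Agent.W_317df6_h77.NonlA

/-!
# The truncated nonlinearity
-/

set_option autoImplicit false

namespace CGL.Neg

open MeasureTheory Set Filter CGL
open scoped ZeroAtInfty ComplexConjugate Topology NNReal ENNReal

variable {N : ℕ}

/-- `‖z.1.2‖² = ∫ |f|²` (`MeasureTheory.L2.inner_def` or `L2.norm_sq_eq...`). -/
theorem norm_snd (z : ZS N) : ‖z.1.2‖ ^ 2 = ∫ x, ‖z.1.1 x‖ ^ 2 := by
  have h1 : (inner ℂ z.1.2 z.1.2 : ℂ) = ((‖z.1.2‖ ^ 2 : ℝ) : ℂ) := by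
    rw [inner_self_eq_norm_sq_to_K]
    push_cast
    rfl
  have h2 : (inner ℂ z.1.2 z.1.2 : ℂ) = ((∫ x, ‖z.1.1 x‖ ^ 2 : ℝ) : ℂ) := by
    rw [L2.inner_def, ← integral_complex_ofReal]
    refine integral_congr_ae ?_
    have h3 : (z.1.2 : E N → ℂ) =ᵐ[volume] (z.1.1 : E N → ℂ) := z.2
    filter_upwards [h3] with x hx
    rw [hx, inner_self_eq_norm_sq_to_K]
    push_cast
    rfl
  exact Complex.ofReal_injective (h1.symm.trans h2)

theorem int_sq (z : ZS N) : Integrable fun x => ‖z.1.1 x‖ ^ 2 := by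
  have h1 : MemLp (z.1.2 : E N → ℂ) 2 volume := Lp.memLp z.1.2
  have h3 : (z.1.2 : E N → ℂ) =ᵐ[volume] (z.1.1 : E N → ℂ) := z.2
  have h2 := (memLp_two_iff_integrable_sq_norm h1.aestronglyMeasurable).1 h1
  refine h2.congr ?_
  filter_upwards [h3] with x hx
  rw [hx]

theorem Nonl_cont {α R : ℝ} (hα : 0 < α) (z : ZS N) :
    Continuous fun x => (min ‖z.1.1 x‖ R) ^ α * ‖z.1.1 x‖ ^ 2 := by
  have h1 : Continuous fun x => ‖z.1.1 x‖ := z.1.1.continuous.norm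
  exact ((h1.min continuous_const).rpow_const fun x => Or.inr hα.le).mul (h1.pow 2)

theorem PR_int {α R : ℝ} (hα : 0 < α) (hR : 0 < R) (z : ZS N) :
    Integrable fun x => (min ‖z.1.1 x‖ R) ^ α * ‖z.1.1 x‖ ^ 2 := by
  refine Integrable.mono' ((int_sq z).const_mul (R ^ α))
    (Nonl_cont hα z).aestronglyMeasurable ?_
  filter_upwards with x
  have h0 : 0 ≤ min ‖z.1.1 x‖ R := le_min (norm_nonneg _) hR.le
  have h1 : 0 ≤ (min ‖z.1.1 x‖ R) ^ α := Real.rpow_nonneg h0 α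
  rw [Real.norm_of_nonneg (by positivity)]
  exact mul_le_mul_of_nonneg_right (Real.rpow_le_rpow h0 (min_le_right _ _) hα.le) (by positivity)

theorem PR_nonneg {α R : ℝ} (hR : 0 < R) (z : ZS N) : 0 ≤ PR α R z := by
  refine integral_nonneg fun x => ?_
  have h0 : 0 ≤ min ‖z.1.1 x‖ R := le_min (norm_nonneg _) hR.le
  exact mul_nonneg (Real.rpow_nonneg h0 α) (by positivity)

theorem Nonl_pt (α θ γ R : ℝ) (w : ℂ) : (inner ℂ w (TF α θ γ R w) : ℂ) =
    eth θ * (((min ‖w‖ R) ^ α * ‖w‖ ^ 2 : ℝ) : ℂ) + (γ : ℂ) * ((‖w‖ ^ 2 : ℝ) : ℂ) := by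
  have h1 : conj w * w = ((‖w‖ ^ 2 : ℝ) : ℂ) := by
    rw [Complex.conj_mul']
    push_cast
    rfl
  have h2 : (inner ℂ w (TF α θ γ R w) : ℂ) = TF α θ γ R w * conj w := rfl
  rw [h2, TF, tn]
  have h3 : (eth θ * ((((min ‖w‖ R) ^ α : ℝ) : ℂ) * w) + (γ : ℂ) * w) * conj w =
      eth θ * ((((min ‖w‖ R) ^ α : ℝ) : ℂ) * (conj w * w)) + (γ : ℂ) * (conj w * w) := by
    ring
  rw [h3, h1]
  push_cast
  ring

/-- `MeasureTheory.L2.inner_def`: `∫ conj f (e^{iθ} m^α f + γ f)`. -/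
theorem inner_TF {α θ γ R : ℝ} (hα : 0 < α) (hR : 0 < R) {L : ℝ≥0}
    (hG : LipschitzWith L (TF α θ γ R)) (z : ZS N) :
    (inner ℂ z.1.2 (post hG (TF_zero α θ γ R) z).1.2).re =
      Real.cos θ * PR α R z + γ * ‖z.1.2‖ ^ 2 := by
  have h2 : (inner ℂ z.1.2 (post hG (TF_zero α θ γ R) z).1.2 : ℂ) =
      eth θ * ((PR α R z : ℝ) : ℂ) + (γ : ℂ) * ((∫ x, ‖z.1.1 x‖ ^ 2 : ℝ) : ℂ) := by
    rw [L2.inner_def, PR, ← integral_complex_ofReal, ← integral_complex_ofReal, ← integral_const_mul,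
      ← integral_const_mul, ← integral_add]
    · refine integral_congr_ae ?_
      have h3 : (z.1.2 : E N → ℂ) =ᵐ[volume] (z.1.1 : E N → ℂ) := z.2
      have h4 : ((post hG (TF_zero α θ γ R) z).1.2 : E N → ℂ) =ᵐ[volume]
        ((post hG (TF_zero α θ γ R) z).1.1 : E N → ℂ) := (post hG (TF_zero α θ γ R) z).2
      filter_upwards [h3, h4] with x hx hx'
      rw [hx, hx', post_fst]
      exact Nonl_pt α θ γ R (z.1.1 x)
    · exact ((PR_int hα hR z).ofReal).const_mul _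
    · exact ((int_sq z).ofReal).const_mul _
  rw [h2, norm_snd, Complex.add_re, Complex.re_mul_ofReal, eth_re, ← Complex.ofReal_mul,
    Complex.ofReal_re]

/-- `PR α R z = Re ⟨z.1.2, (post tn z).1.2⟩` and `post_lip`. -/
theorem PR_cont {α R : ℝ} (hα : 0 < α) (hR : 0 < R) : Continuous (PR α R : ZS N → ℝ) := by
  obtain ⟨L, hL⟩ := TF_lip hα hR 0 0
  have h1 : (PR α R : ZS N → ℝ) = fun z =>
      (inner ℂ z.1.2 (post hL (TF_zero α 0 0 R) z).1.2 : ℂ).re := by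
    funext z
    rw [inner_TF hα hR hL z, Real.cos_zero]
    ring
  have h3 : Continuous fun z : ZS N => z.1.2 := continuous_snd.comp continuous_subtype_val
  have h2 : Continuous fun z : ZS N => (post hL (TF_zero α 0 0 R) z).1.2 :=
    (hL.continuous_compLp (TF_zero α 0 0 R)).comp h3
  rw [h1]
  exact Complex.continuous_re.comp (h3.inner h2)

end CGL.Neg
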