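import Pool.Agent.W_317df6_h77.SgA
import Pool.Agent.W_317df6_h77.KerB

/-!
# The semigroup in a translation invariant Banach space
-/

set_option autoImplicit false

namespace CGL.Neg

open MeasureTheory Set Filter CGL
open scoped ZeroAtInfty ComplexConjugate Topology NNReal ENNReal

variable {N : ℕ} {Z : Type} [NormedAddCommGroup Z] [NormedSpace ℂ Z]

/-- Composition of two translation averages:
`∫ k₁(x) T(x) (∫ k₂(y) T(y) g dy) dx = ∫ (∫ k₁(x-y) k₂(y) dy) T(x) g dx` (Fubini). -/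
theorem Rep.conv [CompleteSpace Z] (R : Rep N Z) {k₁ k₂ : E N → ℂ} (h₁ : Integrable k₁)
    (h₂ : Integrable k₂) (c₁ : Continuous k₁) (c₂ : Continuous k₂) (g : Z) :
    ∫ x : E N, k₁ x • R.T x (∫ y : E N, k₂ y • R.T y g) =
      ∫ x : E N, (∫ y : E N, k₁ (x - y) * k₂ y) • R.T x g := by
  have hk : Integrable fun y : E N => k₂ y • R.T y g := by
    refine Integrable.mono' (h₂.norm.mul_const ‖g‖) (c₂.smul (R.cont g)).aestronglyMeasurable ?_
    filter_upwards with y
    rw [norm_smul, R.norm]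
  have e1 : ∀ x : E N, k₁ x • R.T x (∫ y : E N, k₂ y • R.T y g) =
      ∫ z : E N, (k₁ x * k₂ (z - x)) • R.T z g := by
    intro x
    rw [← (R.T x).integral_comp_comm hk, ← integral_smul,
      ← integral_sub_right_eq_self (fun y : E N => k₁ x • (R.T x) (k₂ y • (R.T y) g)) x]
    refine integral_congr_ae ?_
    filter_upwards with z
    rw [map_smul, R.add, smul_smul, add_sub_cancel]
  have e2 : ∀ z : E N, ∫ x : E N, (k₁ x * k₂ (z - x)) • R.T z g =
      (∫ y : E N, k₁ (z - y) * k₂ y) • R.T z g := by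
    intro z
    rw [integral_smul_const,
      ← integral_sub_left_eq_self (fun y : E N => k₁ (z - y) * k₂ y) volume z]
    simp only [sub_sub_cancel]
  have hI : Integrable (fun p : E N × E N => (k₁ p.2 * k₂ (p.1 - p.2)) • R.T p.1 g)
      (volume.prod volume) := by
    have h3 := h₁.convolution_integrand (ContinuousLinearMap.mul ℂ ℂ) h₂
    refine Integrable.mono' (h3.norm.mul_const ‖g‖) ?_ ?_
    · exact (((c₁.comp continuous_snd).mul
        (c₂.comp (continuous_fst.sub continuous_snd))).smul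
        ((R.cont g).comp continuous_fst)).aestronglyMeasurable
    · filter_upwards with p
      rw [norm_smul, R.norm]
      rfl
  have hI2 : Integrable (Function.uncurry fun x z : E N => (k₁ x * k₂ (z - x)) • R.T z g)
      (volume.prod volume) := hI.swap
  simp_rw [e1]
  rw [integral_integral_swap hI2]
  simp_rw [e2]

/-- semigroup property: `S_apply'`, `conv`, `K_conv1`, `S_zero` -/
theorem Rep.S_add [CompleteSpace Z] (R : Rep N Z) {θ t s : ℝ} (hθ : 0 < Real.cos θ) (ht : 0 ≤ t)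
    (hs : 0 ≤ s) (g : Z) : R.S θ t (R.S θ s g) = R.S θ (t + s) g := by
  rcases ht.eq_or_lt with rfl | ht'
  · rw [R.S_zero hθ le_rfl, zero_add]
  rcases hs.eq_or_lt with rfl | hs'
  · rw [R.S_zero hθ le_rfl, add_zero]
  have c1 : Continuous (K N ((t : ℂ) * eth θ)) := K_cont (zre_pos hθ ht')
  have c2 : Continuous (K N ((s : ℂ) * eth θ)) := K_cont (zre_pos hθ hs')
  rw [R.S_apply' hθ ht', R.S_apply' hθ hs', R.S_apply' hθ (add_pos ht' hs'),
    R.conv (K_integrable hθ ht') (K_integrable hθ hs') c1 c2]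
  simp_rw [K_conv1 hθ ht' hs']

/-- `S_{-θ}(t) S_θ(t) = S_0(2 t cos θ)`: `S_apply'`, `conv`, `K_conv2`, `S_zero` -/
theorem Rep.S_conj [CompleteSpace Z] (R : Rep N Z) {θ t : ℝ} (hθ : 0 < Real.cos θ) (ht : 0 ≤ t)
    (g : Z) : R.S (-θ) t (R.S θ t g) = R.S 0 (2 * t * Real.cos θ) g := by
  have h0 : 0 < Real.cos 0 := by rw [Real.cos_zero]; exact one_pos
  have hn : 0 < Real.cos (-θ) := by rw [Real.cos_neg]; exact hθ
  rcases ht.eq_or_lt with rfl | ht'
  · rw [R.S_zero hn le_rfl, R.S_zero hθ le_rfl, mul_zero, zero_mul, R.S_zero h0 le_rfl]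
  have c1 : Continuous (K N ((t : ℂ) * eth (-θ))) := K_cont (zre_pos hn ht')
  have c2 : Continuous (K N ((t : ℂ) * eth θ)) := K_cont (zre_pos hθ ht')
  have h2 : 0 < 2 * t * Real.cos θ := mul_pos (mul_pos two_pos ht') hθ
  rw [R.S_apply' hn ht', R.S_apply' hθ ht', R.S_apply' h0 h2,
    R.conv (K_integrable hn ht') (K_integrable hθ ht') c1 c2]
  simp_rw [K_conv2 hθ ht']

end CGL.Neg
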