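import Pool.Agent.W_317df6_h77.ZSpA
import Pool.Agent.W_317df6_h77.Sg
import Pool.Agent.W_317df6_h77.Nonl

/-!
# The space `ZS N`
-/

set_option autoImplicit false

namespace CGL.Neg

open MeasureTheory Set Filter CGL
open scoped ZeroAtInfty ComplexConjugate Topology NNReal ENNReal

variable {N : ℕ}

/-- the projection `ZS N → L²` -/
noncomputable def ZSp_snd (N : ℕ) : ZS N →L[ℂ] Lp ℂ 2 (volume : Measure (E N)) :=
  LinearMap.mkContinuous (E := ZS N) (F := Lp ℂ 2 (volume : Measure (E N)))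
    { toFun := fun z => z.1.2
      map_add' := fun _ _ => rfl
      map_smul' := fun _ _ => rfl } 1
    (fun z => by
      rw [one_mul]
      exact norm_snd_le z.1)

theorem ZSp_snd_apply (z : ZS N) : ZSp_snd N z = z.1.2 := rfl

/-- evaluation of the first component -/
noncomputable def ZSp_ev (x : E N) : ZS N →L[ℂ] ℂ :=
  LinearMap.mkContinuous (E := ZS N) (F := ℂ)
    { toFun := fun z => z.1.1 x
      map_add' := fun _ _ => rfl
      map_smul' := fun _ _ => rfl } 1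
    (fun z => by
      rw [one_mul]
      have h1 : ‖z.1.1 x‖ ≤ ‖z.1.1‖ := by
        rw [← ZeroAtInftyContinuousMap.norm_toBCF_eq_norm (f := z.1.1)]
        exact z.1.1.toBCF.norm_coe_le_norm x
      exact h1.trans (norm_fst_le z.1))

theorem ZSp_ev_apply (x : E N) (z : ZS N) : ZSp_ev x z = z.1.1 x := rfl

section gen
variable {Z W : Type} [NormedAddCommGroup Z] [NormedSpace ℂ Z] [CompleteSpace Z]
  [NormedAddCommGroup W] [NormedSpace ℂ W] [CompleteSpace W]

theorem ZSp_map (R : Rep N Z) (φ : Z →L[ℂ] W) {θ : ℝ} (hθ : 0 < Real.cos θ) (t : ℝ) (g : Z) :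
    φ (R.S θ t g) = ∫ w : E N, K N (eth θ) w • φ (R.T (Real.sqrt t • w) g) := by
  rw [Rep.S_apply _ hθ, ← ContinuousLinearMap.integral_comp_comm _ (R.integrable hθ _ g)]
  refine integral_congr_ae (ae_of_all _ fun w => ?_)
  exact map_smul φ _ _

theorem ZSp_map' (R : Rep N Z) (φ : Z →L[ℂ] W) {θ t : ℝ} (hθ : 0 < Real.cos θ) (ht : 0 < t)
    (g : Z) : φ (R.S θ t g) = ∫ y : E N, K N ((t : ℂ) * eth θ) y • φ (R.T y g) := by
  have hi : Integrable fun y : E N => K N ((t : ℂ) * eth θ) y • R.T y g := by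
    refine Integrable.mono' ((K_integrable (N := N) hθ ht).norm.mul_const ‖g‖) ?_ ?_
    · exact ((K_cont (zre_pos hθ ht)).smul (R.cont g)).aestronglyMeasurable
    · filter_upwards with w
      rw [norm_smul, R.norm]
  rw [Rep.S_apply' _ hθ ht, ← ContinuousLinearMap.integral_comp_comm _ hi]
  refine integral_congr_ae (ae_of_all _ fun w => ?_)
  exact map_smul φ _ _

end gen

/-- the projection `ZS N → L²` commutes with the semigroups
(`ContinuousLinearMap.integral_comp_comm`) -/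
theorem RZ_snd {θ : ℝ} (hθ : 0 < Real.cos θ) (t : ℝ) (z : ZS N) :
    ((RZ N).S θ t z).1.2 = (RL N).S θ t z.1.2 := by
  rw [← ZSp_snd_apply, Rep.S_apply (RL N) hθ]
  refine (ZSp_map (RZ N) (ZSp_snd N) hθ t z).trans ?_
  refine integral_congr_ae (ae_of_all _ fun w => ?_)
  simp only [RL_T, RZ_T]
  rfl

/-- pointwise formula (evaluation at `x` of the first component; `y ↦ x - y`) -/
theorem RZ_fst {θ t : ℝ} (hθ : 0 < Real.cos θ) (ht : 0 < t) (z : ZS N) (x : E N) :
    ((RZ N).S θ t z).1.1 x = ∫ y : E N, K N ((t : ℂ) * eth θ) (x - y) * z.1.1 y := by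
  rw [← ZSp_ev_apply,
    ← integral_sub_left_eq_self (fun y => K N ((t : ℂ) * eth θ) (x - y) * z.1.1 y) volume x]
  refine (ZSp_map' (RZ N) (ZSp_ev x) hθ ht z).trans ?_
  refine integral_congr_ae (ae_of_all _ fun w => ?_)
  simp only [RZ_T, ZSp_ev_apply, TZ_fst, TC_apply, sub_sub_cancel, smul_eq_mul]

/-- `L² → L^∞` bound of the heat semigroup: Cauchy-Schwarz and `K_pow` with `p = 2`. -/
theorem heat_sup (N : ℕ) : ∃ A : ℝ, 0 < A ∧ ∀ s : ℝ, 0 < s → ∀ (z : ZS N) (x : E N),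
    ‖((RZ N).S 0 s z).1.1 x‖ ≤ A * s ^ (-((N : ℝ) / 4)) * ‖z.1.2‖ := by
  have h0 : (0 : ℝ) < Real.cos 0 := by rw [Real.cos_zero]; exact one_pos
  obtain ⟨C, hC, h⟩ := K_pow (N := N) h0 (two_pos : (0 : ℝ) < 2)
  refine ⟨Real.sqrt C, Real.sqrt_pos.2 hC, fun s hs z x => ?_⟩
  obtain ⟨hi, he⟩ := h s hs
  have hKc : Continuous fun y : E N => K N ((s : ℂ) * eth 0) (x - y) :=
    (K_cont (zre_pos h0 hs)).comp (continuous_const.sub continuous_id)
  have hi2 : Integrable fun y : E N => ‖K N ((s : ℂ) * eth 0) (x - y)‖ ^ (2 : ℝ) :=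
    hi.comp_sub_left x
  have he2 : ∫ y : E N, ‖K N ((s : ℂ) * eth 0) (x - y)‖ ^ (2 : ℝ) =
      C * s ^ (-((N : ℝ) * (2 - 1) / 2)) := by
    rw [integral_sub_left_eq_self (fun y => ‖K N ((s : ℂ) * eth 0) y‖ ^ (2 : ℝ)) volume x]
    exact he
  have hf : MemLp (fun y : E N => ‖K N ((s : ℂ) * eth 0) (x - y)‖) (ENNReal.ofReal 2) := by
    rw [ENNReal.ofReal_ofNat]
    refine (memLp_two_iff_integrable_sq hKc.norm.aestronglyMeasurable).2 ?_
    simpa only [Real.rpow_two] using hi2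
  have hg : MemLp (fun y : E N => ‖z.1.1 y‖) (ENNReal.ofReal 2) := by
    rw [ENNReal.ofReal_ofNat]
    exact (memLp_two_iff_integrable_sq z.1.1.continuous.norm.aestronglyMeasurable).2 (int_sq z)
  have hcs := integral_mul_le_Lp_mul_Lq_of_nonneg (μ := (volume : Measure (E N)))
    (Real.HolderConjugate.two_two) (ae_of_all _ fun y => norm_nonneg (K N ((s : ℂ) * eth 0) (x - y)))
    (ae_of_all _ fun y => norm_nonneg (z.1.1 y)) hf hg
  rw [he2] at hcs
  simp only [Real.rpow_two] at hcs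
  rw [← norm_snd z] at hcs
  have e1 : (‖z.1.2‖ ^ 2) ^ ((1 : ℝ) / 2) = ‖z.1.2‖ := by
    rw [← Real.sqrt_eq_rpow, Real.sqrt_sq (norm_nonneg _)]
  have e2 : (C * s ^ (-((N : ℝ) * (2 - 1) / 2))) ^ ((1 : ℝ) / 2) =
      Real.sqrt C * s ^ (-((N : ℝ) / 4)) := by
    rw [Real.mul_rpow hC.le (Real.rpow_nonneg hs.le _), ← Real.rpow_mul hs.le,
      ← Real.sqrt_eq_rpow]
    congr 2
    ring
  rw [e1, e2] at hcs
  rw [RZ_fst h0 hs]
  refine (norm_integral_le_integral_norm _).trans (le_trans (le_of_eq ?_) hcs)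
  simp only [norm_mul]

end CGL.Neg
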