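import Pool.Agent.W_317df6_h77.NashA
import Pool.Agent.W_317df6_h77.ZSp
import Pool.Agent.W_317df6_h77.Hil

/-!
# A Nash type inequality

For `v ∈ ZS N`, `M = ‖v‖₂²`, levels `λ_k = 2^{kN/4} λ_0` and times `s_k = 2^{-k} s_0` with
`λ_0 = 2 A s_0^{-N/4} M^{1/2}` (`A` from `heat_sup`), `|S_0(s_k) v| ≤ λ_k/2`, so on `{|v| > λ_k}`
one has `|v| ≤ 2 |v - S_0(s_k) v|`.  With `J` such that `R ≤ λ_{J+1}`
`min(|v|,R)^α |v|² ≤ λ_0^α |v|² + ∑_{k ≤ J} λ_{k+1}^α 4 |v - S_0(s_k) v|²` (`nash_pt`), and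
`‖v - S_0(s_k) v‖² ≤ M - ‖S_0(s_k) v‖² ≤ (s_k/s_J) (M - ‖S_0(s_J) v‖²)` (`Rep.sub_sq`, `Rep.dyadic`),
so `PR ≤ λ_0^α M + 4·2^{Nα/4} λ_0^α s_0 ∑_k 2^{-k(1-Nα/4)} Δ`, `Δ = (M - ‖S_0(s_J) v‖²)/s_J`.
Choose `s_0` with `4·2^{Nα/4} λ_0^α s_0/(1-2^{-(1-Nα/4)}) = 1/4`; then `λ_0^α M = C M^{qe}`.
-/

set_option autoImplicit false

namespace CGL.Neg

open MeasureTheory Set Filter CGL
open scoped ZeroAtInfty ComplexConjugate Topology NNReal ENNReal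

variable {N : ℕ}

private theorem NashB_fst (v w : ZS N) (x : E N) : (v - w).1.1 x = v.1.1 x - w.1.1 x := rfl

private theorem NashB_snd (v w : ZS N) : (v - w).1.2 = v.1.2 - w.1.2 := rfl

/-- integrated version: `PR ≤ lam_0^α M + ∑ lam_{k+1}^α 4 (M - ‖S_0(s_k) v‖²)` -/
theorem nash_sum {α R : ℝ} (hα : 0 < α) (hR : 0 < R) (v : ZS N) {lam s : ℕ → ℝ} (h0 : 0 < lam 0)
    (hm : Monotone lam) (hs : ∀ k, 0 < s k) {J : ℕ} (hJ : R ≤ lam (J + 1))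
    (hw : ∀ k x, ‖((RZ N).S 0 (s k) v).1.1 x‖ ≤ lam k / 2) :
    PR α R v ≤ lam 0 ^ α * ‖v.1.2‖ ^ 2 +
      ∑ k ∈ Finset.range (J + 1),
        lam (k + 1) ^ α * (4 * (‖v.1.2‖ ^ 2 - ‖((RZ N).S 0 (s k) v).1.2‖ ^ 2)) := by
  have hcos : 0 < Real.cos 0 := by rw [Real.cos_zero]; exact one_pos
  have hpos : ∀ k, 0 < lam k := fun k => h0.trans_le (hm (Nat.zero_le k))
  have hsub : ∀ k x, ‖v.1.1 x - ((RZ N).S 0 (s k) v).1.1 x‖ ^ 2 =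
      ‖(v - (RZ N).S 0 (s k) v).1.1 x‖ ^ 2 := fun k x => by rw [NashB_fst]
  have hI1 : Integrable fun x => lam 0 ^ α * ‖v.1.1 x‖ ^ 2 := (int_sq v).const_mul _
  have hI2 : ∀ k, Integrable fun x =>
      lam (k + 1) ^ α * (4 * ‖v.1.1 x - ((RZ N).S 0 (s k) v).1.1 x‖ ^ 2) := by
    intro k
    simp only [hsub]
    exact ((int_sq (v - (RZ N).S 0 (s k) v)).const_mul 4).const_mul _
  have hI3 : Integrable fun x => ∑ k ∈ Finset.range (J + 1),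
      lam (k + 1) ^ α * (4 * ‖v.1.1 x - ((RZ N).S 0 (s k) v).1.1 x‖ ^ 2) :=
    integrable_finsetSum _ fun k _ => hI2 k
  have h1 : PR α R v ≤ ∫ x, (lam 0 ^ α * ‖v.1.1 x‖ ^ 2 + ∑ k ∈ Finset.range (J + 1),
      lam (k + 1) ^ α * (4 * ‖v.1.1 x - ((RZ N).S 0 (s k) v).1.1 x‖ ^ 2)) := by
    refine integral_mono (PR_int hα hR v) (hI1.add hI3) fun x => ?_
    exact nash_pt hα hR h0 hm hJ fun k => hw k x
  rw [integral_add hI1 hI3, integral_finsetSum _ fun k _ => hI2 k, integral_const_mul,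
    ← norm_snd] at h1
  refine h1.trans (add_le_add le_rfl (Finset.sum_le_sum fun k _ => ?_))
  rw [integral_const_mul, integral_const_mul]
  refine mul_le_mul_of_nonneg_left ?_ (Real.rpow_nonneg (hpos _).le _)
  refine mul_le_mul_of_nonneg_left ?_ (by norm_num)
  simp only [hsub]
  rw [← norm_snd]
  have e : (v - (RZ N).S 0 (s k) v).1.2 = v.1.2 - (RL N).S 0 (s k) v.1.2 := by
    rw [← RZ_snd hcos, NashB_snd]
  rw [e, RZ_snd hcos]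
  exact (RL N).sub_sq (hs k).le v.1.2

end CGL.Neg
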