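import Pool.Agent.W_317df6_h77.Defs

/-!
# The truncated nonlinearity
-/

set_option autoImplicit false

namespace CGL.Neg

open MeasureTheory Set Filter CGL
open scoped ZeroAtInfty ComplexConjugate Topology NNReal ENNReal

variable {N : ℕ}

theorem tn_zero (α R : ℝ) : tn α R 0 = 0 := by simp [tn]

theorem TF_zero (α θ γ R : ℝ) : TF α θ γ R 0 = 0 := by simp [TF, tn]

theorem NonlA_real {α A b : ℝ} (hα : 0 < α) (hb : 0 ≤ b) (hbA : b ≤ A) :
    (A ^ α - b ^ α) * b ≤ α * A ^ α * (A - b) := by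
  have hA : 0 ≤ A := hb.trans hbA
  rcases hb.eq_or_lt with rfl | hb
  · rw [mul_zero]
    have := Real.rpow_nonneg hA α
    have := sub_nonneg.2 hbA
    positivity
  · have hA' : 0 < A := hb.trans_le hbA
    have h1 : A ^ α * (1 + (Real.log b - Real.log A) * α) ≤ b ^ α := by
      rw [Real.rpow_def_of_pos hA', Real.rpow_def_of_pos hb]
      have h2 : Real.log b * α = Real.log A * α + (Real.log b - Real.log A) * α := by ring
      rw [h2, Real.exp_add]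
      apply mul_le_mul_of_nonneg_left _ (Real.exp_nonneg _)
      have := Real.add_one_le_exp ((Real.log b - Real.log A) * α)
      linarith
    have h3 : (Real.log A - Real.log b) * b ≤ A - b := by
      have h4 := Real.log_le_sub_one_of_pos (div_pos hA' hb)
      rw [Real.log_div hA'.ne' hb.ne'] at h4
      calc (Real.log A - Real.log b) * b ≤ (A / b - 1) * b := mul_le_mul_of_nonneg_right h4 hb.le
        _ = A - b := by field_simp
    have h5 : 0 ≤ A ^ α := Real.rpow_nonneg hA α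
    calc (A ^ α - b ^ α) * b ≤ (A ^ α * ((Real.log A - Real.log b) * α)) * b := by
          apply mul_le_mul_of_nonneg_right _ hb.le
          linarith
      _ = α * A ^ α * ((Real.log A - Real.log b) * b) := by ring
      _ ≤ α * A ^ α * (A - b) := mul_le_mul_of_nonneg_left h3 (mul_nonneg hα.le h5)

theorem NonlA_real2 {α R a b : ℝ} (hα : 0 < α) (hR : 0 < R) (hb : 0 ≤ b) (hba : b ≤ a) :
    |(min a R) ^ α - (min b R) ^ α| * b ≤ α * R ^ α * (a - b) := by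
  have ha : 0 ≤ a := hb.trans hba
  have h0 : 0 ≤ R ^ α := Real.rpow_nonneg hR.le α
  rcases le_total R b with h | h
  · rw [min_eq_right h, min_eq_right (h.trans hba), sub_self, abs_zero, zero_mul]
    have := sub_nonneg.2 hba
    positivity
  · rw [min_eq_left h]
    have h1 : b ≤ min a R := le_min hba h
    have h2 : b ^ α ≤ (min a R) ^ α := Real.rpow_le_rpow hb h1 hα.le
    rw [abs_of_nonneg (sub_nonneg.2 h2)]
    refine (NonlA_real hα hb h1).trans ?_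
    have h3 : (min a R) ^ α ≤ R ^ α :=
      Real.rpow_le_rpow (hb.trans h1) (min_le_right _ _) hα.le
    have h4 : min a R - b ≤ a - b := by
      have := min_le_left a R
      linarith
    exact mul_le_mul (mul_le_mul_of_nonneg_left h3 hα.le) h4 (sub_nonneg.2 h1)
      (mul_nonneg hα.le h0)

theorem NonlA_le {α R : ℝ} (hα : 0 < α) (hR : 0 < R) {z w : ℂ} (h : ‖w‖ ≤ ‖z‖) :
    ‖tn α R z - tn α R w‖ ≤ (1 + α) * R ^ α * ‖z - w‖ := by
  have e1 : tn α R z - tn α R w = (((min ‖z‖ R) ^ α : ℝ) : ℂ) * (z - w) +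
      (((min ‖z‖ R) ^ α - (min ‖w‖ R) ^ α : ℝ) : ℂ) * w := by
    unfold tn
    push_cast
    ring
  have h0 : 0 ≤ min ‖z‖ R := le_min (norm_nonneg z) hR.le
  have h1 : (min ‖z‖ R) ^ α ≤ R ^ α := Real.rpow_le_rpow h0 (min_le_right _ _) hα.le
  have h2 : 0 ≤ (min ‖z‖ R) ^ α := Real.rpow_nonneg h0 α
  have h3 := NonlA_real2 hα hR (norm_nonneg w) h
  have h4 : ‖z‖ - ‖w‖ ≤ ‖z - w‖ := norm_sub_norm_le z w
  have h5 : 0 ≤ R ^ α := Real.rpow_nonneg hR.le α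
  rw [e1]
  calc ‖(((min ‖z‖ R) ^ α : ℝ) : ℂ) * (z - w) +
      (((min ‖z‖ R) ^ α - (min ‖w‖ R) ^ α : ℝ) : ℂ) * w‖
      ≤ ‖(((min ‖z‖ R) ^ α : ℝ) : ℂ) * (z - w)‖ +
        ‖(((min ‖z‖ R) ^ α - (min ‖w‖ R) ^ α : ℝ) : ℂ) * w‖ := norm_add_le _ _
    _ = (min ‖z‖ R) ^ α * ‖z - w‖ + |(min ‖z‖ R) ^ α - (min ‖w‖ R) ^ α| * ‖w‖ := by
        rw [norm_mul, norm_mul, Complex.norm_real, Complex.norm_real, Real.norm_eq_abs,
          Real.norm_eq_abs, abs_of_nonneg h2]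
    _ ≤ R ^ α * ‖z - w‖ + α * R ^ α * (‖z‖ - ‖w‖) :=
        add_le_add (mul_le_mul_of_nonneg_right h1 (norm_nonneg _)) h3
    _ ≤ R ^ α * ‖z - w‖ + α * R ^ α * ‖z - w‖ := by
        have := mul_le_mul_of_nonneg_left h4 (mul_nonneg hα.le h5)
        linarith
    _ = (1 + α) * R ^ α * ‖z - w‖ := by ring

theorem NonlA_tn {α R : ℝ} (hα : 0 < α) (hR : 0 < R) (z w : ℂ) :
    ‖tn α R z - tn α R w‖ ≤ (1 + α) * R ^ α * ‖z - w‖ := by
  rcases le_total ‖w‖ ‖z‖ with h | h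
  · exact NonlA_le hα hR h
  · rw [norm_sub_rev, norm_sub_rev z w]
    exact NonlA_le hα hR h

theorem NonlA_lip {G : ℂ → ℂ} {C : ℝ} (hC : 0 ≤ C) (h : ∀ z w, ‖G z - G w‖ ≤ C * ‖z - w‖) :
    ∃ L : ℝ≥0, LipschitzWith L G := by
  refine ⟨C.toNNReal, LipschitzWith.of_dist_le_mul fun z w => ?_⟩
  rw [dist_eq_norm, dist_eq_norm, Real.coe_toNNReal C hC]
  exact h z w

/-- For `‖w‖ ≤ ‖z‖ ≤ R` use `CGL.P2a_nl` (`tn = nl` there); for `‖z‖ > R` project radially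
(`a ↦ min(a,R)^α a` has slope `≤ (1+α) R^α`). -/
theorem tn_lip {α R : ℝ} (hα : 0 < α) (hR : 0 < R) : ∃ L : ℝ≥0, LipschitzWith L (tn α R) := by
  apply NonlA_lip (C := (1 + α) * R ^ α) _ (NonlA_tn hα hR)
  have := Real.rpow_nonneg hR.le α
  positivity

theorem TF_lip {α R : ℝ} (hα : 0 < α) (hR : 0 < R) (θ γ : ℝ) :
    ∃ L : ℝ≥0, LipschitzWith L (TF α θ γ R) := by
  have h5 : 0 ≤ R ^ α := Real.rpow_nonneg hR.le α
  apply NonlA_lip (C := (1 + α) * R ^ α + |γ|) (by positivity)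
  intro z w
  have e : TF α θ γ R z - TF α θ γ R w =
      eth θ * (tn α R z - tn α R w) + (γ : ℂ) * (z - w) := by
    unfold TF
    ring
  rw [e]
  calc ‖eth θ * (tn α R z - tn α R w) + (γ : ℂ) * (z - w)‖
      ≤ ‖eth θ * (tn α R z - tn α R w)‖ + ‖(γ : ℂ) * (z - w)‖ := norm_add_le _ _
    _ = ‖tn α R z - tn α R w‖ + |γ| * ‖z - w‖ := by
        rw [norm_mul, norm_mul, eth_norm, one_mul, Complex.norm_real, Real.norm_eq_abs]
    _ ≤ (1 + α) * R ^ α * ‖z - w‖ + |γ| * ‖z - w‖ := by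
        have := NonlA_tn hα hR z w
        linarith
    _ = ((1 + α) * R ^ α + |γ|) * ‖z - w‖ := by ring

theorem TF_eq {α θ γ R : ℝ} {z : ℂ} (hz : ‖z‖ ≤ R) : TF α θ γ R z = FF α θ γ z := by
  unfold TF FF tn nl
  rw [min_eq_left hz]

/-- `LipschitzWith.norm_compLp_sub_le` -/
theorem post_lip {L : ℝ≥0} {G : ℂ → ℂ} (hG : LipschitzWith L G) (h0 : G 0 = 0) (z w : ZS N) :
    ‖post hG h0 z - post hG h0 w‖ ≤ L * ‖z - w‖ := by
  have h1 : ‖(post hG h0 z).1.1 - (post hG h0 w).1.1‖ ≤ L * ‖z.1.1 - w.1.1‖ := by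
    rw [← ZeroAtInftyContinuousMap.norm_toBCF_eq_norm,
      BoundedContinuousFunction.norm_le (by positivity)]
    intro x
    have h2 : ‖G (z.1.1 x) - G (w.1.1 x)‖ ≤ L * ‖z.1.1 x - w.1.1 x‖ := by
      have h3 := hG.dist_le_mul (z.1.1 x) (w.1.1 x)
      rwa [dist_eq_norm, dist_eq_norm] at h3
    have h4 : ‖z.1.1 x - w.1.1 x‖ ≤ ‖z.1.1 - w.1.1‖ := by
      rw [← ZeroAtInftyContinuousMap.norm_toBCF_eq_norm (f := z.1.1 - w.1.1)]
      exact (z.1.1 - w.1.1).toBCF.norm_coe_le_norm x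
    exact h2.trans (mul_le_mul_of_nonneg_left h4 L.coe_nonneg)
  have h2 : ‖(post hG h0 z).1.2 - (post hG h0 w).1.2‖ ≤ L * ‖z.1.2 - w.1.2‖ :=
    hG.norm_compLp_sub_le h0 z.1.2 w.1.2
  have h3 : ‖z.1.1 - w.1.1‖ ≤ ‖z - w‖ := norm_fst_le (z.1 - w.1)
  have h4 : ‖z.1.2 - w.1.2‖ ≤ ‖z - w‖ := norm_snd_le (z.1 - w.1)
  exact max_le (h1.trans (mul_le_mul_of_nonneg_left h3 L.coe_nonneg))
    (h2.trans (mul_le_mul_of_nonneg_left h4 L.coe_nonneg))

end CGL.Neg
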