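import Pool.Agent.W_317df6_h77.ZSp

/-!
# Pointwise form of the Duhamel formula
-/

set_option autoImplicit false

namespace CGL.Neg

open MeasureTheory Set Filter CGL
open scoped ZeroAtInfty ComplexConjugate Topology NNReal ENNReal

variable {N : ℕ}

theorem PW_norm (f : C₀(E N, ℂ)) (x : E N) : ‖f x‖ ≤ ‖f‖ := by
  rw [← ZeroAtInftyContinuousMap.norm_toBCF_eq_norm (f := f)]
  exact f.toBCF.norm_coe_le_norm x

/-- evaluation at `x` -/
noncomputable def PW_ev (x : E N) : ZS N →L[ℂ] ℂ :=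
  LinearMap.mkContinuous (E := ZS N) (F := ℂ)
    { toFun := fun z => z.1.1 x
      map_add' := fun _ _ => rfl
      map_smul' := fun _ _ => rfl } 1
    (fun z => by
      rw [one_mul]
      exact (PW_norm z.1.1 x).trans (le_max_left _ _))

theorem PW_ev_apply (x : E N) (z : ZS N) : PW_ev x z = z.1.1 x := rfl

theorem PW_cont {Z : Type} [NormedAddCommGroup Z] [NormedSpace ℂ Z] (R : Rep N Z) {θ : ℝ}
    (hθ : 0 < Real.cos θ) {F : ℝ → Z} (hF : Continuous F) (t : ℝ) :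
    Continuous fun s => R.S θ (t - s) (F s) := by
  rw [continuous_iff_continuousAt]
  intro s₀
  have h1 : Tendsto (fun s => R.S θ (t - s) (F s₀)) (𝓝 s₀) (𝓝 (R.S θ (t - s₀) (F s₀))) :=
    ((R.S_cont hθ (F s₀)).comp (continuous_const.sub continuous_id)).tendsto s₀
  have h2 : Tendsto (fun s => R.S θ (t - s) (F s - F s₀)) (𝓝 s₀) (𝓝 0) := by
    refine squeeze_zero_norm (fun s => R.S_norm_le hθ (t - s) (F s - F s₀)) ?_
    have h3 : Tendsto (fun s => ‖F s - F s₀‖) (𝓝 s₀) (𝓝 ‖F s₀ - F s₀‖) :=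
      ((hF.sub continuous_const).norm).tendsto s₀
    have h4 := h3.const_mul (∫ w : E N, ‖K N (eth θ) w‖)
    rw [sub_self, norm_zero, mul_zero] at h4
    exact h4
  have h3 := h1.add h2
  rw [add_zero] at h3
  refine h3.congr fun s => ?_
  rw [map_sub]
  abel

theorem PW_int {Z : Type} [NormedAddCommGroup Z] [NormedSpace ℂ Z] [CompleteSpace Z] (R : Rep N Z)
    {θ : ℝ} (hθ : 0 < Real.cos θ) {F : ℝ → Z} (hF : Continuous F) (t : ℝ) (L : Z →L[ℂ] ℂ) :
    (∫ s in (0:ℝ)..t, L (R.S θ (t - s) (F s))) = L (∫ s in (0:ℝ)..t, R.S θ (t - s) (F s)) :=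
  L.intervalIntegral_comp_comm ((PW_cont R hθ hF t).intervalIntegrable 0 t)

/-- evaluate the first component at `x` (evaluation is a continuous linear functional on `C_0`),
`RZ_fst` for `s < t`. -/
theorem pointwise {θ : ℝ} (hθ : 0 < Real.cos θ) {T : ℝ} {u F : ℝ → ZS N} (hF : Continuous F)
    (he : ∀ t ∈ Icc 0 T, u t = (RZ N).S θ t (u 0) + ∫ s in (0:ℝ)..t, (RZ N).S θ (t - s) (F s))
    {t : ℝ} (ht : t ∈ Ioc 0 T) (x : E N) :
    (u t).1.1 x = (∫ y, K N ((t : ℂ) * eth θ) (x - y) * (u 0).1.1 y) +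
      ∫ s in (0:ℝ)..t, ∫ y, K N (((t - s : ℝ) : ℂ) * eth θ) (x - y) * (F s).1.1 y := by
  have h0 : PW_ev x ((RZ N).S θ t (u 0)) = ∫ y, K N ((t : ℂ) * eth θ) (x - y) * (u 0).1.1 y :=
    RZ_fst hθ ht.1 (u 0) x
  have h2 : (∫ s in (0:ℝ)..t, PW_ev x ((RZ N).S θ (t - s) (F s))) =
      PW_ev x (∫ s in (0:ℝ)..t, (RZ N).S θ (t - s) (F s)) :=
    PW_int (RZ N) hθ hF t (PW_ev x)
  have h1 : (u t).1.1 x = PW_ev x ((RZ N).S θ t (u 0)) +
      PW_ev x (∫ s in (0:ℝ)..t, (RZ N).S θ (t - s) (F s)) := by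
    rw [← map_add, ← he t ⟨ht.1.le, ht.2⟩]
    rfl
  rw [h1, h0, ← h2]
  congr 1
  refine intervalIntegral.integral_congr_ae ?_
  have h3 : ∀ᵐ s : ℝ ∂volume, s ≠ t := by
    rw [ae_iff]
    simp
  filter_upwards [h3] with s hs hs2
  rw [uIoc_of_le ht.1.le] at hs2
  exact RZ_fst hθ (sub_pos.2 (lt_of_le_of_ne hs2.2 hs)) (F s) x

/-- joint continuity -/
theorem joint {u : ℝ → ZS N} (hu : Continuous u) :
    Continuous fun p : ℝ × E N => (u p.1).1.1 p.2 := by
  have h1 : Continuous fun p : ℝ × E N => ((u p.1).1.1.toBCF, p.2) := by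
    refine Continuous.prodMk ?_ continuous_snd
    have h2 : Continuous fun f : C₀(E N, ℂ) => f.toBCF :=
      (ZeroAtInftyContinuousMap.isometry_toBCF (α := E N) (β := ℂ)).continuous
    exact h2.comp (continuous_fst.comp (continuous_subtype_val.comp (hu.comp continuous_fst)))
  exact (continuous_eval (F := BoundedContinuousFunction (E N) ℂ) (X := E N) (Y := ℂ)).comp h1

end CGL.Neg
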