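import Mathlib

/-!
# Abstract mild solutions for a globally Lipschitz nonlinearity
-/

set_option autoImplicit false

namespace CGL.Neg

open MeasureTheory Set Filter
open scoped Topology

variable {Z : Type} [NormedAddCommGroup Z] [NormedSpace ℝ Z] [CompleteSpace Z]

omit [NormedSpace ℝ Z] [CompleteSpace Z] in
theorem Pic_joint {S : ℝ → Z → Z} (hS : ∀ z, Continuous fun t => S t z) {κ : ℝ} (hκ0 : 0 ≤ κ)
    (hκ : ∀ t z w, ‖S t z - S t w‖ ≤ κ * ‖z - w‖) : Continuous fun p : Z × ℝ => S p.2 p.1 := by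
  apply continuous_prod_of_continuous_lipschitzWith (fun p : Z × ℝ => S p.2 p.1) κ.toNNReal
  · intro z
    exact hS z
  · intro t
    apply LipschitzWith.of_dist_le_mul
    intro z w
    rw [dist_eq_norm, dist_eq_norm, Real.coe_toNNReal κ hκ0]
    exact hκ t z w

/-- the Picard map. -/
noncomputable def Pic_phi (S : ℝ → Z → Z) (F : Z → Z) (z0 : Z) (z : ℝ → Z) (t : ℝ) : Z :=
  S t z0 + ∫ s in (0:ℝ)..t, S (t - s) (F (z s))

omit [NormedSpace ℝ Z] [CompleteSpace Z] in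
theorem Pic_Fcont {F : Z → Z} {L : ℝ} (hL : 0 ≤ L)
    (hF : ∀ z w, ‖F z - F w‖ ≤ L * ‖z - w‖) : Continuous F := by
  have h : LipschitzWith L.toNNReal F := by
    apply LipschitzWith.of_dist_le_mul
    intro z w
    rw [dist_eq_norm, dist_eq_norm, Real.coe_toNNReal L hL]
    exact hF z w
  exact h.continuous

omit [NormedSpace ℝ Z] [CompleteSpace Z] in
theorem Pic_cont2 {S : ℝ → Z → Z} (hS : ∀ z, Continuous fun t => S t z) {κ : ℝ} (hκ0 : 0 ≤ κ)
    (hκ : ∀ t z w, ‖S t z - S t w‖ ≤ κ * ‖z - w‖) {F : Z → Z} {L : ℝ} (hL : 0 ≤ L)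
    (hF : ∀ z w, ‖F z - F w‖ ≤ L * ‖z - w‖) {z : ℝ → Z} (hz : Continuous z) :
    Continuous fun p : ℝ × ℝ => S (p.1 - p.2) (F (z p.2)) :=
  (Pic_joint hS hκ0 hκ).comp
    (((Pic_Fcont hL hF).comp (hz.comp continuous_snd)).prodMk (continuous_fst.sub continuous_snd))

theorem Pic_cont {S : ℝ → Z → Z} (hS : ∀ z, Continuous fun t => S t z) {κ : ℝ} (hκ0 : 0 ≤ κ)
    (hκ : ∀ t z w, ‖S t z - S t w‖ ≤ κ * ‖z - w‖) {F : Z → Z} {L : ℝ} (hL : 0 ≤ L)
    (hF : ∀ z w, ‖F z - F w‖ ≤ L * ‖z - w‖) (z0 : Z) {z : ℝ → Z} (hz : Continuous z) :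
    Continuous (Pic_phi S F z0 z) := by
  unfold Pic_phi
  exact (hS z0).add (intervalIntegral.continuous_parametric_intervalIntegral_of_continuous
    (f := fun t s => S (t - s) (F (z s))) (Pic_cont2 hS hκ0 hκ hL hF hz) continuous_id)

theorem Pic_diff {S : ℝ → Z → Z} (hS : ∀ z, Continuous fun t => S t z) {κ : ℝ} (hκ0 : 0 ≤ κ)
    (hκ : ∀ t z w, ‖S t z - S t w‖ ≤ κ * ‖z - w‖) {F : Z → Z} {L : ℝ} (hL : 0 ≤ L)
    (hF : ∀ z w, ‖F z - F w‖ ≤ L * ‖z - w‖) (z0 : Z) {z w : ℝ → Z} (hz : Continuous z)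
    (hw : Continuous w) {g : ℝ → ℝ} (hg : Continuous g) {t : ℝ} (ht : 0 ≤ t)
    (h : ∀ s ∈ Icc 0 t, ‖z s - w s‖ ≤ g s) :
    ‖Pic_phi S F z0 z t - Pic_phi S F z0 w t‖ ≤ ∫ s in (0:ℝ)..t, κ * L * g s := by
  have hcz : Continuous fun s : ℝ => S (t - s) (F (z s)) :=
    (Pic_cont2 hS hκ0 hκ hL hF hz).comp (continuous_const.prodMk continuous_id)
  have hcw : Continuous fun s : ℝ => S (t - s) (F (w s)) :=
    (Pic_cont2 hS hκ0 hκ hL hF hw).comp (continuous_const.prodMk continuous_id)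
  have e : Pic_phi S F z0 z t - Pic_phi S F z0 w t =
      ∫ s in (0:ℝ)..t, (S (t - s) (F (z s)) - S (t - s) (F (w s))) := by
    rw [intervalIntegral.integral_sub (hcz.intervalIntegrable _ _) (hcw.intervalIntegrable _ _)]
    unfold Pic_phi
    abel
  rw [e]
  apply intervalIntegral.norm_integral_le_of_norm_le ht
  · refine Filter.Eventually.of_forall fun s hs => ?_
    calc ‖S (t - s) (F (z s)) - S (t - s) (F (w s))‖ ≤ κ * ‖F (z s) - F (w s)‖ := hκ _ _ _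
      _ ≤ κ * (L * ‖z s - w s‖) := mul_le_mul_of_nonneg_left (hF _ _) hκ0
      _ ≤ κ * (L * g s) :=
        mul_le_mul_of_nonneg_left (mul_le_mul_of_nonneg_left (h s ⟨hs.1.le, hs.2⟩) hL) hκ0
      _ = κ * L * g s := by ring
  · exact (continuous_const.mul hg).intervalIntegrable _ _

theorem Pic_int (K D : ℝ) (n : ℕ) (t : ℝ) :
    ∫ s in (0:ℝ)..t, K * ((K * s) ^ n / (n.factorial : ℝ) * D) =
      (K * t) ^ (n + 1) / ((n + 1).factorial : ℝ) * D := by
  have h1 : ∀ s : ℝ, K * ((K * s) ^ n / (n.factorial : ℝ) * D) =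
      (K ^ (n + 1) / (n.factorial : ℝ) * D) * s ^ n := by
    intro s
    rw [mul_pow]
    ring
  simp_rw [h1]
  rw [intervalIntegral.integral_const_mul, integral_pow]
  have h2 : (n.factorial : ℝ) ≠ 0 := by positivity
  have h3 : ((n : ℝ) + 1) ≠ 0 := by positivity
  rw [Nat.factorial_succ]
  push_cast
  field_simp
  ring

/-- Picard iteration.

Proof.  For `z ∈ C([0,T],Z)` (extended to `ℝ` by `IccExtend`) put
`Φ z (t) = S t z0 + ∫_0^t S (t-s) (F (z s)) ds`.  `(t,y) ↦ S t y` is jointly continuous by `hS`, `hκ`,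
so `Φ z` is continuous (`intervalIntegral.continuous_parametric_intervalIntegral_of_continuous`).
By induction `‖Φ^n z (t) - Φ^n w (t)‖ ≤ (κ L t)^n / n! * dist z w`, so `Φ^n` is a contraction for
large `n`, `ContractingWith.isFixedPt_fixedPoint_iterate`.  (`S t` need not be linear.) -/
theorem picard {S : ℝ → Z → Z} (hS : ∀ z, Continuous fun t => S t z) {κ : ℝ} (hκ0 : 0 ≤ κ)
    (hκ : ∀ t z w, ‖S t z - S t w‖ ≤ κ * ‖z - w‖) {F : Z → Z} {L : ℝ} (hL : 0 ≤ L)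
    (hF : ∀ z w, ‖F z - F w‖ ≤ L * ‖z - w‖) (z0 : Z) {T : ℝ} (hT : 0 ≤ T) :
    ∃ z : ℝ → Z, Continuous z ∧
      ∀ t ∈ Icc 0 T, z t = S t z0 + ∫ s in (0:ℝ)..t, S (t - s) (F (z s)) := by
  let X := C(Icc (0:ℝ) T, Z)
  have hE : ∀ z : X, Continuous (IccExtend hT (z : Icc (0:ℝ) T → Z)) := fun z =>
    z.continuous.Icc_extend'
  let P : X → X := fun z =>
    ⟨fun t => Pic_phi S F z0 (IccExtend hT z) t,
      (Pic_cont hS hκ0 hκ hL hF z0 (hE z)).comp continuous_subtype_val⟩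
  have hP : ∀ (z : X) (t : ℝ), t ∈ Icc (0:ℝ) T →
      IccExtend hT (P z : Icc (0:ℝ) T → Z) t = Pic_phi S F z0 (IccExtend hT z) t := by
    intro z t ht
    rw [IccExtend_of_mem _ _ ht]
    rfl
  have key : ∀ (n : ℕ) (z w : X) (t : ℝ), t ∈ Icc (0:ℝ) T →
      ‖IccExtend hT (P^[n] z : Icc (0:ℝ) T → Z) t - IccExtend hT (P^[n] w : Icc (0:ℝ) T → Z) t‖ ≤
        (κ * L * t) ^ n / (n.factorial : ℝ) * dist z w := by
    intro n
    induction n with
    | zero =>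
      intro z w t ht
      rw [Function.iterate_zero, id, id, IccExtend_of_mem _ _ ht, IccExtend_of_mem _ _ ht,
        ← dist_eq_norm]
      simpa using ContinuousMap.dist_apply_le_dist (f := z) (g := w) (⟨t, ht⟩ : Icc (0:ℝ) T)
    | succ n ih =>
      intro z w t ht
      rw [Function.iterate_succ_apply', Function.iterate_succ_apply', hP _ t ht, hP _ t ht,
        ← Pic_int]
      apply Pic_diff hS hκ0 hκ hL hF z0 (hE _) (hE _) (g := fun s =>
        (κ * L * s) ^ n / (n.factorial : ℝ) * dist z w) (by fun_prop) ht.1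
      intro s hs
      exact ih z w s ⟨hs.1, hs.2.trans ht.2⟩
  obtain ⟨n, hn⟩ : ∃ n : ℕ, (κ * L * T) ^ n / (n.factorial : ℝ) < 1 :=
    ((FloorSemiring.tendsto_pow_div_factorial_atTop (κ * L * T)).eventually_lt_const
      one_pos).exists
  have hK0 : 0 ≤ (κ * L * T) ^ n / (n.factorial : ℝ) := by positivity
  have hcon : ContractingWith ((κ * L * T) ^ n / (n.factorial : ℝ)).toNNReal P^[n] := by
    refine ⟨?_, ?_⟩
    · rw [← Real.toNNReal_one]
      exact (Real.toNNReal_lt_toNNReal_iff one_pos).2 hn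
    · apply LipschitzWith.of_dist_le_mul
      intro z w
      rw [Real.coe_toNNReal _ hK0, ContinuousMap.dist_le (mul_nonneg hK0 dist_nonneg)]
      intro t
      have h1 := key n z w t t.2
      rw [IccExtend_of_mem _ _ t.2, IccExtend_of_mem _ _ t.2, ← dist_eq_norm] at h1
      refine h1.trans (mul_le_mul_of_nonneg_right ?_ dist_nonneg)
      have h0 : 0 ≤ (t : ℝ) := t.2.1
      have h2 : (t : ℝ) ≤ T := t.2.2
      gcongr
  obtain ⟨y, hy⟩ : ∃ y : X, P y = y := ⟨_, hcon.isFixedPt_fixedPoint_iterate⟩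
  refine ⟨IccExtend hT y, hE y, ?_⟩
  intro t ht
  have h1 := hP y t ht
  rw [hy] at h1
  exact h1

end CGL.Neg
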