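import Pool.Agent.W_317df6_h77.KerA

/-!
# The semigroup in a translation invariant Banach space
-/

set_option autoImplicit false

namespace CGL.Neg

open MeasureTheory Set Filter CGL
open scoped ZeroAtInfty ComplexConjugate Topology NNReal ENNReal

variable {N : ℕ} {Z : Type} [NormedAddCommGroup Z] [NormedSpace ℂ Z]

theorem Rep.S_norm_le (R : Rep N Z) {θ : ℝ} (hθ : 0 < Real.cos θ) (t : ℝ) (g : Z) :
    ‖R.S θ t g‖ ≤ (∫ w : E N, ‖K N (eth θ) w‖) * ‖g‖ := by
  rw [R.S_apply hθ t g]
  refine (norm_integral_le_integral_norm _).trans (le_of_eq ?_)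
  simp only [norm_smul, R.norm, integral_mul_const]

/-- the heat semigroup is a contraction (`K_norm_zero`) -/
theorem Rep.S0_norm_le (R : Rep N Z) (t : ℝ) (g : Z) : ‖R.S 0 t g‖ ≤ ‖g‖ := by
  have h0 : 0 < Real.cos 0 := by rw [Real.cos_zero]; exact one_pos
  have h := R.S_norm_le h0 t g
  rw [K_norm_zero, one_mul] at h
  exact h

/-- dominated convergence in `R.S_apply` -/
theorem Rep.S_cont (R : Rep N Z) {θ : ℝ} (hθ : 0 < Real.cos θ) (g : Z) :
    Continuous fun t => R.S θ t g := by
  have h : (fun t => R.S θ t g) = fun t => ∫ w : E N, K N (eth θ) w • R.T (Real.sqrt t • w) g := by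
    funext t
    exact R.S_apply hθ t g
  rw [h]
  refine continuous_of_dominated (bound := fun w : E N => ‖K N (eth θ) w‖ * ‖g‖) ?_ ?_ ?_ ?_
  · intro t
    exact (R.integrable hθ _ g).aestronglyMeasurable
  · intro t
    filter_upwards with w
    rw [norm_smul, R.norm]
  · exact (K_int (N := N) hθ).norm.mul_const ‖g‖
  · filter_upwards with w
    refine continuous_const.smul ((R.cont g).comp ?_)
    exact Real.continuous_sqrt.smul continuous_const

/-- `√t = 0`, `K_one` -/
theorem Rep.S_zero [CompleteSpace Z] (R : Rep N Z) {θ t : ℝ} (hθ : 0 < Real.cos θ) (ht : t ≤ 0)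
    (g : Z) : R.S θ t g = g := by
  rw [R.S_apply hθ t g, Real.sqrt_eq_zero_of_nonpos ht]
  simp only [zero_smul, R.zero]
  rw [integral_smul_const, K_one hθ, one_smul]

/-- `y = √t w` in `R.S_apply` (`Measure.integral_comp_smul`), `K_scale`. -/
theorem Rep.S_apply' (R : Rep N Z) {θ t : ℝ} (hθ : 0 < Real.cos θ) (ht : 0 < t) (g : Z) :
    R.S θ t g = ∫ y : E N, K N ((t : ℂ) * eth θ) y • R.T y g := by
  have hs : 0 < Real.sqrt t := Real.sqrt_pos.2 ht
  have hsN : 0 < Real.sqrt t ^ N := pow_pos hs N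
  rw [R.S_apply hθ t g]
  have h1 : (fun w : E N => K N (eth θ) w • R.T (Real.sqrt t • w) g) = fun w : E N =>
      (Real.sqrt t ^ N) • ((fun y : E N => K N ((t : ℂ) * eth θ) y • R.T y g) (Real.sqrt t • w)) := by
    funext w
    rw [← K_scale hθ ht w]
    simp only [mul_smul, Complex.coe_smul]
  have h2 := Measure.integral_comp_smul (volume : Measure (E N))
    (fun y : E N => K N ((t : ℂ) * eth θ) y • R.T y g) (Real.sqrt t)
  rw [h1, integral_smul, h2, finrank_euclideanSpace, Fintype.card_fin,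
    smul_smul, abs_of_pos (inv_pos.2 hsN), mul_inv_cancel₀ hsN.ne', one_smul]

end CGL.Neg
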