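import Pool.Agent.W_317df6_h77.Defs

/-!
# The space `ZS N`
-/

set_option autoImplicit false

namespace CGL.Neg

open MeasureTheory Set Filter CGL
open scoped ZeroAtInfty ComplexConjugate Topology NNReal ENNReal

variable {N : ℕ}

theorem ZSpA_eval (f : C₀(E N, ℂ)) (x : E N) : ‖f x‖ ≤ ‖f‖ := by
  rw [← ZeroAtInftyContinuousMap.norm_toBCF_eq_norm (f := f)]
  exact f.toBCF.norm_coe_le_norm x

theorem ZSpA_le (f : C₀(E N, ℂ)) {c : ℝ} (hc : 0 ≤ c) (h : ∀ x, ‖f x‖ ≤ c) : ‖f‖ ≤ c := by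
  rw [← ZeroAtInftyContinuousMap.norm_toBCF_eq_norm (f := f),
    BoundedContinuousFunction.norm_le hc]
  exact h

/-- if `(f_n,g_n) → (f,g)` then a subsequence of `g_n` converges a.e. to `g`
(`tendstoInMeasure_of_tendsto_Lp`, `TendstoInMeasure.exists_seq_tendsto_ae`), and `f_n → f`. -/
theorem ZS_closed (N : ℕ) : IsClosed (ZS N : Set (C₀(E N, ℂ) × Lp ℂ 2 (volume : Measure (E N)))) := by
  apply IsSeqClosed.isClosed
  intro p q hp hpq
  have h1 : Tendsto (fun n => (p n).1) atTop (𝓝 q.1) := (continuous_fst.tendsto q).comp hpq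
  have h2 : Tendsto (fun n => (p n).2) atTop (𝓝 q.2) := (continuous_snd.tendsto q).comp hpq
  obtain ⟨ns, hns, h4⟩ := (tendstoInMeasure_of_tendsto_Lp h2).exists_seq_tendsto_ae
  have h5 : ∀ᵐ x : E N, ∀ n, ((p n).2 : E N → ℂ) x = (p n).1 x := by
    rw [ae_all_iff]
    intro n
    exact hp n
  show (q.2 : E N → ℂ) =ᵐ[volume] (q.1 : E N → ℂ)
  filter_upwards [h4, h5] with x hx hx5
  refine tendsto_nhds_unique hx ?_
  have h6 : Tendsto (fun n => (p n).1 x) atTop (𝓝 (q.1 x)) := by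
    rw [tendsto_iff_norm_sub_tendsto_zero] at h1 ⊢
    refine squeeze_zero (fun n => norm_nonneg _) (fun n => ?_) h1
    exact ZSpA_eval ((p n).1 - q.1) x
  have h7 := h6.comp hns.tendsto_atTop
  refine h7.congr fun n => ?_
  exact (hx5 (ns n)).symm

instance : CompleteSpace (ZS N) := (ZS_closed N).completeSpace_coe

theorem ZSpA_TC_zero (f : C₀(E N, ℂ)) : TC 0 f = f := by
  ext x
  rw [TC_apply, sub_zero]

theorem ZSpA_TC_add (x y : E N) (f : C₀(E N, ℂ)) : TC x (TC y f) = TC (x + y) f := by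
  ext w
  rw [TC_apply, TC_apply, TC_apply, sub_sub]

theorem ZSpA_TC_norm (y : E N) (f : C₀(E N, ℂ)) : ‖TC y f‖ = ‖f‖ := by
  apply le_antisymm
  · refine ZSpA_le _ (norm_nonneg f) fun x => ?_
    rw [TC_apply]
    exact ZSpA_eval f _
  · refine ZSpA_le _ (norm_nonneg _) fun x => ?_
    have h := ZSpA_eval (TC y f) (x + y)
    rwa [TC_apply, add_sub_cancel_right] at h

theorem ZSpA_TC_cont (f : C₀(E N, ℂ)) : Continuous fun y => TC y f := by
  rw [Metric.continuous_iff]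
  intro y ε hε
  obtain ⟨δ, hδ, h⟩ := Metric.uniformContinuous_iff.1
    (ZeroAtInftyContinuousMap.uniformContinuous f) (ε / 2) (by linarith)
  refine ⟨δ, hδ, fun y' hy' => ?_⟩
  rw [dist_eq_norm]
  refine lt_of_le_of_lt (ZSpA_le _ (c := ε / 2) (by linarith) fun x => ?_) (by linarith)
  rw [ZeroAtInftyContinuousMap.sub_apply, TC_apply, TC_apply, ← dist_eq_norm]
  refine (h ?_).le
  rw [dist_sub_left]
  exact hy'

theorem ZSpA_TL_zero (g : Lp ℂ 2 (volume : Measure (E N))) : TL 0 g = g := by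
  apply Lp.ext
  filter_upwards [TL_coe 0 g] with x hx
  rw [hx, sub_zero]

theorem ZSpA_TL_add (x y : E N) (g : Lp ℂ 2 (volume : Measure (E N))) :
    TL x (TL y g) = TL (x + y) g := by
  apply Lp.ext
  have h3 := (measurePreserving_sub_right (volume : Measure (E N)) x).quasiMeasurePreserving.ae_eq_comp
    (TL_coe y g)
  filter_upwards [TL_coe x (TL y g), h3, TL_coe (x + y) g] with w h1 h2 h4
  rw [h1, h4]
  rw [Function.comp_apply] at h2
  rw [h2, Function.comp_apply, sub_sub]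

theorem ZSpA_TL_cont (g : Lp ℂ 2 (volume : Measure (E N))) : Continuous fun y => TL y g := by
  have h1 : Continuous fun y : E N => (⟨fun x => x - y, by fun_prop⟩ : C(E N, E N)) := by
    apply ContinuousMap.continuous_of_continuous_uncurry
    exact continuous_snd.sub continuous_fst
  exact Continuous.compMeasurePreservingLp (continuous_const (y := g)) h1
    (fun y => measurePreserving_sub_right volume y) (by norm_num)

/-- the representation on `C_0` (uniform continuity of `f ∈ C_0`) -/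
theorem TC_rep (N : ℕ) : ∃ R : Rep N C₀(E N, ℂ), R.T = TC :=
  ⟨⟨TC, ZSpA_TC_zero, ZSpA_TC_add, ZSpA_TC_norm, ZSpA_TC_cont⟩, rfl⟩

/-- the representation on `L²` (`Continuous.compMeasurePreservingLp`) -/
theorem TL_rep (N : ℕ) : ∃ R : Rep N (Lp ℂ 2 (volume : Measure (E N))),
    ∀ y g, R.T y g = TL y g :=
  ⟨⟨fun y => (TL y).toContinuousLinearMap, ZSpA_TL_zero, ZSpA_TL_add,
    fun y g => (TL y).norm_map g, ZSpA_TL_cont⟩, fun _ _ => rfl⟩

/-- the representation on `ZS N` -/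
theorem TZ_rep (N : ℕ) : ∃ R : Rep N (ZS N), R.T = TZ := by
  refine ⟨⟨TZ, ?_, ?_, ?_, ?_⟩, rfl⟩
  · intro z
    apply Subtype.ext
    exact Prod.ext (ZSpA_TC_zero _) (ZSpA_TL_zero _)
  · intro x y z
    apply Subtype.ext
    exact Prod.ext (ZSpA_TC_add _ _ _) (ZSpA_TL_add _ _ _)
  · intro y z
    show max ‖(TZ y z).1.1‖ ‖(TZ y z).1.2‖ = max ‖z.1.1‖ ‖z.1.2‖
    rw [TZ_fst, TZ_snd, ZSpA_TC_norm, (TL y).norm_map]
  · intro z
    apply Continuous.subtype_mk
    exact (ZSpA_TC_cont z.1.1).prodMk (ZSpA_TL_cont z.1.2)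

noncomputable def RC (N : ℕ) : Rep N C₀(E N, ℂ) := (TC_rep N).choose
noncomputable def RL (N : ℕ) : Rep N (Lp ℂ 2 (volume : Measure (E N))) := (TL_rep N).choose
noncomputable def RZ (N : ℕ) : Rep N (ZS N) := (TZ_rep N).choose

theorem RC_T : (RC N).T = TC := (TC_rep N).choose_spec
theorem RL_T (y : E N) (g : Lp ℂ 2 (volume : Measure (E N))) : (RL N).T y g = TL y g :=
  (TL_rep N).choose_spec y g
theorem RZ_T : (RZ N).T = TZ := (TZ_rep N).choose_spec

end CGL.Neg
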